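import Pool.Agent.Work.MP_d88d93_co.IsoB

-- merged part: Pool.Agent.Work.MP_d88d93_co.Select
section
/-! Selection of two separated parts of a planar point set. -/

namespace Pool.Agent.Work.MP_d88d93_co

open Finset

variable {α : Type}

open Classical in
/-- The part of `A` where `P` holds. -/
noncomputable def selF (A : Finset α) (P : α → Prop) : Finset α := A.filter P

/-- The number of points of `A` where `P` holds. -/
noncomputable def selC (A : Finset α) (P : α → Prop) : ℝ := ((selF A P).card : ℝ)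

lemma mem_selF {A : Finset α} {P : α → Prop} {p : α} : p ∈ selF A P ↔ p ∈ A ∧ P p := by
  simp [selF]

lemma selF_sub (A : Finset α) (P : α → Prop) : selF A P ⊆ A := fun _ h => (mem_selF.1 h).1

lemma selC_mono {A : Finset α} {P Q : α → Prop} (h : ∀ p ∈ A, P p → Q p) :
    selC A P ≤ selC A Q := by
  unfold selC
  exact_mod_cast card_le_card fun p hp =>
    mem_selF.2 ⟨(mem_selF.1 hp).1, h p (mem_selF.1 hp).1 (mem_selF.1 hp).2⟩

lemma selC_le (A : Finset α) (P : α → Prop) : selC A P ≤ A.card := by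
  unfold selC
  exact_mod_cast card_le_card (selF_sub A P)

lemma selC_all {A : Finset α} {P : α → Prop} (h : ∀ p ∈ A, P p) : (A.card : ℝ) ≤ selC A P := by
  unfold selC
  exact_mod_cast card_le_card fun p hp => mem_selF.2 ⟨hp, h p hp⟩

lemma selC_or (A : Finset α) (P Q : α → Prop) :
    selC A (fun p => P p ∨ Q p) ≤ selC A P + selC A Q := by
  classical
  unfold selC
  have h : selF A (fun p => P p ∨ Q p) ⊆ selF A P ∪ selF A Q := by
    intro p hp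
    simp only [mem_union, mem_selF] at hp ⊢
    tauto
  exact_mod_cast (card_le_card h).trans (card_union_le _ _)

lemma selC_disj {A : Finset α} {P Q R : α → Prop} (h : ∀ p, P p → Q p → False)
    (hP : ∀ p, P p → R p) (hQ : ∀ p, Q p → R p) : selC A P + selC A Q ≤ selC A R := by
  classical
  unfold selC
  have h1 : Disjoint (selF A P) (selF A Q) :=
    disjoint_left.2 fun p hp hq => h p (mem_selF.1 hp).2 (mem_selF.1 hq).2
  have h2 : selF A P ∪ selF A Q ⊆ selF A R := by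
    intro p hp
    simp only [mem_union, mem_selF] at hp ⊢
    rcases hp with hp | hp
    exacts [⟨hp.1, hP p hp.2⟩, ⟨hp.1, hQ p hp.2⟩]
  have h3 := card_le_card h2
  rw [card_union_of_disjoint h1] at h3
  exact_mod_cast h3

lemma selC_or3 {A : Finset α} {P Q R S : α → Prop} (h : ∀ p ∈ A, P p → Q p ∨ R p ∨ S p) :
    selC A P ≤ selC A Q + selC A R + selC A S := by
  have h1 := selC_mono h
  have h2 := selC_or A Q fun p => R p ∨ S p
  have h3 := selC_or A R S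
  linarith only [h1, h2, h3]

lemma selC_or5 {A : Finset α} {P Q R S T : α → Prop}
    (h : ∀ p ∈ A, P p ∨ Q p ∨ R p ∨ S p ∨ T p) :
    (A.card : ℝ) ≤ selC A P + selC A Q + selC A R + selC A S + selC A T := by
  have h1 := selC_all h
  have h2 := selC_or A P fun p => Q p ∨ R p ∨ S p ∨ T p
  have h3 := selC_or A Q fun p => R p ∨ S p ∨ T p
  have h4 := selC_or3 (A := A) (P := fun p => R p ∨ S p ∨ T p) fun p _ hp => hp
  linarith

lemma sel_lo (A : Finset α) (f : α → ℝ) {t : ℝ} (h0 : 0 < t) (h1 : t ≤ A.card) :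
    ∃ lo, selC A (fun p => f p < lo) ≤ t ∧ t ≤ selC A (fun p => f p ≤ lo) := by
  have hA : A.Nonempty := by
    rw [← card_pos]
    exact_mod_cast h0.trans_le h1
  obtain ⟨pm, hpm, hmax⟩ := exists_max_image A f hA
  obtain ⟨p0, hp0, hmin⟩ := exists_min_image (selF A fun p => t ≤ selC A fun q => f q ≤ f p) f
    ⟨pm, mem_selF.2 ⟨hpm, h1.trans (selC_all hmax)⟩⟩
  refine ⟨f p0, ?_, (mem_selF.1 hp0).2⟩
  by_contra hcon
  rw [not_le] at hcon
  have hne : (selF A fun p => f p < f p0).Nonempty := by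
    rw [← card_pos]
    have := h0.trans hcon
    unfold selC at this
    exact_mod_cast this
  obtain ⟨q, hq, hqmax⟩ := exists_max_image _ f hne
  have h2 : t ≤ selC A fun r => f r ≤ f q :=
    hcon.le.trans (selC_mono fun r hr hr' => hqmax r (mem_selF.2 ⟨hr, hr'⟩))
  have h3 := hmin q (mem_selF.2 ⟨(mem_selF.1 hq).1, h2⟩)
  linarith [(mem_selF.1 hq).2]

lemma sel_hi (A : Finset α) (f : α → ℝ) {t : ℝ} (h0 : 0 < t) (h1 : t ≤ A.card) :
    ∃ hi, selC A (fun p => hi < f p) ≤ t ∧ t ≤ selC A (fun p => hi ≤ f p) := by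
  obtain ⟨lo, h2, h3⟩ := sel_lo A (fun p => -f p) h0 h1
  exact ⟨-lo, (selC_mono fun p _ hp => by linarith).trans h2,
    h3.trans (selC_mono fun p _ hp => by linarith)⟩

/-- The four quantiles. -/
structure SelQ (A : Finset α) (f : α → ℝ) (n y1 y2 y3 y4 : ℝ) : Prop where
  o1 : y1 ≤ y2
  o2 : y2 ≤ y3
  o3 : y3 ≤ y4
  a1 : selC A (fun p => f p < y1) ≤ n / 10 ^ 10
  b1 : n / 10 ^ 10 ≤ selC A (fun p => f p ≤ y1)
  a2 : selC A (fun p => f p < y2) ≤ 4 * n / 10 ^ 8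
  b2 : 4 * n / 10 ^ 8 ≤ selC A (fun p => f p ≤ y2)
  a3 : selC A (fun p => y3 < f p) ≤ 4 * n / 10 ^ 8
  b3 : 4 * n / 10 ^ 8 ≤ selC A (fun p => y3 ≤ f p)
  a4 : selC A (fun p => y4 < f p) ≤ n / 10 ^ 10
  b4 : n / 10 ^ 10 ≤ selC A (fun p => y4 ≤ f p)

lemma sel_quant (A : Finset α) (f : α → ℝ) {n : ℝ} (hn : 100 ≤ n) (hA1 : n / 4 ≤ (A.card : ℝ)) :
    ∃ y1 y2 y3 y4, SelQ A f n y1 y2 y3 y4 := by
  obtain ⟨y1, a1, b1⟩ := sel_lo A f (t := n / 10 ^ 10) (by positivity) (by linarith only [hn, hA1])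
  obtain ⟨y2, a2, b2⟩ := sel_lo A f (t := 4 * n / 10 ^ 8) (by positivity) (by linarith only [hn, hA1])
  obtain ⟨y3, a3, b3⟩ := sel_hi A f (t := 4 * n / 10 ^ 8) (by positivity) (by linarith only [hn, hA1])
  obtain ⟨y4, a4, b4⟩ := sel_hi A f (t := n / 10 ^ 10) (by positivity) (by linarith only [hn, hA1])
  refine ⟨y1, y2, y3, y4, ?_, ?_, ?_, a1, b1, a2, b2, a3, b3, a4, b4⟩
  · by_contra h
    rw [not_le] at h
    have := selC_mono (A := A) (P := fun p => f p ≤ y2) (Q := fun p => f p < y1)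
      fun p _ hp => hp.trans_lt h
    linarith only [hn, a1, b2, this]
  · by_contra h
    rw [not_le] at h
    have h1 := selC_all (A := A) (P := fun p => f p < y2 ∨ y3 < f p) fun p _ => by
      rcases lt_or_ge (f p) y2 with h2 | h2
      exacts [Or.inl h2, Or.inr (h.trans_le h2)]
    have h2 := selC_or A (fun p => f p < y2) fun p => y3 < f p
    linarith only [hn, hA1, a2, a3, h1, h2]
  · by_contra h
    rw [not_le] at h
    have := selC_mono (A := A) (P := fun p => y3 ≤ f p) (Q := fun p => y4 < f p)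
      fun p _ hp => h.trans_le hp
    linarith only [hn, b3, a4, this]

lemma sel_pig (A : Finset α) (f : α → ℝ) {N : ℕ} (hN : 0 < N) (lo : ℝ) {δ : ℝ} (hδ : 0 < δ) :
    ∃ k < N, N * selC A (fun p => lo + k * δ < f p ∧ f p < lo + (k + 1) * δ) ≤ A.card := by
  have h1 : ∀ m : ℕ, ∑ k ∈ range m, selC A (fun p => lo + k * δ < f p ∧ f p < lo + (k + 1) * δ)
      ≤ selC A (fun p => f p < lo + m * δ) := by
    intro m
    induction m with
    | zero => simp [selC]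
    | succ m ih =>
      rw [sum_range_succ]
      have := selC_disj (A := A) (P := fun p => f p < lo + m * δ)
        (Q := fun p => lo + m * δ < f p ∧ f p < lo + (m + 1) * δ)
        (R := fun p => f p < lo + ((m + 1 : ℕ) : ℝ) * δ) (fun p hp hq => by linarith only [hp, hq, hq.1])
        (fun p hp => by push_cast; linarith) (fun p hp => by push_cast; exact hp.2)
      linarith
  by_contra hcon
  push Not at hcon
  have h2 := sum_lt_sum_of_nonempty (s := range N) ⟨0, mem_range.2 hN⟩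
    fun k hk => hcon k (mem_range.1 hk)
  rw [← mul_sum, sum_const, card_range, nsmul_eq_mul] at h2
  have h3 := (h1 N).trans (selC_le _ _)
  have h4 : (0 : ℝ) ≤ N := Nat.cast_nonneg N
  linarith only [h2, h3, mul_nonneg_of_nonpos_of_nonpos (Mathlib.Tactic.Linarith.sub_nonpos_of_le (Mathlib.Tactic.Linarith.natCast_nonneg ℝ N)) (Mathlib.Tactic.Linarith.sub_nonpos_of_le h3)]

lemma sel_caseA {A : Finset α} {Y Z : α → ℝ} {n y1 y2 y3 y4 z1 z2 z3 z4 : ℝ} (hn : 100 ≤ n)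
    (hA2 : (A.card : ℝ) ≤ n) (hY : SelQ A Y n y1 y2 y3 y4) (hZ : SelQ A Z n z1 z2 z3 z4)
    (h : (z4 - z1) / 10 < y3 - y2) : Good A Y Z n := by
  have hz : z1 ≤ z4 := hZ.o1.trans (hZ.o2.trans hZ.o3)
  have hw : 0 < y3 - y2 := by linarith only [h, hz]
  obtain ⟨N, hN⟩ : ∃ N : ℕ, (N : ℝ) = 10 ^ 10 := ⟨10 ^ 10, by norm_num⟩
  have hN0 : 0 < N := by
    have : (0 : ℝ) < N := by rw [hN]; positivity
    exact_mod_cast this
  obtain ⟨δ, hδ⟩ : ∃ δ : ℝ, δ = (y3 - y2) / 10 ^ 10 := ⟨_, rfl⟩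
  have hδ0 : 0 < δ := by rw [hδ]; positivity
  obtain ⟨k, hk, hgap⟩ := sel_pig A Y hN0 y2 hδ0
  rw [hN] at hgap
  have hk1 : (k : ℝ) + 1 ≤ 10 ^ 10 := by
    rw [← hN]
    exact_mod_cast hk
  have hk2 : ((k : ℝ) + 1) * δ ≤ y3 - y2 := by
    have := mul_le_mul_of_nonneg_right hk1 hδ0.le
    linarith only [hδ, this]
  have hk3 : 0 ≤ (k : ℝ) * δ := by positivity
  have a1 := hZ.a1
  have a4 := hZ.a4
  refine ⟨selF A fun p => Y p ≤ y2 + k * δ ∧ z1 ≤ Z p ∧ Z p ≤ z4,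
    selF A fun p => y2 + (k + 1) * δ ≤ Y p ∧ z1 ≤ Z p ∧ Z p ≤ z4, selF_sub _ _, selF_sub _ _,
    fun p hp p' hp' => ?_, Or.inl ⟨?_, ?_, ?_⟩⟩
  · obtain ⟨-, h1, h2, h3⟩ := mem_selF.1 hp
    obtain ⟨-, h4, h5, h6⟩ := mem_selF.1 hp'
    rw [div_lt_iff₀ (by positivity), abs_lt]
    constructor <;> linarith only [h, hδ, h1, h3, h4, h5, h2, h6]
  · have h1 := selC_or3 (A := A) (P := fun p => Y p ≤ y2)
      (Q := fun p => Y p ≤ y2 + k * δ ∧ z1 ≤ Z p ∧ Z p ≤ z4) (R := fun p => Z p < z1)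
      (S := fun p => z4 < Z p) fun p _ hp => by
        rcases lt_or_ge (Z p) z1 with h2 | h2
        · exact Or.inr (Or.inl h2)
        rcases lt_or_ge z4 (Z p) with h3 | h3
        · exact Or.inr (Or.inr h3)
        exact Or.inl ⟨by linarith only [hk3, hp], h2, h3⟩
    have h2 := hY.b2
    change _ ≤ selC A _
    linarith only [hn, a1, a4, h1, h2]
  · have h1 := selC_or3 (A := A) (P := fun p => y3 ≤ Y p)
      (Q := fun p => y2 + (k + 1) * δ ≤ Y p ∧ z1 ≤ Z p ∧ Z p ≤ z4) (R := fun p => Z p < z1)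
      (S := fun p => z4 < Z p) fun p _ hp => by
        rcases lt_or_ge (Z p) z1 with h2 | h2
        · exact Or.inr (Or.inl h2)
        rcases lt_or_ge z4 (Z p) with h3 | h3
        · exact Or.inr (Or.inr h3)
        exact Or.inl ⟨by linarith only [hk2, hp], h2, h3⟩
    have h2 := hY.b3
    change _ ≤ selC A _
    linarith only [hn, a1, a4, h1, h2]
  · have h1 := selC_or5 (A := A) (P := fun p => Y p ≤ y2 + k * δ ∧ z1 ≤ Z p ∧ Z p ≤ z4)
      (Q := fun p => y2 + (k + 1) * δ ≤ Y p ∧ z1 ≤ Z p ∧ Z p ≤ z4)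
      (R := fun p => y2 + k * δ < Y p ∧ Y p < y2 + (k + 1) * δ) (S := fun p => Z p < z1)
      (T := fun p => z4 < Z p) fun p _ => by
        rcases lt_or_ge (Z p) z1 with h2 | h2
        · exact Or.inr (Or.inr (Or.inr (Or.inl h2)))
        rcases lt_or_ge z4 (Z p) with h3 | h3
        · exact Or.inr (Or.inr (Or.inr (Or.inr h3)))
        rcases le_or_gt (Y p) (y2 + k * δ) with h4 | h4
        · exact Or.inl ⟨h4, h2, h3⟩
        rcases le_or_gt (y2 + (k + 1) * δ) (Y p) with h5 | h5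
        · exact Or.inr (Or.inl ⟨h5, h2, h3⟩)
        exact Or.inr (Or.inr (Or.inl ⟨h4, h5⟩))
    change _ ≤ selC A _ + selC A _ + _
    linarith only [hA2, hgap, a1, a4, h1]

lemma sel_caseB {A : Finset α} {Y Z : α → ℝ} {n w : ℝ} (hn : 100 ≤ n) (hw : 0 < w)
    {P F : α → Prop} (hP : (A.card : ℝ) ≤ selC A P + 16 * n / 10 ^ 8)
    (hdY : ∀ q, P q → ∀ q', P q' → Y q - Y q' ≤ w / 10)
    (hdZ : ∀ q, P q → ∀ q', P q' → Z q - Z q' ≤ w / 10)
    (hF : n / 10 ^ 10 ≤ selC A F) (hfar : ∀ p, F p → ∀ q, P q → 9 / 20 * w ≤ Y p - Y q) :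
    Good A Y Z n ∨ Good A Z Y n ∨ Good A (fun p => -Z p) Y n := by
  have h1 := selC_or3 (A := A) (P := F)
    (Q := fun p => ∀ q, P q → |Z p - Z q| / 10 ^ 11 < Y p - Y q)
    (R := fun p => ∃ q, P q ∧ 9 / 20 * w ≤ Y p - Y q ∧ 10 ^ 11 * (Y p - Y q) ≤ Z p - Z q)
    (S := fun p => ∃ q, P q ∧ 9 / 20 * w ≤ Y p - Y q ∧ 10 ^ 11 * (Y p - Y q) ≤ Z q - Z p)
    fun p _ hp => by
      by_cases h : ∀ q, P q → |Z p - Z q| / 10 ^ 11 < Y p - Y q
      · exact Or.inl h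
      push Not at h
      obtain ⟨q, hq, h2⟩ := h
      rw [le_div_iff₀ (by positivity), le_abs] at h2
      rcases h2 with h2 | h2
      · exact Or.inr (Or.inl ⟨q, hq, hfar p hp q hq, by linarith only [h2]⟩)
      · exact Or.inr (Or.inr ⟨q, hq, hfar p hp q hq, by linarith only [h2]⟩)
  by_cases c1 : n / (4 * 10 ^ 10) ≤
      selC A fun p => ∀ q, P q → |Z p - Z q| / 10 ^ 11 < Y p - Y q
  · refine Or.inl ⟨selF A P, _, selF_sub _ _, selF_sub _ _,
      fun p hp p' hp' => ?_, Or.inr ⟨c1, hP⟩⟩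
    exact (mem_selF.1 hp').2 p (mem_selF.1 hp).2
  by_cases c2 : n / (4 * 10 ^ 10) ≤ selC A fun p =>
      ∃ q, P q ∧ 9 / 20 * w ≤ Y p - Y q ∧ 10 ^ 11 * (Y p - Y q) ≤ Z p - Z q
  · refine Or.inr (Or.inl ⟨selF A P, _, selF_sub _ _, selF_sub _ _,
      fun p hp p' hp' => ?_, Or.inr ⟨c2, hP⟩⟩)
    obtain ⟨-, q, hq, h2, h3⟩ := mem_selF.1 hp'
    have hp1 := (mem_selF.1 hp).2
    have h4 := hdY q hq p hp1
    have h5 := hdY p hp1 q hq
    have h6 := hdZ p hp1 q hq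
    rw [div_lt_iff₀ (by positivity), abs_lt]
    constructor <;> linarith only [hw, h2, h3, h5, h6, h4]
  · have c3 : n / (4 * 10 ^ 10) ≤ selC A fun p =>
        ∃ q, P q ∧ 9 / 20 * w ≤ Y p - Y q ∧ 10 ^ 11 * (Y p - Y q) ≤ Z q - Z p := by
      rw [not_le] at c1 c2
      linarith only [hn, hF, h1, c1, c2]
    refine Or.inr (Or.inr ⟨selF A P, _, selF_sub _ _, selF_sub _ _,
      fun p hp p' hp' => ?_, Or.inr ⟨c3, hP⟩⟩)
    obtain ⟨-, q, hq, h2, h3⟩ := mem_selF.1 hp'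
    have hp1 := (mem_selF.1 hp).2
    have h4 := hdY q hq p hp1
    have h5 := hdY p hp1 q hq
    have h6 := hdZ q hq p hp1
    rw [div_lt_iff₀ (by positivity), abs_lt]
    constructor <;> linarith only [hw, h2, h3, h5, h6, h4]

lemma sel_neg {A : Finset α} {Y Z : α → ℝ} {n : ℝ} (h : Good A Z (fun p => -Y p) n) :
    Good A Z Y n := by
  obtain ⟨X, X', h1, h2, h3, h4⟩ := h
  refine ⟨X, X', h1, h2, fun p hp p' hp' => ?_, h4⟩
  have := h3 p hp p' hp'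
  rwa [neg_sub_neg, abs_sub_comm] at this

lemma sel_box (A : Finset α) (Y Z : α → ℝ) (a b c d : ℝ) :
    (A.card : ℝ) ≤ selC A (fun p => a ≤ Y p ∧ Y p ≤ b ∧ c ≤ Z p ∧ Z p ≤ d) +
      selC A (fun p => Y p < a) + selC A (fun p => b < Y p) + selC A (fun p => Z p < c) +
      selC A (fun p => d < Z p) := by
  refine selC_or5 fun p _ => ?_
  rcases lt_or_ge (Y p) a with h1 | h1
  · exact Or.inr (Or.inl h1)
  rcases lt_or_ge b (Y p) with h2 | h2
  · exact Or.inr (Or.inr (Or.inl h2))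
  rcases lt_or_ge (Z p) c with h3 | h3
  · exact Or.inr (Or.inr (Or.inr (Or.inl h3)))
  rcases lt_or_ge d (Z p) with h4 | h4
  · exact Or.inr (Or.inr (Or.inr (Or.inr h4)))
  exact Or.inl ⟨h1, h2, h3, h4⟩

lemma sel_core {A : Finset α} {Y Z : α → ℝ} {n y1 y2 y3 y4 z1 z2 z3 z4 : ℝ} (hn : 100 ≤ n)
    (hA1 : n / 4 ≤ (A.card : ℝ)) (hinj : ∀ p ∈ A, ∀ q ∈ A, Y p = Y q → Z p = Z q → p = q)
    (hY : SelQ A Y n y1 y2 y3 y4) (hZ : SelQ A Z n z1 z2 z3 z4)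
    (h1 : y3 - y2 ≤ (z4 - z1) / 10) (h2 : z3 - z2 ≤ (y4 - y1) / 10) (h3 : z4 - z1 ≤ y4 - y1) :
    Good A Y Z n ∨ Good A (fun p => -Y p) Z n ∨ Good A Z Y n ∨ Good A (fun p => -Z p) Y n := by
  have hz : z1 ≤ z4 := hZ.o1.trans (hZ.o2.trans hZ.o3)
  have hw : 0 < y4 - y1 := by
    by_contra hcon
    rw [not_lt] at hcon
    have h4 := sel_box A Y Z y1 y4 z1 z4
    have h5 : (selF A fun p => y1 ≤ Y p ∧ Y p ≤ y4 ∧ z1 ≤ Z p ∧ Z p ≤ z4).card ≤ 1 := by
      refine card_le_one.2 fun p hp q hq => ?_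
      obtain ⟨hp, a1, a2, a3, a4⟩ := mem_selF.1 hp
      obtain ⟨hq, b1, b2, b3, b4⟩ := mem_selF.1 hq
      exact hinj p hp q hq (by linarith only [hcon, a1, b2, a2, b1]) (by linarith only [h3, hcon, a3, b4, a4, b3])
    have h6 : selC A (fun p => y1 ≤ Y p ∧ Y p ≤ y4 ∧ z1 ≤ Z p ∧ Z p ≤ z4) ≤ 1 := by
      unfold selC
      exact_mod_cast h5
    linarith only [hn, hA1, h4, h6, hY, hZ, hY.a1, hY.a4, hZ.a1, hZ.a4]
  have hP : (A.card : ℝ) ≤ selC A (fun p => y2 ≤ Y p ∧ Y p ≤ y3 ∧ z2 ≤ Z p ∧ Z p ≤ z3)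
      + 16 * n / 10 ^ 8 := by
    linarith only [hY, hZ, sel_box A Y Z y2 y3 z2 z3, hY.a2, hY.a3, hZ.a2, hZ.a3]
  rcases le_total (y2 - y1) (y4 - y3) with h4 | h4
  · rcases sel_caseB (Y := Y) (Z := Z) hn hw hP
      (fun q hq q' hq' => by linarith only [h1, h3, hq, hq', hq.2.1, hq'.1])
      (fun q hq q' hq' => by linarith only [h2, hq, hq', hq.2.2.2, hq'.2.2.1]) hY.b4
      (fun p hp q hq => by linarith only [h1, h3, h4, hp, hq, hq.2.1]) with h | h | h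
    exacts [Or.inl h, Or.inr (Or.inr (Or.inl h)), Or.inr (Or.inr (Or.inr h))]
  · rcases sel_caseB (Y := fun p => -Y p) (Z := Z) hn hw hP
      (fun q hq q' hq' => by linarith only [h1, h3, hq, hq', hq'.2.1, hq.1])
      (fun q hq q' hq' => by linarith only [h2, hq, hq', hq.2.2.2, hq'.2.2.1]) hY.b1
      (fun p hp q hq => by linarith only [h1, h3, h4, hp, hq, hq.1]) with h | h | h
    exacts [Or.inr (Or.inl h), Or.inr (Or.inr (Or.inl (sel_neg h))),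
      Or.inr (Or.inr (Or.inr (sel_neg h)))]

variable [DecidableEq α]

omit [DecidableEq α] in
theorem select (A : Finset α) (Y Z : α → ℝ) {n : ℝ} (hn : 100 ≤ n) (hA1 : n / 4 ≤ (A.card : ℝ))
    (hA2 : (A.card : ℝ) ≤ n) (hinj : ∀ p ∈ A, ∀ q ∈ A, Y p = Y q → Z p = Z q → p = q) :
    Good A Y Z n ∨ Good A (fun p => -Y p) Z n ∨ Good A Z Y n ∨ Good A (fun p => -Z p) Y n := by
  obtain ⟨y1, y2, y3, y4, hY⟩ := sel_quant A Y hn hA1
  obtain ⟨z1, z2, z3, z4, hZ⟩ := sel_quant A Z hn hA1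
  rcases lt_or_ge ((z4 - z1) / 10) (y3 - y2) with h1 | h1
  · exact Or.inl (sel_caseA hn hA2 hY hZ h1)
  rcases lt_or_ge ((y4 - y1) / 10) (z3 - z2) with h2 | h2
  · exact Or.inr (Or.inr (Or.inl (sel_caseA hn hA2 hZ hY h2)))
  rcases le_total (z4 - z1) (y4 - y1) with h3 | h3
  · exact sel_core hn hA1 hinj hY hZ h1 h2 h3
  · rcases sel_core hn hA1 (fun p hp q hq a b => hinj p hp q hq b a) hZ hY h2 h1 h3
      with h | h | h | h
    exacts [Or.inr (Or.inr (Or.inl h)), Or.inr (Or.inr (Or.inr h)), Or.inl h, Or.inr (Or.inl h)]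

end Pool.Agent.Work.MP_d88d93_co
end

-- merged part: Pool.Agent.Work.MP_d88d93_co.T4c
section
/-! Three orthogonal clusters are impossible. -/

namespace Pool.Agent.Work.MP_d88d93_co

open Finset

variable {α : Type} [DecidableEq α]

omit [DecidableEq α] in
theorem near_neg_t4c (C : Conf α) (a : V3) (ρ : ℝ) : C.near (-a) ρ = C.near a ρ := by
  ext p
  rw [C.mem_near, C.mem_near, dot_neg_left, neg_sq]

theorem T4 (C : Conf α) (hT : C.Tight (1 / 10 ^ 70)) {e1 e2 e3 : V3} (hF : Frame e1 e2 e3)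
    (hj : ((C.S \ (C.near e1 (1 / 10 ^ 24) ∪ C.near e2 (1 / 10 ^ 24)
      ∪ C.near e3 (1 / 10 ^ 24))).card : ℝ) ≤ 1 / 10 ^ 24 * C.n) : False := by
  classical
  have hn := hT.n_pos
  have hbig := hT.big
  set A := (C.near e1 (1 / 10 ^ 24)).filter fun p => C.D p ≤ 1 / 10 ^ 24 * C.n with hAdef
  have hA : A ⊆ C.near e1 (1 / 10 ^ 24) := filter_subset _ _
  have hD : ∀ p ∈ A, C.D p ≤ 1 / 10 ^ 24 * C.n := fun p hp => (mem_filter.1 hp).2
  have hS : C.near e1 (1 / 10 ^ 24) ⊆ C.S := fun p h => (C.mem_near.1 h).1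
  have s1 := sizes C hT (κ := 1 / 10 ^ 24) (by norm_num) hF hj
  have hA1 : C.n / 3 - 4 * C.n / 10 ^ 24 ≤ (A.card : ℝ) := by
    clear * - α C e1 hT hS A hn s1
    have h1 := C.markov hT (T := (C.near e1 (1 / 10 ^ 24)).filter
      fun p => ¬ C.D p ≤ 1 / 10 ^ 24 * C.n) ((filter_subset _ _).trans hS)
      (t := 1 / 10 ^ 24 * C.n) fun p hp => (not_le.1 (mem_filter.1 hp).2).le
    have h2 := card_filter_add_card_filter_not (s := C.near e1 (1 / 10 ^ 24))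
      fun p => C.D p ≤ 1 / 10 ^ 24 * C.n
    set r := ((C.near e1 (1 / 10 ^ 24)).filter fun p => ¬ C.D p ≤ 1 / 10 ^ 24 * C.n).card
    have h3 : (A.card : ℝ) + r = (C.near e1 (1 / 10 ^ 24)).card := by
      rw [← h2, Nat.cast_add]
    have h4 : (r : ℝ) ≤ C.n / 10 ^ 24 := by
      refine le_of_mul_le_mul_left (a := C.n) ?_ hn
      linarith only [h1, mul_self_nonneg ((1 : ℝ) * C.n)]
    linarith only [s1, h3, h4, s1.1]
  have hinj : ∀ p ∈ A, ∀ q ∈ A, dot e2 (C.u p) / dot e1 (C.u p) = dot e2 (C.u q) / dot e1 (C.u q) →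
      dot e3 (C.u p) / dot e1 (C.u p) = dot e3 (C.u q) / dot e1 (C.u q) → p = q := by
    intro p hp q hq h2 h3
    by_contra hne
    have a1 := (near_t4b hF (hA hp)).1
    have a2 := (near_t4b hF (hA hq)).1
    have b1 := hF.sum_sq (C.unit p (hS (hA hp)))
    have b2 := hF.sum_sq (C.unit q (hS (hA hq)))
    have b3 := C.ne p (hS (hA hp)) q (hS (hA hq)) hne
    rw [hF.pars] at b3
    rw [div_eq_div_iff a1 a2] at h2 h3
    set x1 := dot e1 (C.u p)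
    set x2 := dot e2 (C.u p)
    set x3 := dot e3 (C.u p)
    set y1 := dot e1 (C.u q)
    set y2 := dot e2 (C.u q)
    set y3 := dot e3 (C.u q)
    have h4 : x2 * y3 = x3 * y2 := by
      refine mul_left_cancel₀ a1 ?_
      linear_combination x3 * h2 - x2 * h3
    have h5 : (x1 * y1 + x2 * y2 + x3 * y3) ^ 2 = 1 := by
      have h6 : (x1 ^ 2 + x2 ^ 2 + x3 ^ 2) * (y1 ^ 2 + y2 ^ 2 + y3 ^ 2) = 1 := by
        rw [b1, b2, mul_one]
      have h7 : (x2 * y1 - y2 * x1) ^ 2 + (x3 * y1 - y3 * x1) ^ 2 + (x2 * y3 - x3 * y2) ^ 2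
          = 0 := by
        rw [h2, h3, h4]
        ring
      linear_combination h6 - h7
    exact b3.ne h5
  have j23 : ((C.S \ (C.near e1 (1 / 10 ^ 24) ∪ C.near e3 (1 / 10 ^ 24)
      ∪ C.near e2 (1 / 10 ^ 24))).card : ℝ) ≤ 1 / 10 ^ 24 * C.n := by
    rwa [union_right_comm]
  rcases select A _ _ (n := C.n) (by linarith only [hbig]) (by linarith only [hbig, hA1]) (C.card_le_n (hA.trans hS)) hinj
    with h | h | h | h
  · exact good_false C hT hF hj hA hD hA1 h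
  · refine good_false C hT hF.neg2 (by rwa [near_neg_t4c]) hA hD hA1 ?_
    simpa only [dot_neg_left, neg_div] using h
  · exact good_false C hT hF.swap23 j23 hA hD hA1 h
  · refine good_false C hT hF.swap23.neg2 (by rwa [near_neg_t4c]) hA hD hA1 ?_
    simpa only [dot_neg_left, neg_div] using h

end Pool.Agent.Work.MP_d88d93_co
end

-- merged part: Pool.Agent.Work.MP_d88d93_co.T2a
section
/-! Strip lemma, first part: spread, far points, near minimiser. -/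

namespace Pool.Agent.Work.MP_d88d93_co

open Finset

variable {α : Type} [DecidableEq α]

theorem spread_unit_T2a (C : Conf α) {ν : V3} (hν : dot ν ν = 1) {e c0 θ : ℝ} {Y K : Finset α}
    (hY : Y ⊆ C.S) (hK : K ⊆ Y) (hne : K.Nonempty) (he : ∀ p ∈ Y, |dot ν (C.u p)| ≤ e)
    (hc : ∀ p ∈ Y, c0 * C.n ≤ ∑ q ∈ Y, C.s p q ^ 2 * (1 - C.s p q ^ 2))
    (hθ : ((Y \ K).card : ℝ) ≤ θ * C.n) (hs : θ + 4 * e ^ 2 ≤ c0 / 2)
    {v : V3} (hv : dot v ν = 0) (hv1 : dot v v = 1) :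
    c0 * C.n / 8 ≤ ∑ q ∈ K, dot v (C.u q) ^ 2 := by
  obtain ⟨p, hp, hmin⟩ := Finset.exists_min_image K (fun q => dot v (C.u q) ^ 2) hne
  have hF := frame_cross hv1 hν hv
  have hb : ∀ q ∈ K, 1 - dot (cross v ν) (C.u q) ^ 2 ≤ dot v (C.u q) ^ 2 + e ^ 2 := by
    intro q hq
    have h1 := hF.sum_sq (C.unit q (hY (hK hq)))
    have h2 : dot ν (C.u q) ^ 2 ≤ e ^ 2 := by
      rw [← sq_abs]
      exact pow_le_pow_left₀ (abs_nonneg _) (he q (hK hq)) 2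
    linarith only [h1, h2]
  have h1 : ∑ q ∈ Y \ K, C.s p q ^ 2 * (1 - C.s p q ^ 2) ≤ ((Y \ K).card : ℝ) := by
    clear * - α Y K C p
    have : ∑ q ∈ Y \ K, C.s p q ^ 2 * (1 - C.s p q ^ 2) ≤ ∑ _q ∈ Y \ K, (1 : ℝ) :=
      Finset.sum_le_sum fun q _ => by linarith only [sq_nonneg (C.s p q ^ 2 - 1 / 2), sq_nonneg ((2 : ℝ) * ((1 : ℝ) * C.s p q) ^ (2 : ℕ) - (1 : ℝ) * (1 : ℝ))]
    simpa using this
  have h2 : ∑ q ∈ K, C.s p q ^ 2 * (1 - C.s p q ^ 2) ≤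
      ∑ q ∈ K, (4 * dot v (C.u q) ^ 2 + 4 * e ^ 2) := by
    clear * - α C p v e K ν hF hY hK hp hb hmin
    refine Finset.sum_le_sum fun q hq => ?_
    have k1 := tri hF.u3 (C.unit p (hY (hK hp))) (C.unit q (hY (hK hq)))
    have k2 := hb p hp
    have k3 := hb q hq
    have k4 := hmin q hq
    have k5 : C.s p q ^ 2 * (1 - C.s p q ^ 2) ≤ 1 - C.s p q ^ 2 := by
      linarith only [sq_nonneg (1 - C.s p q ^ 2), sq_nonneg ((1 : ℝ) - C.s p q ^ (2 : ℕ))]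
    have k6 : C.s p q = dot (C.u p) (C.u q) := rfl
    rw [← k6] at k1
    linarith only [k1, k2, k3, k4, k5]
  rw [Finset.sum_add_distrib, ← Finset.mul_sum, Finset.sum_const, nsmul_eq_mul] at h2
  have h3 := hc p (hK hp)
  rw [← Finset.sum_sdiff hK] at h3
  have h4 : (K.card : ℝ) * (4 * e ^ 2) ≤ C.n * (4 * e ^ 2) :=
    mul_le_mul_of_nonneg_right (C.card_le_n (hK.trans hY)) (by positivity)
  have h5 : (θ + 4 * e ^ 2) * C.n ≤ c0 / 2 * C.n := mul_le_mul_of_nonneg_right hs C.n_nonneg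
  clear * - c0 α C K v Y θ p e hθ h1 h2 h3 h4 h5
  linarith only [hθ, h1, h2, h3, h4, h5]

theorem spread (C : Conf α) {ν : V3} (hν : dot ν ν = 1) {e c0 θ : ℝ} {Y K : Finset α}
    (hY : Y ⊆ C.S) (hK : K ⊆ Y) (hne : K.Nonempty) (he : ∀ p ∈ Y, |dot ν (C.u p)| ≤ e)
    (hc : ∀ p ∈ Y, c0 * C.n ≤ ∑ q ∈ Y, C.s p q ^ 2 * (1 - C.s p q ^ 2))
    (hθ : ((Y \ K).card : ℝ) ≤ θ * C.n) (hs : θ + 4 * e ^ 2 ≤ c0 / 2)
    {v : V3} (hv : dot v ν = 0) :
    c0 * C.n / 8 * dot v v ≤ ∑ q ∈ K, dot v (C.u q) ^ 2 := by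
  rcases (dot_self_nonneg v).lt_or_eq with h0 | h0
  · obtain ⟨t, ht0, ht1, ht2⟩ := exists_unit h0
    have h1 := spread_unit_T2a C hν hY hK hne he hc hθ hs (v := t • v)
      (by rw [dot_smul_left, hv, mul_zero]) ht2
    have h2 : ∑ q ∈ K, dot (t • v) (C.u q) ^ 2 = t ^ 2 * ∑ q ∈ K, dot v (C.u q) ^ 2 := by
      rw [Finset.mul_sum]
      exact Finset.sum_congr rfl fun q _ => by rw [dot_smul_left, mul_pow]
    rw [h2] at h1
    have h3 := mul_le_mul_of_nonneg_right h1 h0.le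
    calc _ ≤ _ := h3
      _ = (t ^ 2 * dot v v) * ∑ q ∈ K, dot v (C.u q) ^ 2 := by ring
      _ = _ := by rw [ht1, one_mul]
  · rw [← h0, mul_zero]
    exact Finset.sum_nonneg fun q _ => sq_nonneg _

theorem far (C : Conf α) {ν : V3} {c0 R B0 θ : ℝ} {K : Finset α} {p : α} (hp : p ∈ C.S)
    (hc0 : 0 < c0) (hc1 : c0 ≤ 1) (hR : 0 ≤ R) (hK : K ⊆ C.S)
    (hKR : ∀ q ∈ K, |dot ν (C.u q)| ≤ R) (hθ : θ ≤ c0 ^ 2 / 512)
    (hout : ((C.strip ν B0 \ K).card : ℝ) ≤ θ * C.n)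
    (hc : 3 / 4 * c0 * C.n ≤ ∑ q ∈ K, C.s p q ^ 2 * (1 - C.s p q ^ 2))
    (hfar : 16 * R < c0 * |dot ν (C.u p)|) (hB : 32 * |dot ν (C.u p)| ≤ c0 * B0) :
    c0 ^ 2 * C.n / 128 ≤ C.D p := by
  obtain ⟨Y0, hY0⟩ : ∃ Y0, Y0 = |dot ν (C.u p)| := ⟨_, rfl⟩
  rw [← hY0] at hfar hB
  have hn := C.n_nonneg
  have hY0pos : 0 < Y0 := by
    by_contra h
    push Not at h
    linarith only [h, hc0, hR, hfar, mul_nonneg_of_nonpos_of_nonpos (Mathlib.Tactic.Linarith.sub_nonpos_of_le (sq_nonneg ((1 : ℝ) * c0))) (Mathlib.Tactic.Linarith.sub_nonpos_of_le h), mul_nonneg_of_nonpos_of_nonpos (le_of_lt (Mathlib.Tactic.Linarith.sub_neg_of_lt hc0)) (Mathlib.Tactic.Linarith.sub_nonpos_of_le hR), mul_pos_of_neg_of_neg (Mathlib.Tactic.Linarith.sub_neg_of_lt hc0) (Mathlib.Tactic.Linarith.sub_neg_of_lt hfar)]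
  obtain ⟨B, hBdef⟩ : ∃ B, c0 * B = 32 * Y0 := ⟨32 * Y0 / c0, by field_simp⟩
  have hB0 : 0 < B := by
    by_contra h
    push Not at h
    linarith only [hR, hfar, h, hc0, hBdef, mul_nonneg_of_nonpos_of_nonpos (Mathlib.Tactic.Linarith.sub_nonpos_of_le (sq_nonneg ((1 : ℝ) * c0))) (Mathlib.Tactic.Linarith.sub_nonpos_of_le h), Mathlib.Tactic.Linarith.mul_zero_eq (Mathlib.Tactic.Linarith.sub_neg_of_lt hc0) (sub_eq_zero_of_eq hBdef)]
  have hBB : B ≤ B0 := le_of_mul_le_mul_left (by linarith only [hB, hBdef]) hc0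
  have hRY : R ≤ Y0 := by (refine le_of_not_gt fun h_nl => ?_; linarith only [h_nl, hfar, hY0pos, hc0, hc1, hR, mul_pos_of_neg_of_neg (Mathlib.Tactic.Linarith.sub_neg_of_lt hc0) (Mathlib.Tactic.Linarith.sub_neg_of_lt h_nl), mul_nonneg_of_nonpos_of_nonpos (Mathlib.Tactic.Linarith.sub_nonpos_of_le hc1) (Mathlib.Tactic.Linarith.sub_nonpos_of_le hR)])
  have hsum := C.in_sum (ν := ν) hp hB0.le
  have hmem : ∀ q ∈ K, c0 ^ 2 / 256 ≤ 1 - C.s p q ^ 2 → q ∈ C.In ν B p := by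
    clear * - α K c0 C p ν B Y0 hc0 hp hc hY0 hsum hK R hKR hRY hY0pos hBdef
    intro q hq h
    refine C.mem_In.2 ⟨?_, hK hq, ?_⟩
    · rintro rfl
      rw [C.s_self hp] at h
      linarith only [h, hc0, mul_pos_of_neg_of_neg (Mathlib.Tactic.Linarith.sub_neg_of_lt hc0) (Mathlib.Tactic.Linarith.sub_neg_of_lt hc0)]
    · have k1 : dot ν (C.u p) ^ 2 = Y0 ^ 2 := by rw [hY0, sq_abs]
      have k2 : |dot ν (C.u q)| ≤ Y0 := (hKR q hq).trans hRY
      have k3 : dot ν (C.u q) ^ 2 ≤ Y0 ^ 2 := by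
        rw [← sq_abs]
        exact pow_le_pow_left₀ (abs_nonneg _) k2 2
      have k4 : |C.s p q * dot ν (C.u p) * dot ν (C.u q)| ≤ 1 * Y0 * Y0 := by
        rw [abs_mul, abs_mul, ← hY0]
        exact mul_le_mul (mul_le_mul_of_nonneg_right (C.abs_s_le hp (hK hq)) hY0pos.le) k2
          (abs_nonneg _) (by positivity)
      have k5 := neg_abs_le (C.s p q * dot ν (C.u p) * dot ν (C.u q))
      have k6 : B ^ 2 * (c0 ^ 2 / 256) ≤ B ^ 2 * (1 - C.s p q ^ 2) :=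
        mul_le_mul_of_nonneg_left h (sq_nonneg _)
      have k7 : B ^ 2 * (c0 ^ 2 / 256) = 4 * Y0 ^ 2 := by
        have : B ^ 2 * (c0 ^ 2 / 256) = (c0 * B) ^ 2 / 256 := by ring
        rw [this, hBdef]
        ring
      linarith only [k1, k3, k4, k5, k6, k7]
  have hA : c0 * C.n / 2 ≤ ∑ q ∈ C.In ν B p, C.s p q ^ 2 := by
    clear * - α K C p ν B c0 hp hK hmem hc0 hc1 hn hc
    have k1 : ∑ q ∈ K, C.s p q ^ 2 * (1 - C.s p q ^ 2) ≤
        ∑ q ∈ K, ((if q ∈ C.In ν B p then C.s p q ^ 2 else 0) + c0 ^ 2 / 256) := by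
      refine Finset.sum_le_sum fun q hq => ?_
      have j1 := C.s_sq_le hp (hK hq)
      have j2 := sq_nonneg (C.s p q)
      split_ifs with h
      · linarith only [sq_nonneg (C.s p q ^ 2), sq_nonneg c0, sq_nonneg c0, sq_nonneg (C.s p q ^ (2 : ℕ))]
      · have j3 : 1 - C.s p q ^ 2 < c0 ^ 2 / 256 := by
          by_contra j4
          push Not at j4
          exact h (hmem q hq j4)
        linarith only [j3, sq_nonneg (1 - C.s p q ^ 2), sq_nonneg ((1 : ℝ) - C.s p q ^ (2 : ℕ))]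
    rw [Finset.sum_add_distrib, Finset.sum_const, nsmul_eq_mul, ← Finset.sum_filter] at k1
    have k2 : ∑ q ∈ K.filter (fun q => q ∈ C.In ν B p), C.s p q ^ 2 ≤
        ∑ q ∈ C.In ν B p, C.s p q ^ 2 :=
      Finset.sum_le_sum_of_subset_of_nonneg (fun q hq => (Finset.mem_filter.1 hq).2)
        fun q _ _ => sq_nonneg _
    have k3 : (K.card : ℝ) * (c0 ^ 2 / 256) ≤ C.n * (c0 ^ 2 / 256) :=
      mul_le_mul_of_nonneg_right (C.card_le_n hK) (by positivity)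
    have k4 : C.n * (c0 ^ 2 / 256) ≤ C.n * (c0 / 4) :=
      mul_le_mul_of_nonneg_left (by linarith only [hc0, hc1, mul_nonneg_of_nonpos_of_nonpos (le_of_lt (Mathlib.Tactic.Linarith.sub_neg_of_lt hc0)) (Mathlib.Tactic.Linarith.sub_nonpos_of_le hc1)]) hn
    linarith only [hc, k1, k2, k3, k4]
  have hC : |∑ q ∈ C.In ν B p, C.s p q * dot ν (C.u q)| ≤ C.n * R + θ * C.n * B := by
    refine (Finset.abs_sum_le_sum_abs _ _).trans ?_
    have k0 : ∀ q ∈ C.In ν B p, |C.s p q * dot ν (C.u q)| ≤ |dot ν (C.u q)| := by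
      intro q hq
      rw [abs_mul]
      exact mul_le_of_le_one_left (abs_nonneg _) (C.abs_s_le hp (C.in_sub ν B p hq))
    refine (Finset.sum_le_sum k0).trans ?_
    rw [← Finset.sum_inter_add_sum_sdiff (C.In ν B p) K]
    have k1 : ∑ q ∈ C.In ν B p ∩ K, |dot ν (C.u q)| ≤ ∑ _q ∈ C.In ν B p ∩ K, R :=
      Finset.sum_le_sum fun q hq => hKR q (Finset.mem_inter.1 hq).2
    have k2 : ∑ q ∈ C.In ν B p \ K, |dot ν (C.u q)| ≤ ∑ _q ∈ C.In ν B p \ K, B :=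
      Finset.sum_le_sum fun q hq => C.in_abs hp hB0.le (Finset.mem_sdiff.1 hq).1
    rw [Finset.sum_const, nsmul_eq_mul] at k1 k2
    have k3 : ((C.In ν B p ∩ K).card : ℝ) * R ≤ C.n * R :=
      mul_le_mul_of_nonneg_right (C.card_le_n (Finset.inter_subset_right.trans hK)) hR
    have k4 : ((C.In ν B p \ K).card : ℝ) ≤ (C.strip ν B0 \ K).card := by
      refine Nat.cast_le.2 (Finset.card_le_card fun q hq => ?_)
      obtain ⟨j1, j2⟩ := Finset.mem_sdiff.1 hq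
      exact Finset.mem_sdiff.2
        ⟨C.mem_strip.2 ⟨C.in_sub ν B p j1, (C.in_abs hp hB0.le j1).trans hBB⟩, j2⟩
    have k5 : ((C.In ν B p \ K).card : ℝ) * B ≤ θ * C.n * B :=
      mul_le_mul_of_nonneg_right (k4.trans hout) hB0.le
    linarith only [k1, k2, k3, k5]
  have e1 : dot ν (C.u p) * ∑ q ∈ C.In ν B p, C.s p q ^ 2 =
      ∑ q ∈ C.In ν B p, C.s p q * dot ν (C.u q) -
        ∑ q ∈ C.In ν B p, C.s p q * (dot ν (C.u q) - C.s p q * dot ν (C.u p)) := by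
    rw [Finset.mul_sum, ← Finset.sum_sub_distrib]
    exact Finset.sum_congr rfl fun q _ => by ring
  have e2 : Y0 * ∑ q ∈ C.In ν B p, C.s p q ^ 2 ≤ C.n * R + θ * C.n * B + B * C.D p := by
    have k1 : Y0 * ∑ q ∈ C.In ν B p, C.s p q ^ 2 =
        |dot ν (C.u p) * ∑ q ∈ C.In ν B p, C.s p q ^ 2| := by
      rw [abs_mul, ← hY0, abs_of_nonneg (Finset.sum_nonneg fun q _ => sq_nonneg _)]
    rw [k1, e1]
    exact (abs_sub _ _).trans (add_le_add hC hsum)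
  have e3 : Y0 * (c0 * C.n / 2) ≤ Y0 * ∑ q ∈ C.In ν B p, C.s p q ^ 2 :=
    mul_le_mul_of_nonneg_left hA hY0pos.le
  have e4 : C.n * R ≤ C.n * (c0 * Y0 / 16) := mul_le_mul_of_nonneg_left (by linarith only [hfar]) hn
  have e5 : θ * (C.n * B) ≤ c0 ^ 2 / 512 * (C.n * B) :=
    mul_le_mul_of_nonneg_right hθ (by positivity)
  have e6 : c0 ^ 2 / 512 * (C.n * B) = C.n * (c0 * Y0 / 16) := by
    have : c0 ^ 2 / 512 * (C.n * B) = c0 * C.n * (c0 * B) / 512 := by ring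
    rw [this, hBdef]
    ring
  have e7 : 3 / 8 * (c0 * Y0 * C.n) ≤ B * C.D p := by clear * - c0 Y0 α C B p ν R θ e2 e3 e4 e5 e6; linarith only [e2, e3, e4, e5, e6]
  have e8 : c0 * (3 / 8 * (c0 * Y0 * C.n)) ≤ c0 * (B * C.D p) :=
    mul_le_mul_of_nonneg_left e7 hc0.le
  have e9 : c0 * (B * C.D p) = 32 * Y0 * C.D p := by rw [← mul_assoc, hBdef]
  have e10 : Y0 * (c0 ^ 2 * C.n / 128) ≤ Y0 * C.D p := by
    clear * - Y0 c0 α C hY0pos hc0 hn p B e8 e9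
    have : 0 ≤ Y0 * (c0 ^ 2 * C.n) := by positivity
    linarith only [e8, e9, this]
  exact le_of_mul_le_mul_left e10 hY0pos

omit [DecidableEq α] in
theorem nearmin (C : Conf α) {ν : V3} (hν : dot ν ν = 1) {K : Finset α} (hK : K ⊆ C.S)
    (hn : 0 < C.n) {v : V3} (hv : dot v ν = 0) {η : ℝ} (hη : 0 < η) :
    ∃ v' : V3, dot v' ν = 0 ∧
      ∑ p ∈ K, dot (ν - v') (C.u p) ^ 2 ≤ ∑ p ∈ K, dot (ν - v) (C.u p) ^ 2 ∧
      ∑ p ∈ K, ∑ q ∈ K, C.s p q * dot (ν - v') (C.u p) * dot (ν - v') (C.u q)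
        ≤ C.n * η + (∑ p ∈ K, dot (ν - v') (C.u p) * dot ν (C.u p)) ^ 2 := by
  obtain ⟨Q, hQ⟩ : ∃ Q : V3 → ℝ, ∀ w, Q w = ∑ p ∈ K, dot (ν - w) (C.u p) ^ 2 :=
    ⟨_, fun _ => rfl⟩
  have hbdd : BddBelow (Q '' {w | dot w ν = 0}) := by
    refine ⟨0, ?_⟩
    rintro _ ⟨w, -, rfl⟩
    rw [hQ]
    exact Finset.sum_nonneg fun p _ => sq_nonneg _
  have hne : (Q '' {w | dot w ν = 0}).Nonempty := ⟨Q v, v, hv, rfl⟩
  have hle : ∀ w, dot w ν = 0 → sInf (Q '' {w | dot w ν = 0}) ≤ Q w :=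
    fun w hw => csInf_le hbdd ⟨w, hw, rfl⟩
  obtain ⟨_, ⟨v1, hv1, rfl⟩, h1⟩ :=
    exists_lt_of_csInf_lt hne (lt_add_of_pos_right (sInf (Q '' {w | dot w ν = 0})) hη)
  obtain ⟨v', hv', h2, h3⟩ : ∃ v', dot v' ν = 0 ∧ Q v' ≤ Q v ∧
      Q v' < sInf (Q '' {w | dot w ν = 0}) + η := by
    rcases le_total (Q v) (Q v1) with h | h
    · exact ⟨v, hv, le_rfl, h.trans_lt h1⟩
    · exact ⟨v1, hv1, h, h1⟩
  refine ⟨v', hv', by rw [← hQ, ← hQ]; exact h2, ?_⟩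
  obtain ⟨y, hy⟩ : ∃ y : α → ℝ, ∀ p, y p = dot (ν - v') (C.u p) := ⟨_, fun _ => rfl⟩
  simp only [← hy]
  obtain ⟨w, hw⟩ : ∃ w : V3, w = ∑ p ∈ K, y p • C.u p := ⟨_, rfl⟩
  have hz : ∀ z : V3, dot z w = ∑ p ∈ K, y p * dot z (C.u p) := by
    intro z
    rw [hw, dot_sum_right]
    exact Finset.sum_congr rfl fun p _ => dot_smul_right _ _ _
  have e1 : dot w w = ∑ p ∈ K, ∑ q ∈ K, C.s p q * y p * y q := by
    rw [hz]
    refine Finset.sum_congr rfl fun p _ => ?_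
    rw [dot_comm w, hz, Finset.mul_sum]
    refine Finset.sum_congr rfl fun q _ => ?_
    unfold Conf.s
    ring
  obtain ⟨a, ha⟩ : ∃ a, a = dot ν w := ⟨_, rfl⟩
  obtain ⟨w', hw'⟩ : ∃ w' : V3, w' = w - a • ν := ⟨_, rfl⟩
  have e2 : dot w' ν = 0 := by
    rw [hw', dot_sub_left, dot_smul_left, hν, dot_comm w, ← ha]
    ring
  have e3 : dot w' w = dot w w - a ^ 2 := by
    rw [hw', dot_sub_left, dot_smul_left, ← ha]
    ring
  have e4 : dot w' w' = dot w' w := by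
    have : dot w' w' = dot w' (w - a • ν) := by rw [← hw']
    rw [this, dot_sub_right, dot_smul_right, e2]
    ring
  obtain ⟨t, ht⟩ : ∃ t : ℝ, t * C.n = 1 := ⟨1 / C.n, by field_simp⟩
  have ht0 : 0 < t := by
    clear * - t α C ht hn
    by_contra h
    push Not at h
    nlinarith
  have e5 := hle (v' + t • w') (by rw [dot_add_left, dot_smul_left, hv', e2]; ring)
  have e6 : Q (v' + t • w') = Q v' - 2 * t * dot w' w + t ^ 2 * ∑ p ∈ K, dot w' (C.u p) ^ 2 := by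
    rw [hQ, hQ, hz, Finset.mul_sum, Finset.mul_sum, ← Finset.sum_sub_distrib,
      ← Finset.sum_add_distrib]
    refine Finset.sum_congr rfl fun p _ => ?_
    rw [hy, dot_sub_left, dot_sub_left, dot_add_left, dot_smul_left]
    ring
  have e7 : ∑ p ∈ K, dot w' (C.u p) ^ 2 ≤ C.n * dot w' w' := by
    have k1 : ∑ p ∈ K, dot w' (C.u p) ^ 2 ≤ ∑ _p ∈ K, dot w' w' := by
      refine Finset.sum_le_sum fun p hp => ?_
      have := dot_sq_le w' (C.u p)
      rwa [C.unit p (hK hp), mul_one] at this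
    rw [Finset.sum_const, nsmul_eq_mul] at k1
    exact k1.trans (mul_le_mul_of_nonneg_right (C.card_le_n hK) (dot_self_nonneg _))
  have e8 : t ^ 2 * ∑ p ∈ K, dot w' (C.u p) ^ 2 ≤ t * dot w' w := by
    calc _ ≤ t ^ 2 * (C.n * dot w' w') := mul_le_mul_of_nonneg_left e7 (sq_nonneg _)
      _ = t * (t * C.n) * dot w' w' := by ring
      _ = _ := by rw [ht, e4, mul_one]
  have e9 : t * dot w' w ≤ η := by linarith only [h3, e5, e6, e8]
  have e10 : dot w' w ≤ C.n * η := by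
    calc dot w' w = C.n * (t * dot w' w) := by rw [← mul_assoc, mul_comm C.n t, ht, one_mul]
      _ ≤ _ := mul_le_mul_of_nonneg_left e9 hn.le
  rw [← e1, ← hz, ← ha]
  linarith

end Pool.Agent.Work.MP_d88d93_co
end

-- merged part: Pool.Agent.Work.MP_d88d93_co.T2b
section
/-! Strip lemma, second part: the quadratic estimate. -/

namespace Pool.Agent.Work.MP_d88d93_co

open Finset

variable {α : Type} [DecidableEq α]

omit [DecidableEq α] in
theorem cube_nonneg_t2b (K : Finset α) (u : α → V3) (a : α → ℝ) :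
    0 ≤ ∑ p ∈ K, ∑ q ∈ K, dot (u p) (u q) ^ 3 * a p * a q := by
  have h : ∀ p q, dot (u p) (u q) ^ 3 * a p * a q = ∑ x : Fin 3 × Fin 3 × Fin 3,
      (a p * u p x.1 * u p x.2.1 * u p x.2.2) * (a q * u q x.1 * u q x.2.1 * u q x.2.2) := by
    intro p q
    simp only [Fintype.sum_prod_type, Fin.sum_univ_three, dot]
    ring
  simp only [h]
  rw [Finset.sum_congr rfl fun p _ => Finset.sum_comm, Finset.sum_comm]
  refine Finset.sum_nonneg fun x _ => ?_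
  rw [← Finset.sum_mul_sum]
  exact mul_self_nonneg _

theorem point_in_t2b (s a b k : ℝ) :
    s ^ 2 * (1 - s ^ 2) * (a ^ 2 + b ^ 2) / 2 - 2 * (s * a * b) + 2 * (s ^ 3 * a * b)
      - 3 / 2 * k ^ 2 * (a ^ 2 + b ^ 2) ≤ -a * (s * (b - s * a)) + -b * (s * (a - s * b)) := by
  have h1 : 0 ≤ s ^ 2 / 2 * ((a - s * b) ^ 2 + (b - s * a) ^ 2) := by positivity
  have h2 : 0 ≤ 3 / 2 * k ^ 2 * (a ^ 2 + b ^ 2) := by positivity
  linarith only [h1, h2]

theorem point_out_t2b {s a b k : ℝ} (h1 : s ^ 2 ≤ 1) (h2 : 1 - s ^ 2 ≤ k ^ 2) :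
    s ^ 2 * (1 - s ^ 2) * (a ^ 2 + b ^ 2) / 2 - 2 * (s * a * b) + 2 * (s ^ 3 * a * b)
      - 3 / 2 * k ^ 2 * (a ^ 2 + b ^ 2) ≤ 0 := by
  have h3 : 0 ≤ a ^ 2 + b ^ 2 := by positivity
  have h4 := mul_le_mul_of_nonneg_right h1 h3
  have h5 := mul_le_mul_of_nonneg_right h1 (sq_nonneg b)
  have h6 : s ^ 2 * (a ^ 2 + b ^ 2) / 2 - 2 * (s * a * b) ≤ 3 / 2 * (a ^ 2 + b ^ 2) := by
    linarith only [h4, h5, sq_nonneg (a + s * b)]
  have h7 := mul_le_mul_of_nonneg_left h6 (sub_nonneg.2 h1)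
  have h8 := mul_le_mul_of_nonneg_right h2 h3
  linarith only [h7, h8]

theorem small_t2b {s a b k R : ℝ} (hR : 0 < R) (hk : 0 < k) (h1 : s ^ 2 ≤ 1) (ha : |a| ≤ R)
    (hb : |b| ≤ R) (h : (2 * R / k) ^ 2 * (1 - s ^ 2) < a ^ 2 + b ^ 2 - 2 * s * a * b) :
    1 - s ^ 2 ≤ k ^ 2 := by
  have a2 : a ^ 2 ≤ R ^ 2 := sq_le_sq' (abs_le.1 ha).1 (abs_le.1 ha).2
  have b2 : b ^ 2 ≤ R ^ 2 := sq_le_sq' (abs_le.1 hb).1 (abs_le.1 hb).2
  have h5 := mul_le_mul_of_nonneg_right h1 (sq_nonneg b)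
  have h2 : (2 * R / k) ^ 2 * (1 - s ^ 2) ≤ (2 * R / k) ^ 2 * k ^ 2 := by
    rw [← mul_pow, div_mul_cancel₀ _ hk.ne']
    linarith only [h, a2, b2, h5, sq_nonneg (a + s * b)]
  exact le_of_mul_le_mul_left h2 (by positivity)

theorem row_t2b (C : Conf α) {ν : V3} {K : Finset α} {R B z : ℝ} {p : α} (hp : p ∈ C.S)
    (hB : 0 ≤ B) (hR : |dot ν (C.u p)| ≤ R) (hout : ((C.strip ν B \ K).card : ℝ) ≤ z) :
    ∑ q ∈ K, (if q ∈ C.In ν B p then
      -dot ν (C.u p) * (C.s p q * (dot ν (C.u q) - C.s p q * dot ν (C.u p))) else 0)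
      ≤ R * B * (C.D p + z) := by
  rw [Finset.sum_ite_mem, ← Finset.mul_sum, Finset.inter_comm]
  have h1 := Finset.sum_inter_add_sum_sdiff (C.In ν B p) K
    fun q => C.s p q * (dot ν (C.u q) - C.s p q * dot ν (C.u p))
  have h2 := C.in_sum (ν := ν) hp hB
  have h3 : |∑ q ∈ C.In ν B p \ K, C.s p q * (dot ν (C.u q) - C.s p q * dot ν (C.u p))|
      ≤ B * z := by
    refine (Finset.abs_sum_le_sum_abs _ _).trans ((Finset.sum_le_card_nsmul _ _ B fun q hq =>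
      C.in_term hp hB (Finset.mem_sdiff.1 hq).1).trans ?_)
    rw [nsmul_eq_mul, mul_comm]
    refine mul_le_mul_of_nonneg_left (le_trans ?_ hout) hB
    exact_mod_cast Finset.card_le_card (Finset.sdiff_subset_sdiff (fun q hq =>
      C.mem_strip.2 ⟨C.in_sub _ _ _ hq, C.in_abs hp hB hq⟩) Finset.Subset.rfl)
  refine (le_abs_self _).trans ?_
  rw [abs_mul, abs_neg, mul_assoc]
  refine mul_le_mul hR ?_ (abs_nonneg _) ((abs_nonneg _).trans hR)
  rw [eq_sub_of_add_eq h1, mul_add]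
  exact (abs_sub _ _).trans (add_le_add h2 h3)

theorem quad (C : Conf α) {ν : V3} {K : Finset α} {R k ζ c : ℝ} (hK : K ⊆ C.S) (hR : 0 < R)
    (hk : 0 < k) (hKR : ∀ p ∈ K, |dot ν (C.u p)| ≤ R)
    (hout : ((C.strip ν (2 * R / k) \ K).card : ℝ) ≤ ζ * C.n)
    (hc : ∀ p ∈ K, c * C.n ≤ ∑ q ∈ K, C.s p q ^ 2 * (1 - C.s p q ^ 2)) :
    (c - 3 * k ^ 2) * C.n * ∑ p ∈ K, dot ν (C.u p) ^ 2
      ≤ 2 * ∑ p ∈ K, ∑ q ∈ K, C.s p q * dot ν (C.u p) * dot ν (C.u q)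
        + 2 * R * (2 * R / k) * (∑ p ∈ C.S, C.D p + ζ * C.n ^ 2) := by
  set B := 2 * R / k with hB
  have hB0 : 0 ≤ B := by positivity
  set y : α → ℝ := fun p => dot ν (C.u p) with hy
  let t : α → α → ℝ := fun p q =>
    if q ∈ C.In ν B p then -y p * (C.s p q * (y q - C.s p q * y p)) else 0
  have hz : 0 ≤ ζ * C.n := (Nat.cast_nonneg _).trans hout
  have hn := C.card_le_n hK
  have h1 : ∑ p ∈ K, ∑ q ∈ K, t p q ≤ R * B * (∑ p ∈ C.S, C.D p + ζ * C.n ^ 2) := by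
    refine (Finset.sum_le_sum fun p hp => row_t2b C (hK hp) hB0 (hKR p hp) hout).trans ?_
    rw [← Finset.mul_sum, Finset.sum_add_distrib, Finset.sum_const, nsmul_eq_mul]
    refine mul_le_mul_of_nonneg_left (add_le_add
      (Finset.sum_le_sum_of_subset_of_nonneg hK fun p _ _ => C.D_nonneg p) ?_) (by positivity)
    linarith only [hn, hz, mul_le_mul_of_nonneg_right hn hz]
  have h2 : ∀ p ∈ K, ∀ q ∈ K, C.s p q ^ 2 * (1 - C.s p q ^ 2) * (y p ^ 2 + y q ^ 2) / 2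
      - 2 * (C.s p q * y p * y q) + 2 * (C.s p q ^ 3 * y p * y q)
      - 3 / 2 * k ^ 2 * (y p ^ 2 + y q ^ 2) ≤ t p q + t q p := by
    intro p hp q hq
    have hs : p ∈ C.In ν B q ↔ q ∈ C.In ν B p := by
      rw [C.mem_In, C.mem_In, C.s_comm q p]
      exact ⟨fun h => ⟨h.1.symm, hK hq, by linarith only [h, h.2.2]⟩,
        fun h => ⟨h.1.symm, hK hp, by linarith only [h, h.2.2]⟩⟩
    have hs1 := C.s_sq_le (hK hp) (hK hq)
    by_cases h : q ∈ C.In ν B p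
    · simp only [t, if_pos h, if_pos (hs.2 h), C.s_comm q p]
      exact point_in_t2b _ _ _ _
    · simp only [t, if_neg h, if_neg (mt hs.1 h), add_zero]
      refine point_out_t2b hs1 ?_
      by_cases hpq : q = p
      · rw [hpq, C.s_self (hK hp)]
        linarith only [sq_nonneg k]
      · refine small_t2b hR hk hs1 (hKR p hp) (hKR q hq) (not_le.1 fun h' => h ?_)
        exact C.mem_In.2 ⟨hpq, hK hq, h'⟩
  have h3 := Finset.sum_le_sum fun p hp => Finset.sum_le_sum (h2 p hp)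
  have h4 : ∑ p ∈ K, ∑ q ∈ K, t q p = ∑ p ∈ K, ∑ q ∈ K, t p q := Finset.sum_comm
  have h5 : ∑ p ∈ K, ∑ q ∈ K, C.s p q ^ 2 * (1 - C.s p q ^ 2) * y q ^ 2 =
      ∑ p ∈ K, ∑ q ∈ K, C.s p q ^ 2 * (1 - C.s p q ^ 2) * y p ^ 2 := by
    rw [Finset.sum_comm]
    exact Finset.sum_congr rfl fun p _ => Finset.sum_congr rfl fun q _ => by rw [C.s_comm]
  have h6 : c * C.n * ∑ p ∈ K, y p ^ 2 ≤
      ∑ p ∈ K, ∑ q ∈ K, C.s p q ^ 2 * (1 - C.s p q ^ 2) * y p ^ 2 := by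
    rw [Finset.mul_sum]
    refine Finset.sum_le_sum fun p hp => ?_
    rw [← Finset.sum_mul]
    exact mul_le_mul_of_nonneg_right (hc p hp) (sq_nonneg _)
  have h7 : 0 ≤ ∑ p ∈ K, ∑ q ∈ K, C.s p q ^ 3 * y p * y q := cube_nonneg_t2b K C.u y
  have h8 : k ^ 2 * (K.card * ∑ p ∈ K, y p ^ 2) ≤ k ^ 2 * (C.n * ∑ p ∈ K, y p ^ 2) :=
    mul_le_mul_of_nonneg_left (mul_le_mul_of_nonneg_right hn
      (Finset.sum_nonneg fun p _ => sq_nonneg _)) (sq_nonneg _)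
  simp only [mul_add, add_div, Finset.sum_add_distrib, Finset.sum_sub_distrib, ← Finset.mul_sum,
    ← Finset.sum_div, Finset.sum_const, nsmul_eq_mul] at h3
  change (c - 3 * k ^ 2) * C.n * ∑ p ∈ K, y p ^ 2 ≤ 2 * ∑ p ∈ K, ∑ q ∈ K, C.s p q * y p * y q + _
  linarith only [h1, h4, h5, h6, h7, h8, h3]

end Pool.Agent.Work.MP_d88d93_co
end

-- merged part: Pool.Agent.Work.MP_d88d93_co.T2c
section
/-! Strip lemma, third part: the halving step. -/

namespace Pool.Agent.Work.MP_d88d93_co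

open Finset

variable {α : Type} [DecidableEq α]

omit [DecidableEq α] in
theorem term_le_T2c (C : Conf α) {p q : α} (hp : p ∈ C.S) (hq : q ∈ C.S) :
    C.s p q ^ 2 * (1 - C.s p q ^ 2) ≤ 1 := by
  have h1 := C.s_sq_le hp hq
  have h2 := sq_nonneg (C.s p q)
  linarith only [h1, mul_nonneg_of_nonpos_of_nonpos (Mathlib.Tactic.Linarith.sub_nonpos_of_le (sq_nonneg (C.s p q))) (Mathlib.Tactic.Linarith.sub_nonpos_of_le (sq_nonneg (C.s p q)))]

theorem part_T2c (C : Conf α) {c0 τ : ℝ} {Y K : Finset α} (hY : Y ⊆ C.S) (hK : K ⊆ Y)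
    (hτ : ((Y \ K).card : ℝ) ≤ τ * C.n) (hτc : τ ≤ c0 / 4) {p : α} (hp : p ∈ Y)
    (hc : c0 * C.n ≤ ∑ q ∈ Y, C.s p q ^ 2 * (1 - C.s p q ^ 2)) :
    3 / 4 * c0 * C.n ≤ ∑ q ∈ K, C.s p q ^ 2 * (1 - C.s p q ^ 2) := by
  rw [← Finset.sum_sdiff hK] at hc
  have h1 : ∑ q ∈ Y \ K, C.s p q ^ 2 * (1 - C.s p q ^ 2) ≤ ((Y \ K).card : ℝ) := by
    have := Finset.sum_le_card_nsmul (Y \ K) (fun q => C.s p q ^ 2 * (1 - C.s p q ^ 2)) 1
      fun q hq => term_le_T2c C (hY hp) (hY (Finset.mem_sdiff.1 hq).1)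
    simpa using this
  have h2 : τ * C.n ≤ c0 / 4 * C.n := mul_le_mul_of_nonneg_right hτc C.n_nonneg
  linarith only [hτ, hc, h1, h2]

omit [DecidableEq α] in
theorem sum_le_T2c (C : Conf α) {K : Finset α} (hK : K ⊆ C.S) {f : α → ℝ} {M : ℝ} (hM : 0 ≤ M)
    (h : ∀ q ∈ K, f q ≤ M) : ∑ q ∈ K, f q ≤ C.n * M := by
  have h1 := Finset.sum_le_card_nsmul K f M h
  rw [nsmul_eq_mul] at h1
  exact h1.trans (mul_le_mul_of_nonneg_right (C.card_le_n hK) hM)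

theorem spread_T2c (C : Conf α) (hn : 0 < C.n) {ν : V3} (hν : dot ν ν = 1) {e c0 θ : ℝ}
    (hc0 : 0 < c0) (hc1 : c0 ≤ 1) {Y K : Finset α}
    (hY : Y ⊆ C.S) (hK : K ⊆ Y) (hne : K.Nonempty) (he : ∀ p ∈ Y, |dot ν (C.u p)| ≤ e)
    (hc : ∀ p ∈ Y, c0 * C.n ≤ ∑ q ∈ Y, C.s p q ^ 2 * (1 - C.s p q ^ 2))
    (hθ : ((Y \ K).card : ℝ) ≤ θ * C.n) (hs : θ + 4 * e ^ 2 ≤ c0 / 2)
    {v : V3} (hv : dot v ν = 0) {M : ℝ} (hM : 0 ≤ M)
    (h : ∑ q ∈ K, dot v (C.u q) ^ 2 ≤ C.n * M ^ 2) {q : α} (hq : q ∈ C.S) :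
    c0 * |dot v (C.u q)| ≤ 3 * M := by
  have h1 := (spread C hν hY hK hne he hc hθ hs hv).trans h
  have h2 : c0 * dot v v ≤ 8 * M ^ 2 := by
    refine le_of_mul_le_mul_left ?_ hn
    linarith only [h1]
  have h3 := dot_sq_le v (C.u q)
  rw [C.unit q hq, mul_one] at h3
  refine abs_le_of_sq_le_sq' ?_ (by positivity) |>.2
  rw [mul_pow, sq_abs]
  have h4 : c0 ^ 2 * dot v (C.u q) ^ 2 ≤ c0 ^ 2 * dot v v :=
    mul_le_mul_of_nonneg_left h3 (by positivity)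
  have h5 : c0 * (c0 * dot v v) ≤ c0 * (8 * M ^ 2) := mul_le_mul_of_nonneg_left h2 hc0.le
  have h6 : c0 * (8 * M ^ 2) ≤ 1 * (8 * M ^ 2) := mul_le_mul_of_nonneg_right hc1 (by positivity)
  clear * - c0 v α C q M h4 h5 h6
  linarith only [h4, h5, h6, sq_nonneg M, sq_nonneg M]

theorem out_T2c {Z Y W K : Finset α} (h : W ⊆ Z) :
    ((W \ K).card : ℝ) ≤ (Z \ Y).card + (Y \ K).card := by
  have h1 : W \ K ⊆ (Z \ Y) ∪ (Y \ K) := by
    intro q hq
    rw [Finset.mem_sdiff] at hq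
    by_cases hY : q ∈ Y
    · exact Finset.mem_union_right _ (Finset.mem_sdiff.2 ⟨hY, hq.2⟩)
    · exact Finset.mem_union_left _ (Finset.mem_sdiff.2 ⟨h hq.1, hY⟩)
  exact_mod_cast (Finset.card_le_card h1).trans (Finset.card_union_le _ _)

theorem fin_T2c {c0 θ n R R1 e Q g : ℝ} (hc0 : 0 < c0) (hc1 : c0 ≤ 1) (hθ0 : 0 < θ) (hn : 0 < n)
    (hR : 0 < R) (hR1 : R1 * c0 ^ 2 = 112 * R) (he : e ^ 2 ≤ θ * c0 ^ 6 / 10 ^ 8)
    (hQ : c0 / 2 * n * Q ≤ n ^ 2 * R1 ^ 2 * (4 * e ^ 2 + 192 * (θ * c0 ^ 5 / 10 ^ 8)))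
    (hg : g * (R / 2) ^ 2 ≤ Q) : g ≤ θ * n / 5 := by
  have h1 : θ * c0 ^ 6 / 10 ^ 8 ≤ θ * c0 ^ 5 / 10 ^ 8 := by
    have : c0 ^ 6 ≤ c0 ^ 5 := pow_le_pow_of_le_one hc0.le hc1 (by norm_num)
    gcongr
  have h2 : n ^ 2 * R1 ^ 2 * (4 * e ^ 2 + 192 * (θ * c0 ^ 5 / 10 ^ 8)) ≤
      n ^ 2 * R1 ^ 2 * (196 * (θ * c0 ^ 5 / 10 ^ 8)) :=
    mul_le_mul_of_nonneg_left (by linarith only [he, h1]) (by positivity)
  have h3 : n ^ 2 * R1 ^ 2 * (196 * (θ * c0 ^ 5 / 10 ^ 8)) =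
      c0 / 2 * n * (392 * 12544 / 10 ^ 8 * (θ * n * R ^ 2)) := by
    have : n ^ 2 * R1 ^ 2 * (196 * (θ * c0 ^ 5 / 10 ^ 8)) =
        n ^ 2 * (R1 * c0 ^ 2) ^ 2 * (196 * (θ * c0 / 10 ^ 8)) := by ring
    rw [this, hR1]
    ring
  have h4 : Q ≤ 392 * 12544 / 10 ^ 8 * (θ * n * R ^ 2) :=
    le_of_mul_le_mul_left (hQ.trans (h2.trans h3.le)) (by positivity)
  refine le_of_mul_le_mul_right ?_ (show 0 < (R / 2) ^ 2 by positivity)
  have h5 : 0 < θ * n * R ^ 2 := by positivity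
  clear * - g R θ n Q hg h4 h5
  linarith only [hg, h4, h5]

theorem T2_step (C : Conf α) {c0 θ : ℝ} (hc0 : 0 < c0) (hc1 : c0 ≤ 1) (hθ0 : 0 < θ)
    (hθ : θ ≤ c0 ^ 2 / 1024) (hT : C.Tight (θ * c0 ^ 8 / (256 * 10 ^ 8)))
    {ν : V3} (hν : dot ν ν = 1) {e e1 : ℝ} (he1 : e1 ≤ 1) (he : e ≤ θ * c0 ^ 3 / 10 ^ 4 * e1)
    (hann : ((C.strip ν e1 \ C.strip ν e).card : ℝ) ≤ θ * c0 ^ 6 / 10 ^ 8 * C.n)
    (hne : (C.strip ν e).Nonempty)
    (hc : ∀ p ∈ C.strip ν e, c0 * C.n ≤ ∑ q ∈ C.strip ν e, C.s p q ^ 2 * (1 - C.s p q ^ 2))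
    {R : ℝ} (hR : 0 < R) (hRe : R ≤ e) {v : V3} (hv : dot v ν = 0)
    (hP : ((C.strip ν e \ C.strip (ν - v) R).card : ℝ) ≤ θ * C.n) :
    ∃ v' : V3, dot v' ν = 0 ∧
      ((C.strip ν e \ C.strip (ν - v') (R / 2)).card : ℝ) ≤ θ * C.n := by
  classical
  have hn := hT.n_pos
  have he0 : 0 < e := hR.trans_le hRe
  have p2 : c0 ^ 2 ≤ c0 := by clear * - c0 hc0 hc1; linarith only [hc0, hc1, mul_nonneg_of_nonpos_of_nonpos (le_of_lt (Mathlib.Tactic.Linarith.sub_neg_of_lt hc0)) (Mathlib.Tactic.Linarith.sub_nonpos_of_le hc1)]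
  have p3 : c0 ^ 3 ≤ c0 ^ 2 := pow_le_pow_of_le_one hc0.le hc1 (by norm_num)
  have p6 : c0 ^ 6 ≤ 1 := pow_le_one₀ hc0.le hc1
  have hθ1 : θ ≤ 1 / 1024 := by linarith only [hc1, hθ, p2]
  have he10 : 0 < e1 := by
    by_contra h
    have : θ * c0 ^ 3 / 10 ^ 4 * e1 ≤ 0 :=
      mul_nonpos_of_nonneg_of_nonpos (by positivity) (not_lt.1 h)
    linarith only [he, hR, hRe, this]
  have heκ : e ≤ θ * c0 ^ 3 / 10 ^ 4 :=
    he.trans (mul_le_of_le_one_right (by positivity) he1)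
  have hbig : 10 ^ 4 * e ≤ c0 ^ 3 * e1 := by
    have h1 : θ * (c0 ^ 3 * e1) ≤ 1 * (c0 ^ 3 * e1) :=
      mul_le_mul_of_nonneg_right (by linarith only [hc1, hθ0, hθ, p2]) (by positivity)
    linarith only [he, h1]
  obtain ⟨ζ, hζ⟩ : ∃ ζ, ζ = θ * c0 ^ 6 / 10 ^ 8 := ⟨_, rfl⟩
  have hζ0 : 0 < ζ := by rw [hζ]; positivity
  have hζθ : ζ ≤ θ / 2 := by
    have : θ * c0 ^ 6 ≤ θ * 1 := mul_le_mul_of_nonneg_left p6 hθ0.le
    rw [hζ]
    linarith only [hθ0, this]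
  have he2 : e ^ 2 ≤ ζ := by
    clear * - e θ c0 he0 heκ ζ hc1 hθ p2 hζ0 hζθ hθ0 hc0 hζ
    have h1 : e ^ 2 ≤ (θ * c0 ^ 3 / 10 ^ 4) ^ 2 := pow_le_pow_left₀ he0.le heκ 2
    have h2 : θ * (θ * c0 ^ 6) ≤ 1 * (θ * c0 ^ 6) :=
      mul_le_mul_of_nonneg_right (by linarith only [hc1, hθ, p2, hζ0, hζθ]) (by positivity)
    have h3 : (θ * c0 ^ 3 / 10 ^ 4) ^ 2 = θ * (θ * c0 ^ 6) / 10 ^ 8 := by ring
    rw [hζ]
    linarith only [h1, h2]
  have hε : θ * c0 ^ 8 / (256 * 10 ^ 8) = ζ * c0 ^ 2 / 256 := by rw [hζ]; ring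
  rw [hε] at hT
  rw [← hζ] at hann
  obtain ⟨Y, hYd⟩ : ∃ Y, Y = C.strip ν e := ⟨_, rfl⟩
  have hYm : ∀ {p}, p ∈ Y ↔ p ∈ C.S ∧ |dot ν (C.u p)| ≤ e := by
    intro p
    rw [hYd, C.mem_strip]
  rw [← hYd] at hann hne hc hP ⊢
  have hY : Y ⊆ C.S := fun p hp => (hYm.1 hp).1
  have hYe : ∀ p ∈ Y, |dot ν (C.u p)| ≤ e := fun p hp => (hYm.1 hp).2
  have nonempty : ∀ {K : Finset α} {τ : ℝ}, K ⊆ Y → ((Y \ K).card : ℝ) ≤ τ * C.n →
      τ ≤ c0 / 4 → K.Nonempty := by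
    intro K τ hK h1 h2
    obtain ⟨p, hp⟩ := hne
    have h3 := part_T2c C hY hK h1 h2 hp (hc p hp)
    rw [Finset.nonempty_iff_ne_empty]
    rintro rfl
    rw [Finset.sum_empty] at h3
    have : 0 < 3 / 4 * c0 * C.n := by positivity
    linarith only [h3, this]
  -- the first kernel
  obtain ⟨K, hKd⟩ : ∃ K, K = Y.filter fun p => |dot (ν - v) (C.u p)| ≤ R := ⟨_, rfl⟩
  have hKm : ∀ {p}, p ∈ K ↔ p ∈ Y ∧ |dot (ν - v) (C.u p)| ≤ R := by
    intro p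
    rw [hKd, Finset.mem_filter]
  have hK : K ⊆ Y := fun p hp => (hKm.1 hp).1
  have hYK : ((Y \ K).card : ℝ) ≤ θ * C.n := by
    refine le_trans ?_ hP
    have : Y \ K ⊆ Y \ C.strip (ν - v) R := fun p hp => by
      rw [Finset.mem_sdiff] at hp ⊢
      exact ⟨hp.1, fun h => hp.2 (hKm.2 ⟨hp.1, (C.mem_strip.1 h).2⟩)⟩
    exact_mod_cast Finset.card_le_card this
  have hv6 : ∀ q ∈ C.S, c0 * |dot v (C.u q)| ≤ 6 * e := by
    clear * - α C c0 v e hn ν hν θ hc0 hc1 Y K hY hK nonempty hYK ζ hθ p2 hζ0 hζθ hYe hc he2 hv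
      he0 R hKm hRe
    intro q hq
    have := spread_T2c C hn hν hc0 hc1 hY hK (nonempty hK hYK (by linarith only [hθ, p2, hζ0, hζθ])) hYe hc hYK
      (by linarith only [hθ, p2, hζ0, hζθ, he2]) hv (M := 2 * e) (by positivity) (sum_le_T2c C (hK.trans hY) (by positivity)
        fun q hq => by
          have h1 := abs_le.1 (hYe q (hK hq))
          have h2 := abs_le.1 (hKm.1 hq).2
          rw [dot_sub_left] at h2
          exact sq_le_sq' (by linarith only [hRe, h1, h2, h1.1, h2.2]) (by linarith only [hRe, h1, h2, h1.2, h2.1])) hq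
    linarith only [this]
  have sub : ∀ (w : V3) (B : ℝ), (∀ q ∈ C.S, B + |dot w (C.u q)| ≤ e1) →
      C.strip (ν - w) B ⊆ C.strip ν e1 := by
    intro w B h q hq
    rw [C.mem_strip] at hq ⊢
    refine ⟨hq.1, ?_⟩
    have h1 := h q hq.1
    have h2 := hq.2
    rw [dot_sub_left] at h2
    have h3 := abs_add_le (dot ν (C.u q) - dot w (C.u q)) (dot w (C.u q))
    rw [sub_add_cancel] at h3
    linarith only [h1, h2, h3]
  -- far points
  obtain ⟨K1, hK1d⟩ : ∃ K1, K1 = Y.filter fun p => c0 * |dot (ν - v) (C.u p)| ≤ 16 * R :=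
    ⟨_, rfl⟩
  have hK1m : ∀ {p}, p ∈ K1 ↔ p ∈ Y ∧ c0 * |dot (ν - v) (C.u p)| ≤ 16 * R := by
    intro p
    rw [hK1d, Finset.mem_filter]
  have hK1 : K1 ⊆ Y := fun p hp => (hK1m.1 hp).1
  have hYK1 : ((Y \ K1).card : ℝ) ≤ ζ * C.n := by
    clear * - c0 e α Y K1 ζ C hc0 he0 ν v e1 sub hc1 p2 hv6 R hR hRe hbig K θ hζθ hn hθ0 hann hYK
      hT hY hK hKm hθ hζ0 hc hK1m hYe
    obtain ⟨B0, hB0⟩ : ∃ B0, B0 * c0 ^ 2 = 224 * e := ⟨224 * e / c0 ^ 2, by field_simp⟩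
    have hsub := sub v B0 fun q hq => by
      refine le_of_mul_le_mul_left ?_ (show 0 < c0 ^ 3 by positivity)
      have h1 : c0 ^ 2 * (c0 * |dot v (C.u q)|) ≤ 1 * (6 * e) :=
        mul_le_mul (by linarith only [hc1, p2]) (hv6 q hq) (by positivity) zero_le_one
      have h2 : c0 * (224 * e) ≤ 1 * (224 * e) := mul_le_mul_of_nonneg_right hc1 (by positivity)
      have h3 : c0 ^ 3 * (B0 + |dot v (C.u q)|) =
          c0 * (B0 * c0 ^ 2) + c0 ^ 2 * (c0 * |dot v (C.u q)|) := by ring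
      rw [h3, hB0]
      linarith only [hR, hRe, hbig, h1, h2]
    have hout : ((C.strip (ν - v) B0 \ K).card : ℝ) ≤ 2 * θ * C.n := by
      have h1 := out_T2c (Y := Y) (K := K) hsub
      have h2 : ζ * C.n ≤ θ / 2 * C.n := mul_le_mul_of_nonneg_right hζθ hn.le
      have h3 : 0 < θ * C.n := by positivity
      linarith only [hann, hYK, h1, h2, h3]
    have hm := Conf.markov C hT (T := Y \ K1) (Finset.sdiff_subset.trans hY)
      (t := c0 ^ 2 * C.n / 128) fun p hp => by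
        rw [Finset.mem_sdiff] at hp
        refine far C (hY hp.1) hc0 hc1 hR.le (hK.trans hY) (fun q hq => (hKm.1 hq).2)
          (by linarith only [hθ]) hout (part_T2c C hY hK hYK (by linarith only [hθ, p2, hζ0, hζθ]) hp.1 (hc p hp.1))
          (not_le.1 fun h => hp.2 (hK1m.2 ⟨hp.1, h⟩)) ?_
        refine le_of_mul_le_mul_left ?_ hc0
        have h1 := hv6 p (hY hp.1)
        have h2 : c0 * |dot ν (C.u p)| ≤ 1 * e :=
          mul_le_mul hc1 (hYe p hp.1) (abs_nonneg _) zero_le_one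
        have h3 : c0 * |dot (ν - v) (C.u p)| ≤ c0 * (|dot ν (C.u p)| + |dot v (C.u p)|) := by
          rw [dot_sub_left]
          exact mul_le_mul_of_nonneg_left (abs_sub _ _) hc0.le
        have h4 : c0 * (c0 * B0) = B0 * c0 ^ 2 := by ring
        rw [h4, hB0]
        linarith only [h1, h2, h3]
    refine le_of_mul_le_mul_left ?_ (show 0 < c0 ^ 2 * C.n / 128 by positivity)
    refine hm.trans (le_of_eq ?_)
    ring
  -- the near minimiser
  obtain ⟨R1, hR1⟩ : ∃ R1, R1 * c0 ^ 2 = 112 * R := ⟨112 * R / c0 ^ 2, by field_simp⟩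
  have hR10 : 0 < R1 :=
    (mul_pos_iff_of_pos_right (show 0 < c0 ^ 2 by positivity)).1 (by rw [hR1]; positivity)
  obtain ⟨v', hv', hQ, hq⟩ := nearmin C hν (hK1.trans hY) hn hv
    (η := C.n * (R1 * e) ^ 2) (by positivity)
  obtain ⟨M, hM⟩ : ∃ M, M * c0 = 16 * R := ⟨16 * R / c0, by field_simp⟩
  have hM0 : 0 < M := (mul_pos_iff_of_pos_right hc0).1 (by rw [hM]; positivity)
  have hyM : ∀ q ∈ K1, |dot (ν - v) (C.u q)| ≤ M := fun q hq =>
    le_of_mul_le_mul_left (by linarith [(hK1m.1 hq).2]) hc0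
  have hw : ∀ q ∈ C.S, c0 ^ 2 * |dot (v' - v) (C.u q)| ≤ 96 * R := by
    clear * - α C K1 ν v M Y hK1 hY hM0 hyM v' c0 hn hν e ζ hc0 hc1 nonempty hYK1 θ hθ p2 hζ0 hζθ
      hYe hc he2 hv hv' hQ R hM hq
    intro q hq
    have h1 : ∑ p ∈ K1, dot (ν - v) (C.u p) ^ 2 ≤ C.n * M ^ 2 :=
      sum_le_T2c C (hK1.trans hY) (by positivity) fun p hp =>
        sq_le_sq' (abs_le.1 (hyM p hp)).1 (abs_le.1 (hyM p hp)).2
    have h2 : ∑ p ∈ K1, dot (v' - v) (C.u p) ^ 2 ≤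
        ∑ p ∈ K1, (2 * dot (ν - v) (C.u p) ^ 2 + 2 * dot (ν - v') (C.u p) ^ 2) :=
      Finset.sum_le_sum fun p _ => by
        rw [dot_sub_left, dot_sub_left, dot_sub_left]
        linarith only [sq_nonneg (2 * dot ν (C.u p) - dot v (C.u p) - dot v' (C.u p)), sq_nonneg ((2 : ℝ) * dot ν (C.u p) - dot v (C.u p) - dot v' (C.u p))]
    rw [Finset.sum_add_distrib, ← Finset.mul_sum, ← Finset.mul_sum] at h2
    have h3 := spread_T2c C hn hν hc0 hc1 hY hK1 (nonempty hK1 hYK1 (by linarith only [hθ, p2, hζ0, hζθ])) hYe hc hYK1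
      (by linarith only [hθ, p2, hζ0, hζθ, he2]) (v := v' - v) (by rw [dot_sub_left, hv, hv', sub_zero]) (M := 2 * M)
      (by positivity) (by linarith only [hQ, h1, h2]) hq
    have h4 := mul_le_mul_of_nonneg_left h3 hc0.le
    linarith only [hM, h4]
  have hy' : ∀ q ∈ K1, |dot (ν - v') (C.u q)| ≤ R1 := by
    clear * - α K1 c0 ν v' C R1 v R hw hY hK1 hc1 Y hK1m hc0 hR1 hq
    intro q hq
    refine le_of_mul_le_mul_left ?_ (show 0 < c0 ^ 2 by positivity)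
    have h1 := hw q (hY (hK1 hq))
    have h2 : c0 * (c0 * |dot (ν - v) (C.u q)|) ≤ 1 * (16 * R) :=
      mul_le_mul hc1 (hK1m.1 hq).2 (by positivity) zero_le_one
    have h3 : |dot (ν - v') (C.u q)| ≤ |dot (ν - v) (C.u q)| + |dot (v' - v) (C.u q)| := by
      have := abs_sub (dot (ν - v) (C.u q)) (dot (v' - v) (C.u q))
      rw [dot_sub_left ν v, dot_sub_left v' v, sub_sub_sub_cancel_right] at this
      rwa [dot_sub_left ν v', dot_sub_left ν v, dot_sub_left v' v]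
    have h4 := mul_le_mul_of_nonneg_left h3 (sq_nonneg c0)
    linarith
  have hB : 2 * R1 / (c0 / 16) * c0 = 32 * R1 := by field_simp; norm_num
  obtain ⟨B, hBd⟩ : ∃ B, B = 2 * R1 / (c0 / 16) := ⟨_, rfl⟩
  have hsub := sub v' B fun q hq => by
    clear * - c0 B v' α C q e1 v e hc1 p2 hv6 hq hc0 R hw R1 hBd hB hR1 hR hRe hbig
    refine le_of_mul_le_mul_left ?_ (show 0 < c0 ^ 3 by positivity)
    have h1 : c0 ^ 2 * (c0 * |dot v (C.u q)|) ≤ 1 * (6 * e) :=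
      mul_le_mul (by linarith only [hc1, p2]) (hv6 q hq) (by positivity) zero_le_one
    have h2 : c0 * (c0 ^ 2 * |dot (v' - v) (C.u q)|) ≤ 1 * (96 * R) :=
      mul_le_mul hc1 (hw q hq) (by positivity) zero_le_one
    have h3 : |dot v' (C.u q)| ≤ |dot (v' - v) (C.u q)| + |dot v (C.u q)| := by
      have := abs_add_le (dot (v' - v) (C.u q)) (dot v (C.u q))
      rw [dot_sub_left v' v, sub_add_cancel] at this
      rwa [dot_sub_left v' v]
    have h4 := mul_le_mul_of_nonneg_left h3 (show 0 ≤ c0 ^ 3 by positivity)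
    have h5 : c0 ^ 3 * B = 3584 * R := by
      have : c0 ^ 3 * B = c0 ^ 2 * (B * c0) := by ring
      rw [this, hBd, hB]
      linarith only [hR1]
    linarith only [hR, hRe, hbig, h1, h2, h4, h5]
  have hquad := quad C (ν := ν - v') (hK1.trans hY) hR10 (k := c0 / 16) (by positivity) hy'
    (ζ := 2 * ζ) (c := 3 / 4 * c0)
    (by
      have h1 := out_T2c (Y := Y) (K := K1) hsub
      rw [← hBd]
      linarith only [hann, hYK1, h1])
    fun p hp => part_T2c C hY hK1 hYK1 (by linarith only [hθ, p2, hζ0, hζθ]) (hK1 hp) (hc p (hK1 hp))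
  rw [← hBd] at hquad hB
  have hB0 : 0 < B := by rw [hBd]; positivity
  obtain ⟨Q, hQd⟩ : ∃ Q, Q = ∑ p ∈ K1, dot (ν - v') (C.u p) ^ 2 := ⟨_, rfl⟩
  have hQ0 : 0 ≤ Q := by rw [hQd]; positivity
  rw [← hQd] at hquad
  have hcross : (∑ p ∈ K1, dot (ν - v') (C.u p) * dot ν (C.u p)) ^ 2 ≤
      (C.n * (R1 * e)) ^ 2 := by
    rw [← sq_abs]
    refine pow_le_pow_left₀ (abs_nonneg _) ((Finset.abs_sum_le_sum_abs _ _).trans
      (sum_le_T2c C (hK1.trans hY) (by positivity) fun p hp => ?_)) 2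
    rw [abs_mul]
    exact mul_le_mul (hy' p hp) (hYe p (hK1 hp)) (abs_nonneg _) hR10.le
  have hD : ∑ p ∈ C.S, C.D p + 2 * ζ * C.n ^ 2 ≤ 3 * ζ * C.n ^ 2 := by
    clear * - α C ζ c0 hT hc1 p2 hζ0 hn
    have h1 := Conf.sum_D C hT
    have h2 : c0 ^ 2 * (ζ * C.n ^ 2) ≤ 1 * (ζ * C.n ^ 2) :=
      mul_le_mul_of_nonneg_right (by linarith only [hc1, p2]) (by positivity)
    have h3 : 0 < ζ * C.n ^ 2 := by positivity
    linarith only [h1, h2, h3]
  have hmain : c0 / 2 * C.n * Q ≤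
      C.n ^ 2 * R1 ^ 2 * (4 * e ^ 2 + 192 * (θ * c0 ^ 5 / 10 ^ 8)) := by
    clear * - c0 α C Q θ ζ hθ p2 hζ0 hζθ hn hQ0 R1 B hD hR10 hB0 hζ hB e K1 ν v' hq hquad hcross
    have h1 : c0 / 2 * C.n * Q ≤ (3 / 4 * c0 - 3 * (c0 / 16) ^ 2) * C.n * Q :=
      mul_le_mul_of_nonneg_right (mul_le_mul_of_nonneg_right (by linarith only [hθ, p2, hζ0, hζθ]) hn.le) hQ0
    have h2 := mul_le_mul_of_nonneg_left hD (show 0 ≤ 2 * R1 * B by positivity)
    have h3 : 2 * R1 * B * (3 * ζ * C.n ^ 2) =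
        C.n ^ 2 * R1 ^ 2 * (192 * (θ * c0 ^ 5 / 10 ^ 8)) := by
      have : 2 * R1 * B * (3 * ζ * C.n ^ 2) =
          6 * R1 * (B * c0) * (θ * c0 ^ 5 / 10 ^ 8) * C.n ^ 2 := by rw [hζ]; ring
      rw [this, hB]
      ring
    linarith only [hq, hquad, hcross, h1, h2, h3]
  obtain ⟨G, hGd⟩ : ∃ G, G = K1.filter fun p => R / 2 < |dot (ν - v') (C.u p)| := ⟨_, rfl⟩
  have hGm : ∀ {p}, p ∈ G ↔ p ∈ K1 ∧ R / 2 < |dot (ν - v') (C.u p)| := by
    intro p
    rw [hGd, Finset.mem_filter]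
  have hG : (G.card : ℝ) * (R / 2) ^ 2 ≤ Q := by
    have h1 := Finset.card_nsmul_le_sum G (fun p => dot (ν - v') (C.u p) ^ 2) ((R / 2) ^ 2)
      fun p hp => by
        rw [← sq_abs (dot _ _)]
        exact pow_le_pow_left₀ (by positivity) (hGm.1 hp).2.le 2
    rw [nsmul_eq_mul] at h1
    rw [hQd]
    exact h1.trans (Finset.sum_le_sum_of_subset_of_nonneg (fun p hp => (hGm.1 hp).1)
      fun p _ _ => sq_nonneg _)
  have hG' := fin_T2c hc0 hc1 hθ0 hn hR hR1 (hζ ▸ he2) hmain hG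
  refine ⟨v', hv', ?_⟩
  have h1 : Y \ C.strip (ν - v') (R / 2) ⊆ (Y \ K1) ∪ G := by
    intro q hq
    rw [Finset.mem_sdiff] at hq
    by_cases h : q ∈ K1
    · exact Finset.mem_union_right _ (hGm.2 ⟨h, not_le.1 fun h' =>
        hq.2 (C.mem_strip.2 ⟨hY hq.1, h'⟩)⟩)
    · exact Finset.mem_union_left _ (Finset.mem_sdiff.2 ⟨hq.1, h⟩)
  have h2 : ((Y \ C.strip (ν - v') (R / 2)).card : ℝ) ≤ (Y \ K1).card + G.card := by
    exact_mod_cast (Finset.card_le_card h1).trans (Finset.card_union_le _ _)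
  have h3 : ζ * C.n ≤ θ / 2 * C.n := mul_le_mul_of_nonneg_right hζθ hn.le
  have h4 : 0 < θ * C.n := by positivity
  clear * - α Y C ν v' R θ K1 ζ G hYK1 hG' h2 h3 h4
  linarith only [hYK1, hG', h2, h3, h4]

end Pool.Agent.Work.MP_d88d93_co
end

-- merged part: Pool.Agent.Work.MP_d88d93_co.T2d
section
/-! Strip lemma: a thin spread strip with a light neighbourhood is almost a line. -/

namespace Pool.Agent.Work.MP_d88d93_co

open Finset

variable {α : Type} [DecidableEq α]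

omit [DecidableEq α] in
theorem exists_mu_T2d (C : Conf α) : ∃ μ : ℝ, 0 < μ ∧ ∀ p ∈ C.S, ∀ q ∈ C.S, ∀ r ∈ C.S,
    |det3 (C.u p) (C.u q) (C.u r)| < μ → det3 (C.u p) (C.u q) (C.u r) = 0 := by
  classical
  let T : Finset ℝ := insert 1 (((C.S ×ˢ C.S ×ˢ C.S).image
    fun x => |det3 (C.u x.1) (C.u x.2.1) (C.u x.2.2)|).filter fun t => 0 < t)
  have hT : T.Nonempty := insert_nonempty _ _
  refine ⟨T.min' hT, ?_, fun p hp q hq r hr h => ?_⟩
  · rcases mem_insert.1 (T.min'_mem hT) with h | h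
    · rw [h]
      exact one_pos
    · exact (mem_filter.1 h).2
  · by_contra h0
    have h1 : |det3 (C.u p) (C.u q) (C.u r)| ∈ T :=
      mem_insert_of_mem (mem_filter.2 ⟨mem_image.2 ⟨(p, q, r), by simp [hp, hq, hr], rfl⟩,
        abs_pos.2 h0⟩)
    exact absurd (T.min'_le _ h1) (not_le.2 h)

omit [DecidableEq α] in
theorem card_ge_T2d (C : Conf α) {Y : Finset α} {p : α} {c : ℝ}
    (h : c ≤ ∑ q ∈ Y, C.s p q ^ 2 * (1 - C.s p q ^ 2)) : c ≤ Y.card := by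
  refine h.trans ?_
  calc ∑ q ∈ Y, C.s p q ^ 2 * (1 - C.s p q ^ 2) ≤ ∑ _q ∈ Y, (1 : ℝ) :=
        sum_le_sum fun q _ => by linarith only [sq_nonneg (C.s p q ^ 2 - 1), sq_nonneg (C.s p q ^ 2), sq_nonneg (C.s p q ^ (2 : ℕ)), sq_nonneg (C.s p q ^ (2 : ℕ) - (1 : ℝ))]
    _ = Y.card := by simp

theorem T2 {c0 θ : ℝ} (hc0 : 0 < c0) (hc1 : c0 ≤ 1) (hθ : 0 < θ) :
    ∃ ω : ℝ, 0 < ω ∧ ∃ lam : ℝ, 0 < lam ∧ lam ≤ 1 ∧ ∃ ε : ℝ, 0 < ε ∧ ∀ C : Conf α, C.Tight ε →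
      ∀ ν : V3, dot ν ν = 1 → ∀ e e1 : ℝ, 0 < e → e ≤ lam * e1 → e1 ≤ 1 →
      ((C.strip ν e1 \ C.strip ν e).card : ℝ) ≤ ω * C.n → (C.strip ν e).Nonempty →
      (∀ p ∈ C.strip ν e, c0 * C.n ≤ ∑ q ∈ C.strip ν e, C.s p q ^ 2 * (1 - C.s p q ^ 2)) →
      ∃ l ∈ C.L, ((C.strip ν e \ l).card : ℝ) ≤ θ * C.n := by
  set θ' : ℝ := min θ (c0 ^ 2 / 1024) with hθ'
  have h0 : 0 < θ' := lt_min hθ (by positivity)
  have h1 : θ' ≤ c0 ^ 2 / 1024 := min_le_right _ _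
  have h2 : θ' ≤ θ := min_le_left _ _
  have hp : ∀ k : ℕ, c0 ^ k ≤ 1 := fun k => pow_le_one₀ hc0.le hc1
  have h3 : θ' ≤ c0 / 1024 := h1.trans (by linarith only [hc0, hc1, mul_nonneg_of_nonpos_of_nonpos (le_of_lt (Mathlib.Tactic.Linarith.sub_neg_of_lt hc0)) (Mathlib.Tactic.Linarith.sub_nonpos_of_le hc1)])
  refine ⟨θ' * c0 ^ 6 / 10 ^ 8, by positivity, θ' * c0 ^ 3 / 10 ^ 4, by positivity, ?_,
    θ' * c0 ^ 8 / (256 * 10 ^ 8), by positivity, ?_⟩
  · have := hp 3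
    rw [div_le_one (by norm_num)]
    linarith only [hc1, h3, h0, this, mul_nonneg_of_nonpos_of_nonpos (le_of_lt (Mathlib.Tactic.Linarith.sub_neg_of_lt h0)) (Mathlib.Tactic.Linarith.sub_nonpos_of_le this)]
  intro C hT ν hν e e1 he hee1 he1 hann hne hc
  have hn := hT.n_pos
  have hind : ∀ j : ℕ, ∃ v : V3, dot v ν = 0 ∧
      ((C.strip ν e \ C.strip (ν - v) (e / 2 ^ j)).card : ℝ) ≤ θ' * C.n := by
    intro j
    induction j with
    | zero =>
      refine ⟨0, dot_zero_left _, ?_⟩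
      rw [sub_zero, pow_zero, div_one, sdiff_self]
      simp only [bot_eq_empty, card_empty, Nat.cast_zero]
      positivity
    | succ j ih =>
      obtain ⟨v, hv, hP⟩ := ih
      obtain ⟨v', hv', hP'⟩ := T2_step C hc0 hc1 h0 h1 hT hν he1 hee1 hann hne hc
        (R := e / 2 ^ j) (by positivity) (div_le_self he.le (one_le_pow₀ (by norm_num))) hv hP
      refine ⟨v', hv', ?_⟩
      rwa [pow_succ, ← div_div]
  obtain ⟨μ, hμ, hμ'⟩ := exists_mu_T2d C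
  obtain ⟨j, hj⟩ := pow_unbounded_of_one_lt (3 * e / μ) (by norm_num : (1 : ℝ) < 2)
  obtain ⟨v, hv, hP⟩ := hind j
  have hR : 3 * (e / 2 ^ j) < μ := by
    rw [div_lt_iff₀ hμ] at hj
    rw [← mul_div_assoc, div_lt_iff₀ (by positivity)]
    linarith only [hj]
  set K := C.strip ν e ∩ C.strip (ν - v) (e / 2 ^ j) with hK
  have hcard : ((C.strip ν e \ C.strip (ν - v) (e / 2 ^ j)).card : ℝ) + K.card =
      (C.strip ν e).card := by
    rw [← Nat.cast_add, card_sdiff_add_card_inter]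
  obtain ⟨p0, hp0⟩ := hne
  have hY := card_ge_T2d C (hc p0 hp0)
  have hbig : 1 ≤ θ' * C.n := by
    clear * - θ' c0 α C hT hp h0 hn
    refine hT.big.trans (mul_le_mul_of_nonneg_right ?_ hn.le)
    have := hp 8
    rw [div_le_iff₀ (by norm_num)]
    linarith only [h0, this, mul_nonneg_of_nonpos_of_nonpos (le_of_lt (Mathlib.Tactic.Linarith.sub_neg_of_lt h0)) (Mathlib.Tactic.Linarith.sub_nonpos_of_le this)]
  have hK1 : 1 < K.card := by
    have h4 : θ' * C.n ≤ c0 / 1024 * C.n := mul_le_mul_of_nonneg_right h3 hn.le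
    have h5 : (1 : ℝ) < K.card := by linarith only [hc1, h0, h3, hP, hcard, hY, hbig, h4]
    exact_mod_cast h5
  obtain ⟨p, hp', q, hq', hpq⟩ := one_lt_card.1 hK1
  have hmem : ∀ r ∈ K, r ∈ C.S ∧ |dot (ν - v) (C.u r)| ≤ e / 2 ^ j := fun r hr =>
    C.mem_strip.1 (mem_inter.1 hr).2
  obtain ⟨l, hl, hpl, hql⟩ := C.cov p (hmem p hp').1 q (hmem q hq').1 hpq
  refine ⟨l, hl, le_trans ?_ (hP.trans (mul_le_mul_of_nonneg_right h2 hn.le))⟩
  refine Nat.cast_le.2 (card_le_card fun r hr => ?_)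
  obtain ⟨hr1, hr2⟩ := mem_sdiff.1 hr
  refine mem_sdiff.2 ⟨hr1, fun hr3 => hr2 ?_⟩
  have hrK : r ∈ K := mem_inter.2 ⟨hr1, hr3⟩
  rw [C.mem_iff_det hl hpl hql hpq (hmem r hrK).1]
  refine hμ' p (hmem p hp').1 q (hmem q hq').1 r (hmem r hrK).1 ?_
  have h6 := abs_det3_le (ν := ν - v) (C.unit p (hmem p hp').1) (C.unit q (hmem q hq').1)
    (C.unit r (hmem r hrK).1) hν (by rw [dot_sub_left, hν, hv, sub_zero])
  linarith only [hR, h6, hmem, hp', hq', hrK, (hmem p hp').2, (hmem q hq').2, (hmem r hrK).2]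

end Pool.Agent.Work.MP_d88d93_co
end

-- merged part: Pool.Agent.Work.MP_d88d93_co.T3b
section
/-! A cluster and many middle points give a line through most of the cluster. -/

namespace Pool.Agent.Work.MP_d88d93_co

open Finset

variable {α : Type} [DecidableEq α]

theorem T3 {m0 γ z0 θ : ℝ} (hm : 0 < m0) (hm1 : m0 ≤ 1) (hγ : 0 < γ) (hγ1 : γ ≤ 1)
    (hz0 : 0 < z0) (hθ : 0 < θ) :
    ∃ ρ : ℝ, 0 < ρ ∧ ρ ≤ γ ∧ ∃ ε : ℝ, 0 < ε ∧ ∀ C : Conf α, C.Tight ε →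
      ∀ a : V3, dot a a = 1 → m0 * C.n ≤ ((C.near a ρ).card : ℝ) →
      ∀ Z : Finset α, Z ⊆ C.mid a γ → z0 * C.n ≤ (Z.card : ℝ) →
      ∃ g ∈ C.L, ((C.near a ρ \ g).card : ℝ) ≤ θ * C.n ∧ ∃ r ∈ Z, r ∈ g := by
  set z1 : ℝ := γ * m0 * z0 / 8 with hz1
  have hz1p : 0 < z1 := by positivity
  set m : ℝ := min m0 z1 with hmdef
  have hmp : 0 < m := lt_min hm hz1p
  have hmm : m ≤ m0 := min_le_left _ _
  have hmz : m ≤ z1 := min_le_right _ _
  have hc1 : m * γ ^ 2 / 9216 ≤ 1 := by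
    have h1 : γ ^ 2 ≤ 1 := pow_le_one₀ hγ.le hγ1
    rw [div_le_one (by norm_num)]
    linarith only [h1, hm1, hmm, mul_nonneg_of_nonpos_of_nonpos (Mathlib.Tactic.Linarith.sub_nonpos_of_le (sq_nonneg γ)) (Mathlib.Tactic.Linarith.sub_nonpos_of_le hm1), mul_nonneg_of_nonpos_of_nonpos (Mathlib.Tactic.Linarith.sub_nonpos_of_le (sq_nonneg γ)) (Mathlib.Tactic.Linarith.sub_nonpos_of_le hmm)]
  obtain ⟨ω, hω, lam, hlam, hlam1, ε2, hε2, H⟩ :=
    T2 (α := α) (c0 := m * γ ^ 2 / 9216) (θ := min θ (z1 / 2)) (by positivity) hc1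
      (lt_min hθ (by positivity))
  obtain ⟨J, hJ⟩ := exists_nat_ge (1 / ω)
  have hJ0 : 0 < J := by
    have : (0 : ℝ) < J := lt_of_lt_of_le (by positivity) hJ
    exact_mod_cast this
  set b : ℝ := √(γ / 24) with hb
  have hb0 : 0 < b := Real.sqrt_pos.2 (by positivity)
  have hb2 : b ^ 2 = γ / 24 := Real.sq_sqrt (by positivity)
  have hb1 : b ≤ 1 := by clear * - b γ hγ1 hb2 hb0; (refine le_of_not_gt fun h_nl => ?_; linarith only [h_nl, hγ1, hb2, hb0, mul_pos_of_neg_of_neg (Mathlib.Tactic.Linarith.sub_neg_of_lt hb0) (Mathlib.Tactic.Linarith.sub_neg_of_lt h_nl)])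
  have hanti : ∀ i j : ℕ, i ≤ j → b * lam ^ j ≤ b * lam ^ i := fun i j h =>
    mul_le_mul_of_nonneg_left (pow_le_pow_of_le_one hlam.le hlam1 h) hb0.le
  have hle : ∀ j : ℕ, b * lam ^ j ≤ b := fun j => by simpa using hanti 0 j (Nat.zero_le j)
  set ρ : ℝ := min (γ / 144) ((b * lam ^ J) ^ 2 / 8) with hρ
  have hρ0 : 0 < ρ := lt_min (by positivity) (by positivity)
  have hρ1 : ρ ≤ γ / 144 := min_le_left _ _
  have hρ2 : ρ ≤ (b * lam ^ J) ^ 2 / 8 := min_le_right _ _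
  refine ⟨ρ, hρ0, by linarith only [hρ0, hρ1], min ε2 (γ * m0 * z0 / 32), lt_min hε2 (by positivity), ?_⟩
  intro C hT a ha hU Z hZ hz
  have hn := hT.n_pos
  obtain ⟨ν, hν, hνa, hZ'⟩ := T3a C hT hγ hγ1 (by linarith only [hρ0, hρ1]) hm hz0
    (by linarith only [min_le_right ε2 (γ * m0 * z0 / 32)]) ha hU hZ hz
  set Z' := Z.filter (fun r => dot ν (C.u r) ^ 2 ≤ 8 * ρ) with hZ'def
  obtain ⟨j, hj, hann⟩ := chain_pigeon (fun j => C.strip ν (b * lam ^ j)) (fun j p hp => by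
    rw [C.mem_strip] at hp ⊢
    exact ⟨hp.1, hp.2.trans (hanti j (j + 1) (Nat.le_succ j))⟩) J hJ0
  have he0 : 0 < b * lam ^ (j + 1) := by positivity
  have hin : ∀ p ∈ C.S, dot ν (C.u p) ^ 2 ≤ 8 * ρ → p ∈ C.strip ν (b * lam ^ (j + 1)) := by
    intro p hp h
    refine C.mem_strip.2 ⟨hp, le_trans ?_ (hanti (j + 1) J hj)⟩
    exact abs_le_of_sq_le_sq' (by linarith only [hρ2, h]) (by positivity) |> abs_le.2
  have hUY : C.near a ρ ⊆ C.strip ν (b * lam ^ (j + 1)) := by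
    clear * - α C a ρ ν b lam j hν ha hνa hin hρ0
    intro p hp
    obtain ⟨hp1, hp2⟩ := C.mem_near.1 hp
    have h1 := (frame_cross hν ha hνa).sum_sq (C.unit p hp1)
    exact hin p hp1 (by linarith only [hρ0, hp2, h1, sq_nonneg (dot (cross ν a) (C.u p)), sq_nonneg (dot (cross ν a) (C.u p))])
  have hZY : Z' ⊆ C.strip ν (b * lam ^ (j + 1)) := by
    intro p hp
    obtain ⟨hp1, hp2⟩ := mem_filter.1 hp
    exact hin p (C.mem_mid.1 (hZ hp1)).1 hp2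
  have hsp := T3b C ha hν hνa hγ hρ1 (e := b * lam ^ (j + 1))
    (by rw [← hb2]; exact pow_le_pow_left₀ he0.le (hle _) 2) (m := m) subset_rfl
    ((filter_subset _ _).trans hZ) hUY hZY
    ((mul_le_mul_of_nonneg_right hmm hn.le).trans hU)
    ((mul_le_mul_of_nonneg_right hmz hn.le).trans hZ')
  have hne : (C.strip ν (b * lam ^ (j + 1))).Nonempty := by
    refine Nonempty.mono hUY (card_pos.1 ?_)
    have : (0 : ℝ) < (C.near a ρ).card := lt_of_lt_of_le (by positivity) hU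
    exact_mod_cast this
  have hann' : ((C.strip ν (b * lam ^ j) \ C.strip ν (b * lam ^ (j + 1))).card : ℝ) ≤ ω * C.n := by
    clear * - α C ν b lam ω J hω hJ j hann
    have h1 : ((C.strip ν (b * lam ^ 0)).card : ℝ) ≤ C.n := C.card_le_n (filter_subset _ _)
    have h2 : 1 ≤ ω * J := by
      rw [div_le_iff₀ hω] at hJ
      linarith
    have h3 := mul_le_mul_of_nonneg_left (hann.trans h1) hω.le
    have h4 : (0 : ℝ) ≤ (C.strip ν (b * lam ^ j) \ C.strip ν (b * lam ^ (j + 1))).card :=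
      Nat.cast_nonneg _
    linarith only [h3, h2, mul_nonneg_of_nonpos_of_nonpos (Mathlib.Tactic.Linarith.sub_nonpos_of_le (Mathlib.Tactic.Linarith.natCast_nonneg ℝ #(C.strip ν (b * lam ^ j) \ C.strip ν (b * lam ^ (j + (1 : ℕ)))))) (Mathlib.Tactic.Linarith.sub_nonpos_of_le h2)]
  obtain ⟨g, hg, hcard⟩ := H C (hT.mono (min_le_left _ _)) ν hν (b * lam ^ (j + 1)) (b * lam ^ j)
    he0 (le_of_eq (by ring)) ((hle j).trans hb1) hann' hne hsp
  refine ⟨g, hg, ?_, ?_⟩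
  · refine le_trans ?_ (hcard.trans (mul_le_mul_of_nonneg_right (min_le_left _ _) hn.le))
    exact Nat.cast_le.2 (card_le_card (sdiff_subset_sdiff hUY subset_rfl))
  · by_contra hno
    push Not at hno
    have h1 : Z' ⊆ C.strip ν (b * lam ^ (j + 1)) \ g := fun r hr =>
      mem_sdiff.2 ⟨hZY hr, hno r (mem_filter.1 hr).1⟩
    have h2 : (Z'.card : ℝ) ≤ (C.strip ν (b * lam ^ (j + 1)) \ g).card :=
      Nat.cast_le.2 (card_le_card h1)
    have h3 := mul_le_mul_of_nonneg_right (min_le_right θ (z1 / 2)) hn.le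
    have h4 := mul_pos hz1p hn
    have h5 : z1 * C.n ≤ Z'.card := hZ'
    linarith only [hcard, h2, h3, h4, h5]

end Pool.Agent.Work.MP_d88d93_co
end

-- merged part: Pool.Agent.Work.MP_d88d93_co.T1a
section
/-! Short lines with small defect contain a pair at a special angle. -/

namespace Pool.Agent.Work.MP_d88d93_co

open Finset

variable {α : Type} [DecidableEq α]

omit [DecidableEq α] in
/-- The doubled angles of the points of a line, as unit complex numbers. -/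
theorem exists_z_T1a (C : Conf α) {l : Finset α} (hl : l ∈ C.L) :
    ∃ z : α → ℂ, (∀ q ∈ l, ‖z q‖ = 1) ∧
      (∀ q ∈ l, ∀ q' ∈ l, ‖z q + z q'‖ = 2 * |C.s q q'|) ∧
      ‖∑ q ∈ l, z q‖ ^ 2 = 2 * C.Dl l := by
  obtain ⟨p, hp⟩ : l.Nonempty := Finset.card_pos.1 (by have := C.two l hl; omega)
  obtain ⟨d, _, h2, h3⟩ := C.plane hl hp
  refine ⟨fun q => ⟨2 * C.s p q ^ 2 - 1, 2 * (C.s p q * dot d (C.u q))⟩, ?_, ?_, ?_⟩
  · intro q hq
    have e := h2 q hq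
    have e5 : dot d (C.u q) ^ 2 = 1 - C.s p q ^ 2 := by linarith
    have k : ‖(⟨2 * C.s p q ^ 2 - 1, 2 * (C.s p q * dot d (C.u q))⟩ : ℂ)‖ ^ 2 = 1 ^ 2 := by
      rw [Complex.sq_norm, Complex.normSq_apply]
      have : (2 * (C.s p q * dot d (C.u q))) * (2 * (C.s p q * dot d (C.u q)))
          = 4 * C.s p q ^ 2 * dot d (C.u q) ^ 2 := by ring
      simp only []
      rw [this, e5]
      ring
    exact (pow_left_inj₀ (norm_nonneg _) (by norm_num) two_ne_zero).1 k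
  · intro q hq q' hq'
    have e1 := h3 q' hq' (C.u q)
    have e4 : C.s q q' = C.s p q' * C.s p q + dot d (C.u q') * dot d (C.u q) := by
      rw [show C.s q q' = dot (C.u q) (C.u q') from rfl, e1, dot_comm (C.u q) (C.u p),
        dot_comm (C.u q) d]
      rfl
    have e5 : dot d (C.u q) ^ 2 = 1 - C.s p q ^ 2 := by linarith [h2 q hq]
    have e6 : dot d (C.u q') ^ 2 = 1 - C.s p q' ^ 2 := by linarith [h2 q' hq']
    have k : ‖(⟨2 * C.s p q ^ 2 - 1, 2 * (C.s p q * dot d (C.u q))⟩ : ℂ)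
        + ⟨2 * C.s p q' ^ 2 - 1, 2 * (C.s p q' * dot d (C.u q'))⟩‖ ^ 2
        = (2 * |C.s q q'|) ^ 2 := by
      rw [Complex.sq_norm, Complex.normSq_apply, mul_pow, sq_abs, e4]
      simp only [Complex.add_re, Complex.add_im]
      set s := C.s p q
      set s' := C.s p q'
      set t := dot d (C.u q)
      set t' := dot d (C.u q')
      linear_combination (4 * s ^ 2 - 4 * t' ^ 2) * e5 + (4 * s' ^ 2 - 4 * (1 - s ^ 2)) * e6
    exact (pow_left_inj₀ (norm_nonneg _) (by positivity) two_ne_zero).1 k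
  · rw [Complex.sq_norm, Complex.normSq_apply, Complex.re_sum, Complex.im_sum, C.Dl_eq h2 h3]
    simp only [← Finset.mul_sum]
    ring

theorem four_T1a {a b c d : ℂ} (ha : ‖a‖ = 1) (hb : ‖b‖ = 1) (hc : ‖c‖ = 1) (hd : ‖d‖ = 1) :
    ‖a + b‖ * ‖a + c‖ * ‖a + d‖ ≤ 2 * ‖a + b + c + d‖ := by
  have k : ∀ x : ℂ, ‖x‖ = 1 → x * (starRingEnd ℂ) x = 1 := by
    intro x hx
    rw [Complex.mul_conj, Complex.normSq_eq_norm_sq, hx]
    norm_num
  have e : (a + b) * (a + c) * (a + d)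
      = a ^ 2 * (a + b + c + d) + a * b * c * d * (starRingEnd ℂ) (a + b + c + d) := by
    simp only [map_add]
    linear_combination (-(b * c * d)) * k a ha - a * c * d * k b hb - a * b * d * k c hc
      - a * b * c * k d hd
  rw [← norm_mul, ← norm_mul, e]
  refine (norm_add_le _ _).trans (le_of_eq ?_)
  simp only [norm_mul, norm_pow, Complex.norm_conj, ha, hb, hc, hd]
  ring

omit [DecidableEq α] in
theorem small_line (C : Conf α) {l : Finset α} (hl : l ∈ C.L) (h4 : l.card ≤ 4) {τ : ℝ}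
    (hτ : 0 < τ) (hτ1 : τ ≤ 1) (hD : 2 * C.Dl l ≤ τ ^ 6) :
    ∃ p ∈ l, ∃ q ∈ l, p ≠ q ∧
      (|C.s p q| ≤ τ ∨ |C.s p q - 1 / 2| ≤ τ ∨ |C.s p q + 1 / 2| ≤ τ) := by
  classical
  obtain ⟨z, hz1, hz2, hz3⟩ := exists_z_T1a C hl
  have hη : ‖∑ q ∈ l, z q‖ ≤ τ ^ 3 := by
    apply (abs_le_of_sq_le_sq' _ (by positivity)).2
    rw [hz3]
    calc _ ≤ τ ^ 6 := hD
      _ = _ := by ring
  have hτ3 : τ ^ 3 ≤ τ := by
    have : τ ^ 2 ≤ 1 := by linarith only [hτ1, hτ, mul_nonneg_of_nonpos_of_nonpos (le_of_lt (Mathlib.Tactic.Linarith.sub_neg_of_lt hτ)) (Mathlib.Tactic.Linarith.sub_nonpos_of_le hτ1)]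
    linarith only [hτ1, hτ, mul_nonneg_of_nonpos_of_nonpos (Mathlib.Tactic.Linarith.sub_nonpos_of_le (sq_nonneg τ)) (Mathlib.Tactic.Linarith.sub_nonpos_of_le hτ1), mul_nonneg_of_nonpos_of_nonpos (le_of_lt (Mathlib.Tactic.Linarith.sub_neg_of_lt hτ)) (Mathlib.Tactic.Linarith.sub_nonpos_of_le hτ1)]
  have h2 := C.two l hl
  have hc : l.card = 2 ∨ l.card = 3 ∨ l.card = 4 := by omega
  rcases hc with hc | hc | hc
  · obtain ⟨a, b, hab, rfl⟩ := Finset.card_eq_two.1 hc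
    refine ⟨a, by simp, b, by simp, hab, Or.inl ?_⟩
    rw [Finset.sum_pair hab, hz2 a (by simp) b (by simp)] at hη
    have := abs_nonneg (C.s a b)
    linarith only [hτ, hτ3, hη]
  · obtain ⟨a, b, c, hab, hac, hbc, rfl⟩ := Finset.card_eq_three.1 hc
    refine ⟨a, by simp, b, by simp, hab, Or.inr ?_⟩
    rw [Finset.sum_insert (by simp [hab, hac]), Finset.sum_pair hbc, ← add_assoc] at hη
    have k1 := hz2 a (by simp) b (by simp)
    have k2 := hz1 c (by simp)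
    have k3 : ‖z a + z b‖ ≤ ‖z a + z b + z c‖ + ‖z c‖ := by
      have := norm_sub_le (z a + z b + z c) (z c)
      rwa [add_sub_cancel_right] at this
    have k4 : ‖z c‖ ≤ ‖z a + z b + z c‖ + ‖z a + z b‖ := by
      have := norm_sub_le (z a + z b + z c) (z a + z b)
      rwa [add_sub_cancel_left] at this
    rw [k1, k2] at k3 k4
    rcases le_total 0 (C.s a b) with h0 | h0
    · rw [abs_of_nonneg h0] at k3 k4
      left
      rw [abs_le]
      constructor <;> linarith only [hτ, hτ3, hη, k4, k3]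
    · rw [abs_of_nonpos h0] at k3 k4
      right
      rw [abs_le]
      constructor <;> linarith only [hτ, hτ3, hη, k3, k4]
  · obtain ⟨a, t, hat, rfl, ht⟩ := Finset.card_eq_succ.1 hc
    obtain ⟨b, c, d, hbc, hbd, hcd, rfl⟩ := Finset.card_eq_three.1 ht
    have hab : a ≠ b := fun h => hat (by simp [h])
    have hac : a ≠ c := fun h => hat (by simp [h])
    have had : a ≠ d := fun h => hat (by simp [h])
    rw [Finset.sum_insert hat, Finset.sum_insert (by simp [hbc, hbd]), Finset.sum_pair hcd,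
      ← add_assoc, ← add_assoc] at hη
    have k := four_T1a (hz1 a (by simp)) (hz1 b (by simp)) (hz1 c (by simp)) (hz1 d (by simp))
    rw [hz2 a (by simp) b (by simp), hz2 a (by simp) c (by simp), hz2 a (by simp) d (by simp)] at k
    by_cases k1 : |C.s a b| ≤ τ
    · exact ⟨a, by simp, b, by simp, hab, Or.inl k1⟩
    by_cases k2 : |C.s a c| ≤ τ
    · exact ⟨a, by simp, c, by simp, hac, Or.inl k2⟩
    by_cases k3 : |C.s a d| ≤ τ
    · exact ⟨a, by simp, d, by simp, had, Or.inl k3⟩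
    exfalso
    push Not at k1 k2 k3
    have m1 : τ * τ ≤ |C.s a b| * |C.s a c| := mul_le_mul k1.le k2.le hτ.le (abs_nonneg _)
    have m2 : τ * τ * τ ≤ |C.s a b| * |C.s a c| * |C.s a d| :=
      mul_le_mul m1 k3.le hτ.le (by positivity)
    have m3 : 0 < τ ^ 3 := by positivity
    clear * - z a b c d τ α C hη k m2 m3
    linarith only [hη, k, m2, m3]

/-- Pairs at a special angle. -/
noncomputable def GP (C : Conf α) (τ : ℝ) : Finset (α × α) :=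
  (C.S ×ˢ C.S).filter (fun x => |C.s x.1 x.2| ≤ τ ∨ |C.s x.1 x.2 - 1 / 2| ≤ τ ∨
    |C.s x.1 x.2 + 1 / 2| ≤ τ)

/-- There are many short lines. -/
theorem many_short_T1a (C : Conf α) {ε : ℝ} (hT : C.Tight ε) :
    (1 / 12 - ε) * C.n ^ 2 ≤ 4 * ((C.L.filter (fun l => l.card ≤ 4)).card : ℝ) := by
  have h1 := Finset.sum_filter_add_sum_filter_not C.L (fun l => l.card ≤ 4)
    (fun l => (l.card : ℝ))
  have h2 : ∑ l ∈ C.L.filter (fun l => l.card ≤ 4), (l.card : ℝ)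
      ≤ 4 * ((C.L.filter (fun l => l.card ≤ 4)).card : ℝ) := by
    have := Finset.sum_le_card_nsmul (C.L.filter (fun l => l.card ≤ 4)) (fun l => (l.card : ℝ)) 4
      (fun l hl => by exact_mod_cast (Finset.mem_filter.1 hl).2)
    rw [nsmul_eq_mul] at this
    linarith
  have h3 : 4 * ∑ l ∈ C.L.filter (fun l => ¬ l.card ≤ 4), (l.card : ℝ)
      ≤ ∑ l ∈ C.L, (l.card : ℝ) * ((l.card : ℝ) - 1) := by
    rw [Finset.mul_sum]
    calc _ ≤ ∑ l ∈ C.L.filter (fun l => ¬ l.card ≤ 4), (l.card : ℝ) * ((l.card : ℝ) - 1) := by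
          apply Finset.sum_le_sum
          intro l hl
          have h5 : 5 ≤ l.card := by have := (Finset.mem_filter.1 hl).2; omega
          have h6 : (5 : ℝ) ≤ l.card := by exact_mod_cast h5
          linarith only [h6, mul_nonneg_of_nonpos_of_nonpos (Mathlib.Tactic.Linarith.sub_nonpos_of_le (Mathlib.Tactic.Linarith.natCast_nonneg ℝ #l)) (Mathlib.Tactic.Linarith.sub_nonpos_of_le h6)]
      _ ≤ _ := by
          apply Finset.sum_le_sum_of_subset_of_nonneg (Finset.filter_subset _ _)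
          intro l hl _
          have : (2 : ℝ) ≤ l.card := by exact_mod_cast C.two l hl
          linarith only [this, mul_nonneg_of_nonpos_of_nonpos (Mathlib.Tactic.Linarith.sub_nonpos_of_le (Mathlib.Tactic.Linarith.natCast_nonneg ℝ #l)) (Mathlib.Tactic.Linarith.sub_nonpos_of_le this)]
  rw [C.sum_card_mul] at h3
  have h4 := hT.inc
  have h5 := C.n_nonneg
  linarith only [h1, h2, h3, h4, h5]

omit [DecidableEq α] in
/-- Few lines have a large defect. -/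
theorem few_bad_T1a (C : Conf α) {ε τ : ℝ} (hT : C.Tight ε) (hτ : 0 < τ)
    (hε : ε ≤ τ ^ 3 / 100) {B : Finset (Finset α)} (hB : B ⊆ C.L)
    (hb : ∀ l ∈ B, τ ^ 6 ≤ 2 * C.Dl l) : (B.card : ℝ) ≤ 2 * C.n ^ 2 / 10 ^ 4 := by
  have h1 : (B.card : ℝ) * (τ ^ 6 / 2) ≤ ∑ l ∈ B, C.Dl l := by
    have := Finset.card_nsmul_le_sum B (fun l => C.Dl l) (τ ^ 6 / 2)
      (fun l hl => by have := hb l hl; linarith only [this])
    rwa [nsmul_eq_mul] at this
  have h2 : ∑ l ∈ B, C.Dl l ≤ ∑ l ∈ C.L, C.Dl l :=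
    Finset.sum_le_sum_of_subset_of_nonneg hB (fun l hl _ => C.Dl_nonneg hl)
  have h3 := hT.sq
  have he := hT.eps_pos
  have h4 : ε ^ 2 ≤ (τ ^ 3 / 100) ^ 2 := pow_le_pow_left₀ he.le hε 2
  have h5 : ε ^ 2 * C.n ^ 2 ≤ (τ ^ 3 / 100) ^ 2 * C.n ^ 2 :=
    mul_le_mul_of_nonneg_right h4 (by positivity)
  have h6 : 0 < τ ^ 6 / 2 := by positivity
  apply le_of_mul_le_mul_right _ h6
  calc _ ≤ (τ ^ 3 / 100) ^ 2 * C.n ^ 2 := by linarith only [h1, h2, h3, h5]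
    _ = _ := by ring

theorem many_pairs (C : Conf α) {ε τ : ℝ} (hT : C.Tight ε) (hτ : 0 < τ) (hτ1 : τ ≤ 1)
    (hε : ε ≤ τ ^ 3 / 100) : C.n ^ 2 / 100 ≤ ((GP C τ).card : ℝ) := by
  classical
  have hε1 : ε ≤ 1 / 100 := by
    have : τ ^ 3 ≤ 1 := pow_le_one₀ hτ.le hτ1
    linarith only [hε, this]
  set Sh := C.L.filter (fun l => l.card ≤ 4) with hSh
  have h1 := many_short_T1a C hT
  rw [← hSh] at h1
  have h2 := few_bad_T1a C hT hτ hε (B := Sh.filter (fun l => ¬ 2 * C.Dl l ≤ τ ^ 6))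
    ((Finset.filter_subset _ _).trans (Finset.filter_subset _ _))
    (fun l hl => (not_le.1 (Finset.mem_filter.1 hl).2).le)
  have h3 : ((Sh.filter (fun l => 2 * C.Dl l ≤ τ ^ 6)).card : ℝ)
      + ((Sh.filter (fun l => ¬ 2 * C.Dl l ≤ τ ^ 6)).card : ℝ) = Sh.card := by
    rw [← Nat.cast_add, Finset.card_filter_add_card_filter_not]
  set G := Sh.filter (fun l => 2 * C.Dl l ≤ τ ^ 6) with hG
  have hGL : ∀ l ∈ G, l ∈ C.L := fun l hl =>
    (Finset.mem_filter.1 (Finset.mem_filter.1 hl).1).1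
  have h4 : ∀ l ∈ G, ∃ x : α × α, x.1 ∈ l ∧ x.2 ∈ l ∧ x.1 ≠ x.2 ∧ x ∈ GP C τ := by
    intro l hl
    obtain ⟨hl1, hl2⟩ := Finset.mem_filter.1 hl
    obtain ⟨hl3, hl4⟩ := Finset.mem_filter.1 hl1
    obtain ⟨p, hp, q, hq, hpq, h⟩ := small_line C hl3 hl4 hτ hτ1 hl2
    refine ⟨(p, q), hp, hq, hpq, ?_⟩
    unfold GP
    rw [Finset.mem_filter, Finset.mem_product]
    exact ⟨⟨C.sub l hl3 hp, C.sub l hl3 hq⟩, h⟩
  have h5 : G.card ≤ (GP C τ).card := by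
    rcases G.eq_empty_or_nonempty with h0 | ⟨l0, hl0⟩
    · rw [h0]; simp
    obtain ⟨x0, -⟩ := h4 l0 hl0
    have : Nonempty (α × α) := ⟨x0⟩
    choose! g hg using h4
    apply Finset.card_le_card_of_injOn g
    · intro l hl
      exact (hg l hl).2.2.2
    · intro l hl l' hl' e
      obtain ⟨a1, a2, a3, _⟩ := hg l hl
      obtain ⟨b1, b2, _, _⟩ := hg l' hl'
      rw [← e] at b1 b2
      exact C.uniq (hGL l hl) (hGL l' hl') a3 a1 a2 b1 b2
  have h6 : (G.card : ℝ) ≤ (GP C τ).card := by exact_mod_cast h5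
  have h7 : 0 ≤ C.n ^ 2 := by positivity
  clear * - α C τ ε Sh G h1 h2 h3 h6 hε1
  linarith only [h1, h2, h3, h6, hε1, mul_nonneg_of_nonpos_of_nonpos (Mathlib.Tactic.Linarith.sub_nonpos_of_le (sq_nonneg ((1 : ℝ) * C.n))) (Mathlib.Tactic.Linarith.sub_nonpos_of_le hε1)]

end Pool.Agent.Work.MP_d88d93_co
end

-- merged part: Pool.Agent.Work.MP_d88d93_co.T1b
section
/-! Many pairs at special angles force a cluster. -/

namespace Pool.Agent.Work.MP_d88d93_co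

open Finset

variable {α : Type} [DecidableEq α]

/-- Two unit vectors with close inner products against two transversal unit vectors, on the same
side of their plane, are close. -/
theorem close_t1b {p p' q q0 : V3} (hp : dot p p = 1) (hp' : dot p' p' = 1) (hq : dot q q = 1)
    (hq0 : dot q0 q0 = 1) {ρ τ : ℝ} (hρ : 0 < ρ) (hτ : 0 < τ) (hτ1 : τ ≤ 1)
    (hτρ : τ ≤ ρ ^ 2 / 32) (hs : ρ < 1 - dot p p' ^ 2)
    (hx : |dot p q - dot p q0| ≤ 2 * τ) (hz : |dot p' q - dot p' q0| ≤ 2 * τ)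
    (hD : 0 ≤ det3 p p' q * det3 p p' q0) : 1 - dot q0 q ^ 2 ≤ ρ := by
  have g1 := gram p p' q q
  have g2 := gram p p' q0 q0
  have g3 := gram p p' q0 q
  rw [hp, hp', hq] at g1
  rw [hp, hp', hq0] at g2
  rw [hp, hp'] at g3
  have a1 := abs_dot_le_one hp hq
  have a2 := abs_dot_le_one hp hq0
  have a3 := abs_dot_le_one hp' hq
  have a4 := abs_dot_le_one hp' hq0
  have a5 := abs_dot_le_one hp hp'
  have a6 := abs_dot_le_one hq0 hq
  generalize dot p q = x at *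
  generalize dot p q0 = x0 at *
  generalize dot p' q = z at *
  generalize dot p' q0 = z0 at *
  generalize dot p p' = s at *
  generalize dot q0 q = c at *
  generalize det3 p p' q = D at *
  generalize det3 p p' q0 = D0 at *
  have e1 : (1 - s ^ 2) * (2 - 2 * c) =
      (x - x0) ^ 2 + (z - z0) ^ 2 - 2 * (s * ((x - x0) * (z - z0))) + (D - D0) ^ 2 := by
    linarith only [g1, g2, g3]
  have e2 : D ^ 2 - D0 ^ 2 = -((x - x0) * (x + x0)) - (z - z0) * (z + z0)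
      + 2 * (s * ((x - x0) * z)) + 2 * (s * (x0 * (z - z0))) := by
    linarith only [g1, g2]
  have b1 : (x - x0) ^ 2 ≤ (2 * τ) ^ 2 := sq_le_sq' (abs_le.1 hx).1 (abs_le.1 hx).2
  have b2 : (z - z0) ^ 2 ≤ (2 * τ) ^ 2 := sq_le_sq' (abs_le.1 hz).1 (abs_le.1 hz).2
  have b3 : |s * ((x - x0) * (z - z0))| ≤ 1 * (2 * τ * (2 * τ)) := by
    clear * - s x x0 z z0 τ a5 hx hz hτ
    rw [abs_mul, abs_mul]; gcongr
  have c1 : |(x - x0) * (x + x0)| ≤ 2 * τ * 2 := by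
    clear * - x x0 a1 a2 τ hx hτ
    have : |x + x0| ≤ 2 := (abs_add_le _ _).trans (by linarith)
    rw [abs_mul]; gcongr
  have c2 : |(z - z0) * (z + z0)| ≤ 2 * τ * 2 := by
    clear * - z z0 a3 a4 τ hz hτ
    have : |z + z0| ≤ 2 := (abs_add_le _ _).trans (by linarith)
    rw [abs_mul]; gcongr
  have c3 : |s * ((x - x0) * z)| ≤ 1 * (2 * τ * 1) := by
    clear * - s x x0 z τ a5 hx a3 hτ
    rw [abs_mul, abs_mul]; gcongr
  have c4 : |s * (x0 * (z - z0))| ≤ 1 * (1 * (2 * τ)) := by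
    clear * - s x0 z z0 τ a5 a2 hz
    rw [abs_mul, abs_mul]; gcongr
  have d1 : (D - D0) ^ 2 ≤ 16 * τ := by
    clear * - D0 D τ hD s x z x0 z0 g1 g2 c1 c2 c3 c4
    rw [abs_le] at c1 c2 c3 c4
    rcases le_total (D0 ^ 2) (D ^ 2) with h | h
    · have h1 : D0 ^ 2 ≤ D * D0 := by
        apply (abs_le_of_sq_le_sq' _ hD).2
        linarith only [h, mul_le_mul_of_nonneg_right h (sq_nonneg D0), sq_nonneg D0]
      linarith only [g1, g2, c1, c2, c3, c4, h1, c1.1, c2.1, c3.2, c4.2]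
    · have h1 : D ^ 2 ≤ D * D0 := by
        apply (abs_le_of_sq_le_sq' _ hD).2
        linarith only [h, mul_le_mul_of_nonneg_right h (sq_nonneg D), sq_nonneg D]
      linarith only [g1, g2, c1, c2, c3, c4, h1, c1.2, c2.2, c3.1, c4.1]
  have d2 : (1 - s ^ 2) * (2 - 2 * c) ≤ ρ ^ 2 := by
    clear * - τ s x x0 z z0 b3 c ρ D D0 hτρ g1 g2 g3 b1 b2 d1 hτ hτ1
    have := (abs_le.1 b3).1
    linarith only [hτρ, g1, g2, g3, b1, b2, d1, this, hτ, hτ1, mul_nonneg_of_nonpos_of_nonpos (le_of_lt (Mathlib.Tactic.Linarith.sub_neg_of_lt hτ)) (Mathlib.Tactic.Linarith.sub_nonpos_of_le hτ1)]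
  have d3 : 0 ≤ 2 - 2 * c := by linarith only [a6, (abs_le.1 a6).2]
  have d4 : ρ * (2 - 2 * c) ≤ ρ * ρ := by clear * - ρ c s d2 hs d3; linarith only [d2, hs, d3, mul_nonneg_of_nonpos_of_nonpos (le_of_lt (Mathlib.Tactic.Linarith.sub_neg_of_lt hs)) (Mathlib.Tactic.Linarith.sub_nonpos_of_le d3)]
  have d5 := le_of_mul_le_mul_left d4 hρ
  clear * - c ρ d5
  nlinarith [sq_nonneg (1 - c)]

/-- The special value close to `x`. -/
noncomputable def cl_t1b (τ x : ℝ) : Fin 3 :=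
  if |x| ≤ τ then 0 else if |x - 1 / 2| ≤ τ then 1 else 2

theorem cl_eq_t1b {τ x y : ℝ} (hx : |x| ≤ τ ∨ |x - 1 / 2| ≤ τ ∨ |x + 1 / 2| ≤ τ)
    (hy : |y| ≤ τ ∨ |y - 1 / 2| ≤ τ ∨ |y + 1 / 2| ≤ τ) (h : cl_t1b τ x = cl_t1b τ y) :
    |x - y| ≤ 2 * τ := by
  unfold cl_t1b at h
  split_ifs at h with h1 h2 h3 h4 h5 h6 h7 h8
  · rw [abs_le] at h1 h2 ⊢; constructor <;> linarith only [h1, h2, h1.1, h1.2, h2.1, h2.2]
  · exact absurd h (by decide)
  · exact absurd h (by decide)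
  · exact absurd h (by decide)
  · rw [abs_le] at h4 h6 ⊢; constructor <;> linarith only [h4, h6, h4.1, h4.2, h6.1, h6.2]
  · exact absurd h (by decide)
  · exact absurd h (by decide)
  · exact absurd h (by decide)
  · have k1 := (hx.resolve_left h1).resolve_left h4
    have k2 := (hy.resolve_left h7).resolve_left h8
    rw [abs_le] at k1 k2 ⊢; constructor <;> linarith only [k1, k2, k1.1, k1.2, k2.1, k2.2]

omit [DecidableEq α] in
theorem mem_GP_t1b {C : Conf α} {τ : ℝ} {p q : α} : (p, q) ∈ GP C τ ↔ (p ∈ C.S ∧ q ∈ C.S) ∧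
    (|C.s p q| ≤ τ ∨ |C.s p q - 1 / 2| ≤ τ ∨ |C.s p q + 1 / 2| ≤ τ) := by
  rw [GP, mem_filter, mem_product]

theorem codeg_t1b (C : Conf α) {ρ τ : ℝ} (hρ : 0 < ρ) (hτ : 0 < τ) (hτ1 : τ ≤ 1)
    (hτρ : τ ≤ ρ ^ 2 / 32) (hn : 0 < C.n)
    (hcon : ∀ a : V3, dot a a = 1 → ((C.near a ρ).card : ℝ) < C.n / 10 ^ 6) {p p' : α}
    (hp : p ∈ C.S) (hp' : p' ∈ C.S) (hs : ρ < 1 - dot (C.u p) (C.u p') ^ 2) :
    ((C.S.filter fun q => (p, q) ∈ GP C τ ∧ (p', q) ∈ GP C τ).card : ℝ) ≤ 18 * (C.n / 10 ^ 6) := by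
  classical
  let f : α → Fin 3 × Fin 3 × Bool := fun q => (cl_t1b τ (C.s p q), cl_t1b τ (C.s p' q),
    decide (0 ≤ det3 (C.u p) (C.u p') (C.u q)))
  rw [card_eq_sum_card_fiberwise (f := f) (t := univ) (fun _ _ => mem_univ _), Nat.cast_sum]
  refine (sum_le_card_nsmul _ _ (C.n / 10 ^ 6) fun k _ => ?_).trans_eq (by simp)
  rcases ((C.S.filter fun q => (p, q) ∈ GP C τ ∧ (p', q) ∈ GP C τ).filter
    fun q => f q = k).eq_empty_or_nonempty with h | ⟨q0, h0⟩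
  · rw [h, card_empty, Nat.cast_zero]; positivity
  simp only [mem_filter] at h0
  refine le_trans (Nat.cast_le.2 (card_le_card fun q hq => ?_))
    (hcon (C.u q0) (C.unit q0 h0.1.1)).le
  simp only [mem_filter] at hq
  have e : f q = f q0 := hq.2.trans h0.2.symm
  simp only [f, Prod.mk.injEq, decide_eq_decide] at e
  refine C.mem_near.2 ⟨hq.1.1, close_t1b (C.unit p hp) (C.unit p' hp') (C.unit q hq.1.1)
    (C.unit q0 h0.1.1) hρ hτ hτ1 hτρ hs
    (cl_eq_t1b (mem_GP_t1b.1 hq.1.2.1).2 (mem_GP_t1b.1 h0.1.2.1).2 e.1)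
    (cl_eq_t1b (mem_GP_t1b.1 hq.1.2.2).2 (mem_GP_t1b.1 h0.1.2.2).2 e.2.1) ?_⟩
  by_cases h1 : 0 ≤ det3 (C.u p) (C.u p') (C.u q)
  · exact mul_nonneg h1 (e.2.2.1 h1)
  · exact mul_nonneg_of_nonpos_of_nonpos (not_le.1 h1).le (not_le.1 fun h2 => h1 (e.2.2.2 h2)).le

theorem cluster_of_pairs (C : Conf α) {ρ τ : ℝ} (hρ : 0 < ρ) (hτ : 0 < τ) (hτ1 : τ ≤ 1)
    (hτρ : τ ≤ ρ ^ 2 / 32) (hn : 0 < C.n) (h : C.n ^ 2 / 100 ≤ ((GP C τ).card : ℝ)) :
    ∃ a : V3, dot a a = 1 ∧ C.n / 10 ^ 6 ≤ ((C.near a ρ).card : ℝ) := by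
  by_contra hc
  have hcon : ∀ a : V3, dot a a = 1 → ((C.near a ρ).card : ℝ) < C.n / 10 ^ 6 :=
    fun a ha => not_le.1 fun h => hc ⟨a, ha, h⟩
  let g : α → α → ℝ := fun p q => if (p, q) ∈ GP C τ then 1 else 0
  have e1 : ((GP C τ).card : ℝ) = ∑ q ∈ C.S, ∑ p ∈ C.S, g p q := by
    rw [sum_comm, ← sum_product', sum_boole]
    congr 2
    ext x
    rw [mem_filter]
    exact ⟨fun h => ⟨(mem_filter.1 h).1, h⟩, fun h => h.2⟩
  have e2 : ∑ q ∈ C.S, (∑ p ∈ C.S, g p q) ^ 2 = ∑ p ∈ C.S, ∑ p' ∈ C.S,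
      ((C.S.filter fun q => (p, q) ∈ GP C τ ∧ (p', q) ∈ GP C τ).card : ℝ) := by
    simp only [sq, sum_mul_sum]
    rw [sum_comm]
    refine sum_congr rfl fun p _ => ?_
    rw [sum_comm]
    refine sum_congr rfl fun p' _ => ?_
    rw [← sum_boole]
    refine sum_congr rfl fun q _ => ?_
    simp only [g]
    by_cases h1 : (p, q) ∈ GP C τ <;> by_cases h2 : (p', q) ∈ GP C τ <;> simp [h1, h2]
  have e3 : ∀ p ∈ C.S, ∑ p' ∈ C.S,
      ((C.S.filter fun q => (p, q) ∈ GP C τ ∧ (p', q) ∈ GP C τ).card : ℝ) ≤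
        19 * C.n ^ 2 / 10 ^ 6 := by
    clear * - α C τ ρ hn hρ hτ hτ1 hτρ hcon
    intro p hp
    have k1 : ∀ p' ∈ C.S, ((C.S.filter fun q => (p, q) ∈ GP C τ ∧ (p', q) ∈ GP C τ).card : ℝ) ≤
        C.n * (if 1 - dot (C.u p) (C.u p') ^ 2 ≤ ρ then 1 else 0) + 18 * (C.n / 10 ^ 6) := by
      intro p' hp'
      split_ifs with h1
      · have := C.card_le_n (filter_subset (fun q => (p, q) ∈ GP C τ ∧ (p', q) ∈ GP C τ) C.S)
        have h2 : 0 ≤ 18 * (C.n / 10 ^ 6) := by positivity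
        linarith only [hn, this]
      · have := codeg_t1b C hρ hτ hτ1 hτρ hn hcon hp hp' (not_le.1 h1)
        linarith only [this]
    refine (sum_le_sum k1).trans ?_
    rw [sum_add_distrib, ← mul_sum, sum_boole, sum_const, nsmul_eq_mul]
    have k2 := mul_le_mul_of_nonneg_left (hcon (C.u p) (C.unit p hp)).le hn.le
    change C.n * ((C.near (C.u p) ρ).card : ℝ) + C.n * (18 * (C.n / 10 ^ 6)) ≤ _
    linarith only [k2]
  have e4 := sq_sum_le_card_mul_sum_sq (s := C.S) (f := fun q => ∑ p ∈ C.S, g p q)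
  have e5 := sum_le_card_nsmul _ _ _ e3
  rw [nsmul_eq_mul, ← e2] at e5
  rw [← e1] at e4
  have e6 : (C.n ^ 2 / 100) ^ 2 ≤ ((GP C τ).card : ℝ) ^ 2 := by gcongr
  have e7 : (C.n ^ 2 / 100) ^ 2 ≤ C.n * (C.n * (19 * C.n ^ 2 / 10 ^ 6)) :=
    e6.trans (e4.trans (mul_le_mul_of_nonneg_left e5 hn.le))
  have e8 : 0 < C.n ^ 4 := by positivity
  clear * - α C e7 e8
  linarith only [e7, e8]

theorem T1 {ρ : ℝ} (hρ : 0 < ρ) : ∃ ε : ℝ, 0 < ε ∧ ∀ C : Conf α, C.Tight ε →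
    ∃ a : V3, dot a a = 1 ∧ C.n / 10 ^ 6 ≤ ((C.near a ρ).card : ℝ) := by
  have hτ : 0 < min 1 (ρ ^ 2 / 32) := lt_min one_pos (by positivity)
  refine ⟨(min 1 (ρ ^ 2 / 32)) ^ 3 / 100, by positivity, fun C hT => ?_⟩
  exact cluster_of_pairs C hρ hτ (min_le_left _ _) (min_le_right _ _) hT.n_pos
    (many_pairs C hT hτ (min_le_left _ _) le_rfl)

end Pool.Agent.Work.MP_d88d93_co
end

-- merged part: Pool.Agent.Work.MP_d88d93_co.T3c
section
/-! There is a direction with few middle points. -/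

namespace Pool.Agent.Work.MP_d88d93_co

open Finset

variable {α : Type} [DecidableEq α]

theorem mid_small {m0 γ z0 : ℝ} (hm : 0 < m0) (hm1 : m0 ≤ 1) (hγ : 0 < γ) (hγ1 : γ ≤ 1 / 100)
    (hz0 : 0 < z0) (hz1 : z0 ≤ 1 / 100) :
    ∃ ρ : ℝ, 0 < ρ ∧ ρ ≤ γ ∧ ∃ ε : ℝ, 0 < ε ∧ ∀ C : Conf α, C.Tight ε →
      ∀ a : V3, dot a a = 1 → m0 * C.n ≤ ((C.near a ρ).card : ℝ) →
      ((C.near a γ \ C.near a ρ).card : ℝ) ≤ z0 * C.n →
      ((C.mid a γ).card : ℝ) ≤ z0 * C.n := by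
  obtain ⟨ρ, hρ, hργ, ε0, hε0, H⟩ := T3 (α := α) (θ := min (m0 / 4) (1 / 100)) hm hm1 hγ
    (by linarith only [hγ, hγ1]) hz0 (lt_min (by linarith only [hm]) (by norm_num))
  refine ⟨ρ, hρ, hργ, min ε0 (min (1 / 100) (m0 / 4)),
    lt_min hε0 (lt_min (by norm_num) (by linarith only [hm])), fun C hT a ha hU hN => ?_⟩
  have hT0 : C.Tight ε0 := hT.mono (min_le_left _ _)
  have hT1 : C.Tight (1 / 100) := hT.mono ((min_le_right _ _).trans (min_le_left _ _))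
  have hT2 : C.Tight (m0 / 4) := hT.mono ((min_le_right _ _).trans (min_le_right _ _))
  have hn := hT.n_pos
  have hθ1 : min (m0 / 4) (1 / 100) * C.n ≤ m0 / 4 * C.n :=
    mul_le_mul_of_nonneg_right (min_le_left _ _) hn.le
  have hθ2 : min (m0 / 4) (1 / 100) * C.n ≤ 1 / 100 * C.n :=
    mul_le_mul_of_nonneg_right (min_le_right _ _) hn.le
  by_contra hcon
  push Not at hcon
  obtain ⟨g, hg, hUg, -⟩ := H C hT0 a ha hU (C.mid a γ) (Finset.Subset.refl _) hcon.le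
  have hmg : ((C.mid a γ \ g).card : ℝ) ≤ z0 * C.n := by
    clear * - α C a γ g z0 ρ m0 H hT0 ha hU hg hT2 hγ hγ1 hθ1 hUg
    by_contra h2
    push Not at h2
    obtain ⟨g', hg', hUg', r, hr, hrg⟩ :=
      H C hT0 a ha hU (C.mid a γ \ g) Finset.sdiff_subset h2.le
    have hne : g ≠ g' := by
      intro e
      rw [← e] at hrg
      exact (Finset.mem_sdiff.1 hr).2 hrg
    have h3 := C.inter_le_one hg hg' hne
    have h4 : C.near a ρ ⊆ (g ∩ g') ∪ ((C.near a ρ \ g) ∪ (C.near a ρ \ g')) := by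
      intro p hp
      simp only [Finset.mem_union, Finset.mem_inter, Finset.mem_sdiff]
      tauto
    have h5 : (C.near a ρ).card ≤
        (g ∩ g').card + ((C.near a ρ \ g).card + (C.near a ρ \ g').card) :=
      (Finset.card_le_card h4).trans ((Finset.card_union_le _ _).trans
        (Nat.add_le_add_left (Finset.card_union_le _ _) _))
    have h6 : ((C.near a ρ).card : ℝ) ≤
        (g ∩ g').card + ((C.near a ρ \ g).card + (C.near a ρ \ g').card) := by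
      exact_mod_cast h5
    have h7 : ((g ∩ g').card : ℝ) ≤ 1 := by exact_mod_cast h3
    have h8 := hT2.big
    linarith only [hγ, hγ1, hU, hθ1, hUg, hUg', h6, h7, h8]
  set B : Finset α := ((C.near a ρ \ g) ∪ (C.near a γ \ C.near a ρ)) ∪ (C.mid a γ \ g) with hB
  have hBc : (B.card : ℝ) ≤ (C.near a ρ \ g).card + (C.near a γ \ C.near a ρ).card
      + (C.mid a γ \ g).card := by
    have : B.card ≤ (C.near a ρ \ g).card + (C.near a γ \ C.near a ρ).card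
        + (C.mid a γ \ g).card :=
      (Finset.card_union_le _ _).trans (Nat.add_le_add_right (Finset.card_union_le _ _) _)
    exact_mod_cast this
  have hpt : ∀ p ∈ C.S \ g, dot a (C.u p) ^ 2 ≤ γ + if p ∈ B then 1 else 0 := by
    intro p hp
    obtain ⟨hpS, hpg⟩ := Finset.mem_sdiff.1 hp
    have h1 : dot a (C.u p) ^ 2 ≤ 1 := dot_sq_le_one ha (C.unit p hpS)
    by_cases hpB : p ∈ B
    · rw [if_pos hpB]
      linarith only [hγ, h1]
    · rw [if_neg hpB, add_zero]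
      by_contra h2
      push Not at h2
      apply hpB
      simp only [hB, Finset.mem_union, Finset.mem_sdiff]
      by_cases h3 : γ ≤ 1 - dot a (C.u p) ^ 2
      · exact Or.inr ⟨C.mem_mid.2 ⟨hpS, h2.le, h3⟩, hpg⟩
      · push Not at h3
        left
        by_cases h4 : p ∈ C.near a ρ
        · exact Or.inl ⟨h4, hpg⟩
        · exact Or.inr ⟨C.mem_near.2 ⟨hpS, h3.le⟩, h4⟩
  have hs1 : ∑ p ∈ C.S \ g, dot a (C.u p) ^ 2 ≤ γ * C.n + B.card := by
    clear * - α C g a γ B hpt hγ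
    refine (Finset.sum_le_sum hpt).trans ?_
    rw [Finset.sum_add_distrib, Finset.sum_const, nsmul_eq_mul, Finset.sum_boole]
    have h1 : ((C.S \ g).card : ℝ) ≤ C.n := C.card_le_n Finset.sdiff_subset
    have h2 : ((C.S \ g).filter (fun p => p ∈ B)).card ≤ B.card :=
      Finset.card_le_card (fun p hp => (Finset.mem_filter.1 hp).2)
    have h3 : ((((C.S \ g).filter (fun p => p ∈ B)).card : ℕ) : ℝ) ≤ B.card := by
      exact_mod_cast h2
    linarith only [h3, hγ, h1, mul_nonneg_of_nonpos_of_nonpos (le_of_lt (Mathlib.Tactic.Linarith.sub_neg_of_lt hγ)) (Mathlib.Tactic.Linarith.sub_nonpos_of_le h1)]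
  have hs2 := C.L3 hg ha
  have hs3 := C.dl_le hT1 hg
  have hs4 := hT1.line g hg
  have hs5 := (abs_le.1 (hT1.iso a ha)).1
  have hs6 := Finset.sum_sdiff (f := fun p => dot a (C.u p) ^ 2) (C.sub g hg)
  have hs7 : γ * C.n ≤ 1 / 100 * C.n := mul_le_mul_of_nonneg_right hγ1 hn.le
  have hs8 : z0 * C.n ≤ 1 / 100 * C.n := mul_le_mul_of_nonneg_right hz1 hn.le
  linarith only [hN, hn, hθ2, hUg, hmg, hBc, hs1, hs2, hs3, hs4, hs5, hs6, hs7, hs8]

theorem cluster {γ0 z0 : ℝ} (hγ : 0 < γ0) (hγ1 : γ0 ≤ 1 / 100) (hz0 : 0 < z0)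
    (hz1 : z0 ≤ 1 / 100) :
    ∃ ε : ℝ, 0 < ε ∧ ∀ C : Conf α, C.Tight ε →
      ∃ a : V3, dot a a = 1 ∧ ∃ γ : ℝ, 0 < γ ∧ γ ≤ γ0 ∧ ((C.mid a γ).card : ℝ) ≤ z0 * C.n := by
  have H : ∀ γ : ℝ, 0 < γ → γ ≤ 1 / 100 →
      ∃ ρ : ℝ, 0 < ρ ∧ ρ ≤ γ ∧ ∃ ε : ℝ, 0 < ε ∧ ∀ C : Conf α, C.Tight ε →
      ∀ a : V3, dot a a = 1 → 1 / 10 ^ 6 * C.n ≤ ((C.near a ρ).card : ℝ) →
      ((C.near a γ \ C.near a ρ).card : ℝ) ≤ z0 * C.n →
      ((C.mid a γ).card : ℝ) ≤ z0 * C.n := fun γ h1 h2 =>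
    mid_small (by norm_num) (by norm_num) h1 h2 hz0 hz1
  choose! rf hr0 hr1 ef he0 hef using H
  let gam : ℕ → ℝ := fun k => rf^[k] γ0
  have hg0 : gam 0 = γ0 := rfl
  have hgs : ∀ k, gam (k + 1) = rf (gam k) := fun k => Function.iterate_succ_apply' rf k γ0
  have hgb : ∀ k, 0 < gam k ∧ gam k ≤ γ0 := by
    intro k
    induction k with
    | zero => exact ⟨hγ, le_rfl⟩
    | succ k ih =>
      rw [hgs]
      exact ⟨hr0 _ ih.1 (ih.2.trans hγ1), (hr1 _ ih.1 (ih.2.trans hγ1)).trans ih.2⟩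
  have hanti : Antitone gam := antitone_nat_of_succ_le (fun k => by
    rw [hgs]
    exact hr1 _ (hgb k).1 ((hgb k).2.trans hγ1))
  have hlow : ∀ J : ℕ, ∃ e : ℝ, 0 < e ∧ ∀ k < J, e ≤ ef (gam k) := by
    intro J
    induction J with
    | zero => exact ⟨1, one_pos, fun k hk => absurd hk (Nat.not_lt_zero k)⟩
    | succ J ih =>
      obtain ⟨e, he, h⟩ := ih
      refine ⟨min e (ef (gam J)), lt_min he (he0 _ (hgb J).1 ((hgb J).2.trans hγ1)), ?_⟩
      intro k hk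
      rcases Nat.lt_succ_iff_lt_or_eq.1 hk with h1 | h1
      · exact (min_le_left _ _).trans (h k h1)
      · rw [h1]
        exact min_le_right _ _
  set J : ℕ := ⌈1 / z0⌉₊ with hJ
  have hJ0 : 0 < J := Nat.ceil_pos.2 (by positivity)
  have hJ1 : 1 ≤ (J : ℝ) * z0 := by
    have := Nat.le_ceil (1 / z0)
    rw [div_le_iff₀ hz0] at this
    exact this
  obtain ⟨e, he, hle⟩ := hlow J
  obtain ⟨e1, he1, h1⟩ := T1 (α := α) (hgb J).1
  refine ⟨min e e1, lt_min he he1, fun C hT => ?_⟩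
  have hn := hT.n_pos
  obtain ⟨a, ha, hU⟩ := h1 C (hT.mono (min_le_right _ _))
  have hmono : ∀ r r' : ℝ, r ≤ r' → C.near a r ⊆ C.near a r' := by
    intro r r' h p hp
    rw [C.mem_near] at hp ⊢
    exact ⟨hp.1, hp.2.trans h⟩
  obtain ⟨k, hk, hkc⟩ := chain_pigeon (fun k => C.near a (gam k))
    (fun j => hmono _ _ (hanti (Nat.le_succ j))) J hJ0
  refine ⟨a, ha, gam k, (hgb k).1, (hgb k).2, ?_⟩
  apply hef (gam k) (hgb k).1 ((hgb k).2.trans hγ1) C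
    (hT.mono ((min_le_left _ _).trans (hle k hk))) a ha
  · rw [← hgs]
    have h2 : (C.near a (gam J)).card ≤ (C.near a (gam (k + 1))).card :=
      Finset.card_le_card (hmono _ _ (hanti hk))
    have h3 : ((C.near a (gam J)).card : ℝ) ≤ (C.near a (gam (k + 1))).card := by
      exact_mod_cast h2
    linarith only [hU, h3]
  · rw [← hgs]
    have h2 : ((C.near a (gam 0)).card : ℝ) ≤ C.n :=
      C.card_le_n (fun p hp => (C.mem_near.1 hp).1)
    have h3 : (J : ℝ) * ((C.near a (gam k) \ C.near a (gam (k + 1))).card : ℝ) ≤ C.n :=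
      hkc.trans h2
    have h4 : (0 : ℝ) ≤ ((C.near a (gam k) \ C.near a (gam (k + 1))).card : ℝ) := by positivity
    clear * - α C a gam k z0 J γ0 hJ1 hγ hγ1 hz0 hkc h2
    (refine le_of_not_gt fun h_nl => ?_; linarith only [h_nl, hJ1, hγ, hγ1, hz0, hkc, h2, mul_nonneg_of_nonpos_of_nonpos (Mathlib.Tactic.Linarith.sub_nonpos_of_le (Mathlib.Tactic.Linarith.natCast_nonneg ℝ #(C.near a (gam k) \ C.near a (gam (k + (1 : ℕ)))))) (Mathlib.Tactic.Linarith.sub_nonpos_of_le hJ1), mul_pos_of_neg_of_neg (Mathlib.Tactic.Linarith.sub_neg_of_lt hγ) (Mathlib.Tactic.Linarith.sub_neg_of_lt h_nl), mul_nonneg_of_nonpos_of_nonpos (Mathlib.Tactic.Linarith.sub_nonpos_of_le hγ1) (le_of_lt (Mathlib.Tactic.Linarith.sub_neg_of_lt h_nl)), mul_nonneg_of_nonpos_of_nonpos (le_of_lt (Mathlib.Tactic.Linarith.sub_neg_of_lt hz0)) (Mathlib.Tactic.Linarith.sub_nonpos_of_le hkc), mul_nonneg_of_nonpos_of_nonpos (le_of_lt (Mathlib.Tactic.Linarith.sub_neg_of_lt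 hz0)) (Mathlib.Tactic.Linarith.sub_nonpos_of_le h2)])

end Pool.Agent.Work.MP_d88d93_co
end

-- merged part: Pool.Agent.Work.MP_d88d93_co.Main
section
/-! No configuration is almost tight. -/

namespace Pool.Agent.Work.MP_d88d93_co

open Finset

variable {α : Type} [DecidableEq α]

/-- A frame adapted to two almost orthogonal unit vectors. -/
theorem frame_mn {a b : V3} (ha : dot a a = 1) (hb : dot b b = 1) {κ : ℝ} (hκ : κ ≤ 1)
    (hab : dot a b ^ 2 ≤ κ / 20) :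
    ∃ e2 e3 : V3, Frame a e2 e3 ∧ ∀ q : V3, dot q q = 1 → dot a q ^ 2 ≤ κ / 20 →
      (1 - dot b q ^ 2 ≤ κ / 20 → 1 - dot e2 q ^ 2 ≤ κ) ∧
      (dot b q ^ 2 ≤ κ / 20 → 1 - dot e3 q ^ 2 ≤ κ) := by
  have h1 : dot (b - dot a b • a) (b - dot a b • a) = 1 - dot a b ^ 2 := by
    rw [dot_sub_left, dot_sub_right, dot_sub_right, dot_smul_left, dot_smul_right, dot_smul_left,
      dot_smul_right, ha, hb, dot_comm b a]
    ring
  obtain ⟨t, ht0, ht1, ht2⟩ := exists_unit (x := b - dot a b • a) (by rw [h1]; linarith only [hκ, hab])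
  rw [h1] at ht1
  have h2 : dot a (t • (b - dot a b • a)) = 0 := by
    rw [dot_smul_right, dot_sub_right, dot_smul_right, ha]; ring
  have hF := frame_cross ha ht2 h2
  refine ⟨_, _, hF, fun q hq hx => ⟨fun hs => ?_, fun hs => ?_⟩⟩
  · have h3 := tri hb ht2 hq
    have h4 : dot b (t • (b - dot a b • a)) = t * (1 - dot a b ^ 2) := by
      rw [dot_smul_right, dot_sub_right, dot_smul_right, hb, dot_comm b a]; ring
    have h5 : (t * (1 - dot a b ^ 2)) ^ 2 = 1 - dot a b ^ 2 := by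
      rw [mul_pow, sq (1 - dot a b ^ 2), ← mul_assoc, ht1, one_mul]
    rw [h4, h5] at h3
    clear * - t b a q κ hab hs h3
    linarith only [hab, hs, h3, sq_nonneg (dot a b), sq_nonneg (dot a b)]
  · have h3 := hF.sum_sq hq
    have h4 : dot (t • (b - dot a b • a)) q = t * (dot b q - dot a b * dot a q) := by
      rw [dot_smul_left, dot_sub_left, dot_smul_left]
    have h5 : t ^ 2 ≤ 2 := by clear * - t a b κ ht1 hκ hab; linarith only [ht1, hκ, hab, sq_nonneg t, mul_nonneg_of_nonpos_of_nonpos (Mathlib.Tactic.Linarith.sub_nonpos_of_le (sq_nonneg t)) (Mathlib.Tactic.Linarith.sub_nonpos_of_le hκ), mul_nonneg_of_nonpos_of_nonpos (Mathlib.Tactic.Linarith.sub_nonpos_of_le (sq_nonneg t)) (Mathlib.Tactic.Linarith.sub_nonpos_of_le hab)]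
    have h6 : (dot a b * dot a q) ^ 2 ≤ κ / 20 := by
      clear * - a b q κ hx hκ hab
      rw [mul_pow]
      linarith only [hx, hκ, hab, sq_nonneg (dot a b), sq_nonneg (dot a q), sq_nonneg (dot a q), mul_nonneg_of_nonpos_of_nonpos (Mathlib.Tactic.Linarith.sub_nonpos_of_le (sq_nonneg (dot a q))) (Mathlib.Tactic.Linarith.sub_nonpos_of_le hκ), mul_nonneg_of_nonpos_of_nonpos (Mathlib.Tactic.Linarith.sub_nonpos_of_le (sq_nonneg (dot a q))) (Mathlib.Tactic.Linarith.sub_nonpos_of_le hab)]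
    have h7 : (dot b q - dot a b * dot a q) ^ 2 ≤ 4 * (κ / 20) := by
      clear * - b q a κ hs h6
      linarith only [hs, h6, sq_nonneg (dot b q + dot a b * dot a q), sq_nonneg (dot b q + dot a b * dot a q)]
    have h8 : (t * (dot b q - dot a b * dot a q)) ^ 2 ≤ 2 * (4 * (κ / 20)) := by
      rw [mul_pow]
      exact mul_le_mul h5 h7 (sq_nonneg _) (by norm_num)
    rw [h4] at h3
    clear * - a t b q κ hx h3 h8
    linarith only [hx, h3, h8, sq_nonneg (dot a b), sq_nonneg ((1 : ℝ) * dot a q)]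

theorem not_tight : ∃ ε : ℝ, 0 < ε ∧ ∀ C : Conf α, ¬ C.Tight ε := by
  obtain ⟨κ, hκ⟩ : ∃ κ : ℝ, κ = 1 / 10 ^ 24 := ⟨_, rfl⟩
  have hκ0 : 0 < κ := by rw [hκ]; positivity
  have hκ1 : κ ≤ 1 / 100 := by rw [hκ]; norm_num
  obtain ⟨ω, hω, lam, hlam, hlam1, ε2, hε2, H2⟩ :=
    T2 (α := α) (c0 := κ ^ 2 / 100) (θ := 1 / 10) (by positivity) (by linarith only [hκ, hκ0, Mathlib.Tactic.Linarith.zero_mul_eq (sub_eq_zero_of_eq hκ) (sub_eq_zero_of_eq hκ)]) (by norm_num)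
  obtain ⟨ε3, hε3, H3⟩ := cluster (α := α) (γ0 := min (κ / 20) ((lam / 2) ^ 2))
    (z0 := min ω (κ / 4)) (lt_min (by positivity) (by positivity))
    ((min_le_left _ _).trans (by linarith only [hκ, hκ0])) (lt_min hω (by positivity))
    ((min_le_right _ _).trans (by linarith only [hκ, hκ0]))
  refine ⟨min (min ε2 ε3) (1 / 10 ^ 70), lt_min (lt_min hε2 hε3) (by positivity), fun C hT => ?_⟩
  have hT2 : C.Tight ε2 := hT.mono ((min_le_left _ _).trans (min_le_left _ _))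
  have hT3 : C.Tight ε3 := hT.mono ((min_le_left _ _).trans (min_le_right _ _))
  have hT4 : C.Tight (1 / 10 ^ 70) := hT.mono (min_le_right _ _)
  have hT5 : C.Tight (1 / 100) := hT4.mono (by norm_num)
  have hn := hT.n_pos
  obtain ⟨a, ha, γ, hγ0, hγ, hmid⟩ := H3 C hT3
  have hγ1 : γ ≤ κ / 20 := hγ.trans (min_le_left _ _)
  have hγ2 : γ ≤ (lam / 2) ^ 2 := hγ.trans (min_le_right _ _)
  have hmid1 : ((C.mid a γ).card : ℝ) ≤ ω * C.n :=
    hmid.trans (mul_le_mul_of_nonneg_right (min_le_left _ _) hn.le)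
  have hmid2 : ((C.mid a γ).card : ℝ) ≤ κ / 4 * C.n :=
    hmid.trans (mul_le_mul_of_nonneg_right (min_le_right _ _) hn.le)
  have hY : ∀ p, p ∈ C.strip a √γ ↔ p ∈ C.S ∧ dot a (C.u p) ^ 2 ≤ γ := by
    intro p
    rw [C.mem_strip, Real.le_sqrt (abs_nonneg _) hγ0.le, sq_abs]
  have hcov : ∀ p ∈ C.S, p ∈ C.near a γ ∨ p ∈ C.mid a γ ∨ p ∈ C.strip a √γ := by
    intro p hp
    rw [C.mem_near, C.mem_mid, hY]
    by_cases h1 : 1 - dot a (C.u p) ^ 2 ≤ γ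
    · exact Or.inl ⟨hp, h1⟩
    · by_cases h2 : dot a (C.u p) ^ 2 ≤ γ
      · exact Or.inr (Or.inr ⟨hp, h2⟩)
      · exact Or.inr (Or.inl ⟨hp, by linarith only [h2], by linarith only [h1]⟩)
  have hnear : ((C.near a γ).card : ℝ) ≤ 35 / 100 * C.n := by
    clear * - α C a hT5 ha γ κ hκ hγ0 hγ1 hn
    have h1 := (abs_le.1 (hT5.iso a ha)).2
    have h2 : ∑ p ∈ C.near a γ, (99 / 100 : ℝ) ≤ ∑ p ∈ C.near a γ, dot a (C.u p) ^ 2 :=
      Finset.sum_le_sum (fun p hp => by have := (C.mem_near.1 hp).2; linarith only [hκ, hγ0, hγ1, this])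
    have h3 : ∑ p ∈ C.near a γ, dot a (C.u p) ^ 2 ≤ ∑ p ∈ C.S, dot a (C.u p) ^ 2 :=
      Finset.sum_le_sum_of_subset_of_nonneg (fun p hp => (C.mem_near.1 hp).1)
        (fun _ _ _ => sq_nonneg _)
    rw [Finset.sum_const, nsmul_eq_mul] at h2
    linarith only [hn, h1, h2, h3]
  have hYc : 6 / 10 * C.n ≤ ((C.strip a √γ).card : ℝ) := by
    clear * - α C a γ hcov κ hn hmid2 hnear hκ
    have h1 : C.S ⊆ C.near a γ ∪ C.mid a γ ∪ C.strip a √γ := by
      intro p hp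
      rw [Finset.mem_union, Finset.mem_union, or_assoc]
      exact hcov p hp
    have h2 := (Finset.card_le_card h1).trans ((Finset.card_union_le _ _).trans
      (Nat.add_le_add_right (Finset.card_union_le _ _) _))
    have h3 : C.n ≤ ((C.near a γ).card : ℝ) + (C.mid a γ).card + (C.strip a √γ).card := by
      unfold Conf.n; exact_mod_cast h2
    linarith only [hn, hmid2, hnear, h3, hκ, Mathlib.Tactic.Linarith.zero_mul_eq (sub_eq_zero_of_eq hκ) (Mathlib.Tactic.Linarith.sub_neg_of_lt hn)]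
  by_cases hc : ∀ p ∈ C.strip a √γ,
      κ ^ 2 / 100 * C.n ≤ ∑ q ∈ C.strip a √γ, C.s p q ^ 2 * (1 - C.s p q ^ 2)
  · have hann : C.strip a (1 / 2) \ C.strip a √γ ⊆ C.mid a γ := by
      intro p hp
      rw [Finset.mem_sdiff, hY, C.mem_strip] at hp
      obtain ⟨⟨h1, h2⟩, h3⟩ := hp
      have h4 : γ < dot a (C.u p) ^ 2 := by
        by_contra h5
        exact h3 ⟨h1, not_lt.1 h5⟩
      have h5 : dot a (C.u p) ^ 2 ≤ (1 / 2) ^ 2 := sq_le_sq' (abs_le.1 h2).1 (abs_le.1 h2).2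
      exact C.mem_mid.2 ⟨h1, h4.le, by linarith only [hκ, hγ0, hγ1, h5]⟩
    obtain ⟨l, hl, hl2⟩ := H2 C hT2 a ha √γ (1 / 2) (Real.sqrt_pos.2 hγ0)
      (by rw [Real.sqrt_le_left (by positivity)]; linarith only [hγ2]) (by norm_num)
      (le_trans (by exact_mod_cast Finset.card_le_card hann) hmid1)
      (Finset.card_pos.1 (by
        have : (0 : ℝ) < (C.strip a √γ).card := by linarith only [hn, hYc]
        exact_mod_cast this)) hc
    have h1 := hT5.line l hl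
    have h2 : ((C.strip a √γ).card : ℝ) ≤ (C.strip a √γ \ l).card + l.card := by
      exact_mod_cast Finset.card_le_card_sdiff_add_card
    linarith only [hn, hYc, hl2, h1, h2]
  · push Not at hc
    obtain ⟨p, hp, hc⟩ := hc
    obtain ⟨hpS, hpx⟩ := (hY p).1 hp
    obtain ⟨e2, e3, hF, hE⟩ := frame_mn ha (C.unit p hpS) (κ := κ) (by linarith only [hκ, hγ0, hγ1]) (by linarith only [hγ1, hpx])
    apply T4 C hT4 hF
    rw [← hκ]
    set J := (C.strip a √γ).filter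
      (fun q => κ / 20 ≤ C.s p q ^ 2 ∧ κ / 20 ≤ 1 - C.s p q ^ 2) with hJ
    have hJc : (J.card : ℝ) ≤ κ / 2 * C.n := by
      clear * - α J κ C p a γ hκ hpS hY hn hc
      have h1 : ∑ _q ∈ J, κ / 40 ≤ ∑ q ∈ J, C.s p q ^ 2 * (1 - C.s p q ^ 2) := by
        apply Finset.sum_le_sum
        intro q hq
        obtain ⟨_, h2, h3⟩ := Finset.mem_filter.1 hq
        rcases le_total (C.s p q ^ 2) (1 / 2) with h4 | h4 <;> linarith only [h2, h4, hκ, h3, mul_nonneg_of_nonpos_of_nonpos (Mathlib.Tactic.Linarith.sub_nonpos_of_le (sq_nonneg ((1 : ℝ) * C.s p q))) (Mathlib.Tactic.Linarith.sub_nonpos_of_le h4), Mathlib.Tactic.Linarith.mul_zero_eq (Mathlib.Tactic.Linarith.sub_nonpos_of_le (sq_nonneg ((1 : ℝ) * C.s p q))) (sub_eq_zero_of_eq hκ), mul_nonneg_of_nonpos_of_nonpos (Mathlib.Tactic.Linarith.sub_nonpos_of_le (sq_nonneg ((1 : ℝ) * C.s p q))) (Mathlib.Tactic.Linarith.sub_nonpos_of_le h3)]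
      have h2 : ∑ q ∈ J, C.s p q ^ 2 * (1 - C.s p q ^ 2)
          ≤ ∑ q ∈ C.strip a √γ, C.s p q ^ 2 * (1 - C.s p q ^ 2) :=
        Finset.sum_le_sum_of_subset_of_nonneg (Finset.filter_subset _ _) (fun q hq _ =>
          mul_nonneg (sq_nonneg _) (sub_nonneg.2 (C.s_sq_le hpS ((hY q).1 hq).1)))
      rw [Finset.sum_const, nsmul_eq_mul] at h1
      have h3 : (J.card : ℝ) * (κ / 40) ≤ (κ / 2 * C.n) * (κ / 40) := by
        have : 0 ≤ κ ^ 2 * C.n := by positivity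
        linarith only [hc, h1, h2, this]
      exact le_of_mul_le_mul_right h3 (by positivity)
    have hsub : C.S \ (C.near a κ ∪ C.near e2 κ ∪ C.near e3 κ) ⊆ C.mid a γ ∪ J := by
      clear * - α C a κ e2 e3 γ J hcov hγ0 hγ1 p hE hY
      intro q hq
      rw [Finset.mem_sdiff, Finset.mem_union, Finset.mem_union, C.mem_near, C.mem_near,
        C.mem_near] at hq
      obtain ⟨hqS, hq⟩ := hq
      rcases hcov q hqS with h | h | h
      · exact absurd (Or.inl (Or.inl ⟨hqS, by linarith [(C.mem_near.1 h).2]⟩)) hq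
      · exact Finset.mem_union_left _ h
      · apply Finset.mem_union_right
        obtain ⟨h1, h2⟩ := hE (C.u q) (C.unit q hqS) (by linarith only [hγ1, hY, h, ((hY q).1 h).2])
        refine Finset.mem_filter.2 ⟨h, ?_, ?_⟩
        · by_contra h3
          exact hq (Or.inr ⟨hqS, h2 (not_le.1 h3).le⟩)
        · by_contra h3
          exact hq (Or.inl (Or.inr ⟨hqS, h1 (not_le.1 h3).le⟩))
    have h2 : ((C.S \ (C.near a κ ∪ C.near e2 κ ∪ C.near e3 κ)).card : ℝ)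
        ≤ (C.mid a γ).card + J.card := by
      exact_mod_cast (Finset.card_le_card hsub).trans (Finset.card_union_le _ _)
    have : 0 ≤ κ * C.n := by positivity
    linarith only [hmid2, hJc, h2]

end Pool.Agent.Work.MP_d88d93_co
end

-- merged part: Pool.Agent.Work.MP_d88d93_co.IsoA
section
/-! Lower bound for the potential of the isotropic position. -/

namespace Pool.Agent.Work.MP_d88d93_co

open Finset

variable {α : Type} [DecidableEq α]

theorem det3_mulVec_isoA (g : Matrix (Fin 3) (Fin 3) ℝ) (x y z : V3) :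
    det3 (g.mulVec x) (g.mulVec y) (g.mulVec z) = g.det * det3 x y z := by
  simp only [det3, Matrix.mulVec, dotProduct, Fin.sum_univ_three, Matrix.det_fin_three]
  ring

theorem exists_pos_isoA {β : Type} (T : Finset β) (f : β → ℝ) :
    ∃ μ : ℝ, 0 < μ ∧ ∀ x ∈ T, 0 < f x → μ ≤ f x := by
  classical
  induction T using Finset.induction_on with
  | empty => exact ⟨1, one_pos, by simp⟩
  | insert a T _ ih =>
    obtain ⟨μ, h0, h1⟩ := ih
    by_cases h : 0 < f a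
    · refine ⟨min μ (f a), lt_min h0 h, fun x hx h2 => ?_⟩
      rcases Finset.mem_insert.1 hx with rfl | hx
      · exact min_le_right _ _
      · exact (min_le_left _ _).trans (h1 x hx h2)
    · refine ⟨μ, h0, fun x hx h2 => ?_⟩
      rcases Finset.mem_insert.1 hx with rfl | hx
      · exact absurd h2 h
      · exact h1 x hx h2

theorem F_lower (C : Conf α) (hn : 3 ≤ C.S.card) (hl : ∀ l ∈ C.L, 3 * l.card ≤ 2 * C.S.card) :
    ∃ b : ℝ, ∀ g : Matrix (Fin 3) (Fin 3) ℝ, g.det ≠ 0 →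
      b ≤ ∑ p ∈ C.S, Real.log (dot (g.mulVec (C.u p)) (g.mulVec (C.u p)))
        - C.n / 3 * Real.log (g.det ^ 2) := by
  obtain ⟨μ, hμ, hμ'⟩ := exists_pos_isoA (C.S ×ˢ C.S ×ˢ C.S)
    (fun x => det3 (C.u x.1) (C.u x.2.1) (C.u x.2.2) ^ 2)
  refine ⟨C.n / 3 * Real.log μ, fun g hg => ?_⟩
  set a : α → ℝ := fun p => dot (g.mulVec (C.u p)) (g.mulVec (C.u p)) with ha
  have hpos : ∀ p ∈ C.S, 0 < a p := fun p hp => by
    refine lt_of_le_of_ne (dot_self_nonneg _) fun h => ?_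
    have h1 := Matrix.eq_zero_of_mulVec_eq_zero hg (eq_zero_of_dot_self h.symm)
    have h2 := C.unit p hp
    rw [h1, dot_zero_left] at h2
    exact zero_ne_one h2
  obtain ⟨p1, hp1, m1⟩ := Finset.exists_min_image C.S a (Finset.card_pos.1 (by omega))
  obtain ⟨p2, hp2, m2⟩ := Finset.exists_min_image (C.S.erase p1) a
    (Finset.card_pos.1 (by rw [Finset.card_erase_of_mem hp1]; omega))
  obtain ⟨hne, hp2S⟩ := Finset.mem_erase.1 hp2
  obtain ⟨l, hlL, h1l, h2l⟩ := C.cov p1 hp1 p2 hp2S (Ne.symm hne)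
  have hsub := C.sub l hlL
  have hcard := Finset.card_sdiff_add_card_eq_card hsub
  have hl' := hl l hlL
  obtain ⟨p3, hp3, m3⟩ := Finset.exists_min_image (C.S \ l) a (Finset.card_pos.1 (by omega))
  obtain ⟨hp3S, hp3l⟩ := Finset.mem_sdiff.1 hp3
  have hdet : det3 (C.u p1) (C.u p2) (C.u p3) ≠ 0 := fun h =>
    hp3l ((C.mem_iff_det hlL h1l h2l (Ne.symm hne) hp3S).2 h)
  have k1 : μ ≤ det3 (C.u p1) (C.u p2) (C.u p3) ^ 2 :=
    hμ' (p1, p2, p3) (by simp [hp1, hp2S, hp3S]) (by positivity)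
  have k2 := det3_sq_le (g.mulVec (C.u p1)) (g.mulVec (C.u p2)) (g.mulVec (C.u p3))
  rw [det3_mulVec_isoA, mul_pow] at k2
  have hg2 : 0 < g.det ^ 2 := by positivity
  have a1 := hpos p1 hp1
  have a2 := hpos p2 hp2S
  have a3 := hpos p3 hp3S
  have k3 : Real.log (g.det ^ 2) + Real.log μ ≤
      Real.log (a p1) + Real.log (a p2) + Real.log (a p3) := by
    rw [← Real.log_mul hg2.ne' hμ.ne', ← Real.log_mul a1.ne' a2.ne',
      ← Real.log_mul (mul_pos a1 a2).ne' a3.ne']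
    exact Real.log_le_log (mul_pos hg2 hμ) ((mul_le_mul_of_nonneg_left k1 hg2.le).trans k2)
  have o1 : Real.log (a p1) ≤ Real.log (a p2) := Real.log_le_log a1 (m1 p2 hp2S)
  have o2 : Real.log (a p2) ≤ Real.log (a p3) := Real.log_le_log a2
    (m2 p3 (Finset.mem_erase.2 ⟨fun e => hp3l (e ▸ h1l), hp3S⟩))
  have s1 : ((C.S \ l).card : ℝ) * Real.log (a p3) ≤ ∑ p ∈ C.S \ l, Real.log (a p) := by
    rw [← nsmul_eq_mul]
    exact Finset.card_nsmul_le_sum _ _ _ fun p hp => Real.log_le_log a3 (m3 p hp)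
  have s2 : ((l.erase p1).card : ℝ) * Real.log (a p2) ≤ ∑ p ∈ l.erase p1, Real.log (a p) := by
    rw [← nsmul_eq_mul]
    exact Finset.card_nsmul_le_sum _ _ _ fun p hp =>
      Real.log_le_log a2 (m2 p (Finset.erase_subset_erase _ hsub hp))
  have s3 := Finset.sum_sdiff (f := fun p => Real.log (a p)) hsub
  have s4 := Finset.add_sum_erase l (fun p => Real.log (a p)) h1l
  have c1 : ((l.erase p1).card : ℝ) + 1 = l.card := by
    exact_mod_cast Finset.card_erase_add_one h1l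
  have c2 : ((C.S \ l).card : ℝ) + l.card = C.n := by
    unfold Conf.n
    exact_mod_cast hcard
  have c3 : 3 * (l.card : ℝ) ≤ 2 * C.n := by
    unfold Conf.n
    exact_mod_cast hl'
  have c4 : 3 ≤ C.n := by
    unfold Conf.n
    exact_mod_cast hn
  have e1 : ((l.erase p1).card : ℝ) = l.card - 1 := by linarith only [c1]
  have e2 : ((C.S \ l).card : ℝ) = C.n - l.card := by linarith only [c2]
  rw [e1] at s2
  rw [e2] at s1
  have q1 := mul_nonneg (show 0 ≤ C.n / 3 - 1 by linarith only [c4]) (sub_nonneg.2 o1)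
  have q2 := mul_nonneg (show 0 ≤ C.n - l.card - C.n / 3 by linarith only [c3]) (sub_nonneg.2 o2)
  have q3 := mul_le_mul_of_nonneg_left k3 (show 0 ≤ C.n / 3 by linarith only [c4])
  change _ ≤ ∑ p ∈ C.S, Real.log (a p) - _
  clear * - α C μ a g l p3 p2 p1 s1 s2 s3 s4 q1 q2 q3
  linarith only [s1, s2, s3, s4, q1, q2, q3]

end Pool.Agent.Work.MP_d88d93_co
end

-- merged part: Pool.Agent.Work.MP_d88d93_co.IsoC
section
/-! Almost isotropic position. -/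

namespace Pool.Agent.Work.MP_d88d93_co

open Finset

variable {α : Type} [DecidableEq α]

theorem det3_mulVec_isoC (g : Matrix (Fin 3) (Fin 3) ℝ) (x y z : V3) (a b c : ℝ) :
    det3 (a • g.mulVec x) (b • g.mulVec y) (c • g.mulVec z) = a * b * c * g.det * det3 x y z := by
  simp [det3, Matrix.mulVec, dotProduct, Fin.sum_univ_three, Matrix.det_fin_three]
  ring

theorem dot_pos_isoC {g : Matrix (Fin 3) (Fin 3) ℝ} (hg : g.det ≠ 0) {x : V3} (hx : x ≠ 0) :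
    0 < dot (g.mulVec x) (g.mulVec x) := by
  refine (dot_self_nonneg _).lt_of_ne fun h => hx ?_
  exact Matrix.eq_zero_of_mulVec_eq_zero hg (eq_zero_of_dot_self h.symm)

theorem ne_zero_isoC {x : V3} (hx : dot x x = 1) : x ≠ 0 := by
  rintro rfl
  rw [dot_zero_left] at hx
  exact zero_ne_one hx

omit [DecidableEq α] in
theorem exists_w_isoC (C : Conf α) (hn : 3 ≤ C.S.card)
    (hb : ∃ b : ℝ, ∀ g : Matrix (Fin 3) (Fin 3) ℝ, g.det ≠ 0 →
      b ≤ ∑ p ∈ C.S, Real.log (dot (g.mulVec (C.u p)) (g.mulVec (C.u p)))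
        - C.n / 3 * Real.log (g.det ^ 2)) :
    ∃ (g : Matrix (Fin 3) (Fin 3) ℝ) (t : α → ℝ), g.det ≠ 0 ∧ (∀ p ∈ C.S, 0 < t p) ∧
      (∀ p ∈ C.S, dot (t p • g.mulVec (C.u p)) (t p • g.mulVec (C.u p)) = 1) ∧
      ∑ p ∈ C.S, ∑ q ∈ C.S, dot (t p • g.mulVec (C.u p)) (t q • g.mulVec (C.u q)) ^ 2 ≤
        C.n ^ 2 / 3 + 1 := by
  obtain ⟨b, hb⟩ := hb
  let F : Matrix (Fin 3) (Fin 3) ℝ → ℝ := fun g =>
    ∑ p ∈ C.S, Real.log (dot (g.mulVec (C.u p)) (g.mulVec (C.u p))) - C.n / 3 * Real.log (g.det ^ 2)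
  have hn' : (0 : ℝ) < C.n := by
    unfold Conf.n
    exact_mod_cast (by omega : 0 < C.S.card)
  have hne : (F '' {g | g.det ≠ 0}).Nonempty := ⟨_, 1, by simp, rfl⟩
  have hbd : BddBelow (F '' {g | g.det ≠ 0}) := ⟨b, by
    rintro _ ⟨g, hg, rfl⟩
    exact hb g hg⟩
  obtain ⟨_, ⟨g, hg, rfl⟩, hlt⟩ := Real.lt_sInf_add_pos hne (ε := 1 / (10 * C.n)) (by positivity)
  have hg : g.det ≠ 0 := hg
  have hpos : ∀ p ∈ C.S, 0 < dot (g.mulVec (C.u p)) (g.mulVec (C.u p)) :=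
    fun p hp => dot_pos_isoC hg (ne_zero_isoC (C.unit p hp))
  have ht := fun p hp => exists_unit (hpos p hp)
  choose! t ht0 ht1 ht2 using ht
  refine ⟨g, t, hg, ht0, ht2, ?_⟩
  obtain ⟨k, hk, hd⟩ := descent C.S (Finset.card_pos.1 (by omega))
    (fun p => t p • g.mulVec (C.u p)) ht2
  have hkg : (k * g).det ≠ 0 := by rw [Matrix.det_mul]; exact mul_ne_zero hk hg
  have h1 : sInf (F '' {g | g.det ≠ 0}) ≤ F (k * g) := csInf_le hbd ⟨_, hkg, rfl⟩
  have h2 : F (k * g) = F g + (∑ p ∈ C.S, Real.log (dot (k.mulVec (t p • g.mulVec (C.u p)))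
      (k.mulVec (t p • g.mulVec (C.u p)))) - (C.S.card : ℝ) / 3 * Real.log (k.det ^ 2)) := by
    have h3 : ∀ p ∈ C.S, Real.log (dot ((k * g).mulVec (C.u p)) ((k * g).mulVec (C.u p))) =
        Real.log (dot (g.mulVec (C.u p)) (g.mulVec (C.u p))) +
        Real.log (dot (k.mulVec (t p • g.mulVec (C.u p))) (k.mulVec (t p • g.mulVec (C.u p)))) := by
      intro p hp
      rw [← Real.log_mul (hpos p hp).ne' (dot_pos_isoC hk (ne_zero_isoC (ht2 p hp))).ne',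
        Matrix.mulVec_smul, dot_smul_left, dot_smul_right, Matrix.mulVec_mulVec]
      congr 1
      linear_combination
        (-dot ((k * g).mulVec (C.u p)) ((k * g).mulVec (C.u p))) * ht1 p hp
    simp only [F]
    rw [Finset.sum_congr rfl h3, Finset.sum_add_distrib, Matrix.det_mul, mul_pow,
      Real.log_mul (pow_ne_zero 2 hk) (pow_ne_zero 2 hg)]
    unfold Conf.n
    ring
  have h4 : (∑ p ∈ C.S, ∑ q ∈ C.S, dot (t p • g.mulVec (C.u p)) (t q • g.mulVec (C.u q)) ^ 2 -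
      C.n ^ 2 / 3) / (10 * C.n) ≤ 1 / (10 * C.n) := by
    rw [neg_div] at hd
    unfold Conf.n at hlt ⊢
    linarith only [hlt, hd, h1, h2]
  rw [div_le_div_iff_of_pos_right (by positivity)] at h4
  linarith only [h4]

theorem iso_pos (C : Conf α) (hn : 3 ≤ C.S.card) (hl : ∀ l ∈ C.L, 3 * l.card ≤ 2 * C.S.card) :
    ∃ C' : Conf α, C'.S = C.S ∧ C'.L = C.L ∧
      ∑ p ∈ C'.S, ∑ q ∈ C'.S, C'.s p q ^ 2 ≤ C'.n ^ 2 / 3 + 1 := by
  obtain ⟨g, t, hg, ht0, ht, hsum⟩ := exists_w_isoC C hn (F_lower C hn hl)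
  set w : α → V3 := fun p => t p • g.mulVec (C.u p) with hw
  have hdet : ∀ a ∈ C.S, ∀ b ∈ C.S, ∀ r ∈ C.S,
      (det3 (w a) (w b) (w r) = 0 ↔ det3 (C.u a) (C.u b) (C.u r) = 0) := by
    intro a ha b hb r hr
    simp only [hw]
    rw [det3_mulVec_isoC, mul_eq_zero, or_iff_right]
    exact mul_ne_zero (mul_ne_zero (mul_ne_zero (ht0 a ha).ne' (ht0 b hb).ne') (ht0 r hr).ne') hg
  have hcross : ∀ l ∈ C.L, ∀ a ∈ l, ∀ b ∈ l, a ≠ b →
      dot (cross (w a) (w b)) (cross (w a) (w b)) ≠ 0 := by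
    intro l hlL a ha b hb hab h0
    obtain ⟨r, hr, hrl⟩ := Finset.exists_mem_notMem_of_card_lt_card
      (show l.card < C.S.card by have := hl l hlL; omega)
    apply hrl
    rw [C.mem_iff_det hlL ha hb hab hr, ← hdet a (C.sub l hlL ha) b (C.sub l hlL hb) r hr,
      ← dot_cross, eq_zero_of_dot_self h0, dot_zero_left]
  refine ⟨⟨C.S, w, C.L, ht, fun p hp q hq hpq => ?_, C.sub, C.two, fun l hlL => ?_, C.cov⟩,
    rfl, rfl, hsum⟩
  · obtain ⟨l, hlL, h1, h2⟩ := C.cov p hp q hq hpq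
    have h3 := (dot_self_nonneg _).lt_of_ne' (hcross l hlL p h1 q h2 hpq)
    rw [cross_sq, ht p hp, ht q hq] at h3
    linarith only [h3]
  · obtain ⟨a, ha, b, hb, hab⟩ := Finset.one_lt_card.1 (show 1 < l.card from C.two l hlL)
    refine ⟨cross (w a) (w b), hcross l hlL a ha b hb hab, fun r hr => ?_⟩
    rw [dot_cross, hdet a (C.sub l hlL ha) b (C.sub l hlL hb) r hr,
      C.mem_iff_det hlL ha hb hab hr]

end Pool.Agent.Work.MP_d88d93_co
end

-- merged part: Pool.Agent.Work.MP_d88d93_co.BridgeA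
section
/-! The abstract weak Dirac bound. -/

namespace Pool.Agent.Work.MP_d88d93_co

open Finset

variable {α : Type} [DecidableEq α]

theorem abstract_dirac : ∃ c : ℝ, 1 / 3 < c ∧ ∃ N : ℕ, ∀ C : Conf α, N ≤ C.S.card →
    (∀ l ∈ C.L, ∃ p ∈ C.S, p ∉ l) → ∃ p ∈ C.S, c * C.n ≤ ((C.Lp p).card : ℝ) := by
  obtain ⟨ε0, hε0, H⟩ := not_tight (α := α)
  obtain ⟨ε, hε, hε1, hε2⟩ : ∃ ε : ℝ, 0 < ε ∧ ε ≤ ε0 ∧ ε ≤ 1 / 3 :=
    ⟨min ε0 (1 / 3), lt_min hε0 (by norm_num), min_le_left _ _, min_le_right _ _⟩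
  refine ⟨1 / 3 + ε ^ 2, by linarith only [hε, mul_pos_of_neg_of_neg (Mathlib.Tactic.Linarith.sub_neg_of_lt hε) (Mathlib.Tactic.Linarith.sub_neg_of_lt hε)], max 3 ⌈1 / ε⌉₊, fun C hN hmiss => ?_⟩
  by_contra hcon
  push Not at hcon
  have h3 : 3 ≤ C.S.card := (le_max_left _ _).trans hN
  have hn3 : (3 : ℝ) ≤ C.n := by
    unfold Conf.n
    exact_mod_cast h3
  have hbig : 1 ≤ ε * C.n := by
    have h1 : 1 / ε ≤ C.n := Nat.ceil_le.1 ((le_max_right _ _).trans hN)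
    rwa [div_le_iff₀ hε, mul_comm] at h1
  have hline : ∀ l ∈ C.L, (l.card : ℝ) ≤ (1 / 3 + ε ^ 2) * C.n := by
    intro l hl
    obtain ⟨p, hp, hpl⟩ := hmiss l hl
    have h1 : (l.card : ℝ) ≤ (C.Lp p).card := by exact_mod_cast C.card_le_Lp hl hp hpl
    exact h1.trans (hcon p hp).le
  have hε3 : ε ^ 2 ≤ ε / 3 := by linarith only [hε, hε2, mul_nonneg_of_nonpos_of_nonpos (le_of_lt (Mathlib.Tactic.Linarith.sub_neg_of_lt hε)) (Mathlib.Tactic.Linarith.sub_nonpos_of_le hε2)]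
  have hI : ∑ l ∈ C.L, (l.card : ℝ) ≤ (1 / 3 + ε ^ 2) * C.n ^ 2 := by
    rw [← C.sum_card_Lp]
    refine (Finset.sum_le_sum fun p hp => (hcon p hp).le).trans_eq ?_
    rw [Finset.sum_const, nsmul_eq_mul]
    change C.n * _ = _
    ring
  obtain ⟨C', hS, hL, hsq⟩ := iso_pos C h3 fun l hl => by
    clear * - α l ε C hline hl hε hε2 hn3 hε3
    have h1 := hline l hl
    have h2 : (3 : ℝ) * l.card ≤ 2 * C.n := by (refine le_of_not_gt fun h_nl => ?_; linarith only [h_nl, hε, hε2, hn3, h1, hε3, mul_nonneg_of_nonpos_of_nonpos (Mathlib.Tactic.Linarith.sub_nonpos_of_le (sq_nonneg ((1 : ℝ) * ε))) (le_of_lt (Mathlib.Tactic.Linarith.sub_neg_of_lt h_nl)), mul_nonneg_of_nonpos_of_nonpos (Mathlib.Tactic.Linarith.sub_nonpos_of_le (Mathlib.Tactic.Linarith.natCast_nonneg ℝ #l)) (Mathlib.Tactic.Linarith.sub_nonpos_of_le hε2), mul_nonneg_of_nonpos_of_nonpos (Mathlib.Tactic.Linarith.sub_nonpos_of_le (Mathlib.Tactic.Linarith.natCast_nonneg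 ℝ #l)) (Mathlib.Tactic.Linarith.sub_nonpos_of_le hε3)])
    unfold Conf.n at h2
    exact_mod_cast h2
  have hn : C.n = C'.n := by
    unfold Conf.n
    rw [hS]
  rw [← hL] at hline hI
  rw [hn] at hline hI hbig hn3
  have hD := C'.sum_Dl
  have hD0 : 0 ≤ ∑ l ∈ C'.L, C'.Dl l := Finset.sum_nonneg fun l hl => C'.Dl_nonneg hl
  have hsq0 : 0 ≤ ε ^ 2 * C'.n ^ 2 := by positivity
  have hsq1 : 0 ≤ ε * C'.n ^ 2 := by positivity
  refine H C' (Conf.Tight.mono ⟨hbig, fun l hl => ?_, ?_, ?_, fun a ha => ?_⟩ hε1)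
  · refine (hline l hl).trans (mul_le_mul_of_nonneg_right ?_ C'.n_nonneg)
    linarith only [hε, hε3]
  · linarith only [hε, hε2, hn3, hI, hsq, hD, hD0]
  · linarith only [hε, hε2, hn3, hsq, hD, hD0, hsq1]
  · have h1 := iso_of_sq C'.S C'.u C'.unit ha
    have h2 : (∑ p ∈ C'.S, dot a (C'.u p) ^ 2 - C'.n / 3) ^ 2 ≤ 1 := by
      have h3 : ∑ p ∈ C'.S, ∑ q ∈ C'.S, dot (C'.u p) (C'.u q) ^ 2 ≤ C'.n ^ 2 / 3 + 1 := hsq
      unfold Conf.n at h3 ⊢
      linarith only [h1, h3]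
    exact ((sq_le_one_iff_abs_le_one _).1 h2).trans hbig

end Pool.Agent.Work.MP_d88d93_co
end

-- merged part: Pool.Agent.Work.MP_d88d93_co.BridgeB
section
/-! From the Euclidean plane to configurations. -/

namespace Pool.Agent.Work.MP_d88d93_co

open Finset

/-- homogeneous coordinates -/
def hom_brB (p : EuclideanSpace ℝ (Fin 2)) : V3 := ![p 0, p 1, 1]

theorem ext_brB {a b : EuclideanSpace ℝ (Fin 2)} (h0 : a 0 = b 0) (h1 : a 1 = b 1) : a = b :=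
  PiLp.ext (Fin.forall_fin_two.2 ⟨h0, h1⟩)

theorem hom_pos_brB (p : EuclideanSpace ℝ (Fin 2)) : 0 < dot (hom_brB p) (hom_brB p) := by
  simp only [dot, hom_brB, Matrix.cons_val_zero, Matrix.cons_val_one, Matrix.cons_val]
  linarith only [sq_nonneg (p 0), sq_nonneg (p 1), mul_self_nonneg (p.ofLp (1 : Fin (2 : ℕ))), mul_self_nonneg (p.ofLp (0 : Fin (2 : ℕ)))]

theorem det_brB (a b r : EuclideanSpace ℝ (Fin 2)) :
    det3 (hom_brB a) (hom_brB b) (hom_brB r) =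
      (b 0 - a 0) * (r 1 - a 1) - (b 1 - a 1) * (r 0 - a 0) := by
  simp only [det3, hom_brB, Matrix.cons_val_zero, Matrix.cons_val_one, Matrix.cons_val]
  ring

theorem mem_brB {a b : EuclideanSpace ℝ (Fin 2)} (hab : a ≠ b) (r : EuclideanSpace ℝ (Fin 2)) :
    r ∈ affineSpan ℝ {a, b} ↔ det3 (hom_brB a) (hom_brB b) (hom_brB r) = 0 := by
  rw [mem_affineSpan_pair_iff_exists_lineMap_eq, det_brB]
  have e (t : ℝ) (i : Fin 2) : AffineMap.lineMap a b t i = t * (b i - a i) + a i := by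
    simp [AffineMap.lineMap_apply]
  constructor
  · rintro ⟨t, rfl⟩
    rw [e, e]
    ring
  · intro h
    by_cases h0 : b 0 - a 0 = 0
    · have h1 : b 1 - a 1 ≠ 0 := fun h1 => hab (ext_brB (by linarith) (by linarith))
      refine ⟨(r 1 - a 1) / (b 1 - a 1), ext_brB ?_ ?_⟩
      · rw [e, h0]
        rw [h0, zero_mul, zero_sub, neg_eq_zero, mul_eq_zero] at h
        have := h.resolve_left h1
        linarith only [this]
      · rw [e]
        field_simp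
        ring
    · refine ⟨(r 0 - a 0) / (b 0 - a 0), ext_brB ?_ ?_⟩
      · rw [e]
        field_simp
        ring
      · rw [e]
        field_simp
        linarith only [h]

theorem cross_pos_brB {a b : EuclideanSpace ℝ (Fin 2)} (hab : a ≠ b) :
    0 < dot (cross (hom_brB a) (hom_brB b)) (cross (hom_brB a) (hom_brB b)) := by
  refine lt_of_le_of_ne (dot_self_nonneg _) fun h => hab ?_
  have h1 := eq_zero_of_dot_self h.symm
  have h2 := congrFun h1 0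
  have h3 := congrFun h1 1
  simp [cross, hom_brB] at h2 h3
  exact ext_brB (by linarith) (by linarith)

theorem dirac : ∃ c : ℝ, 1 / 3 < c ∧ ∃ N : ℕ, ∀ S : Finset (EuclideanSpace ℝ (Fin 2)),
    N ≤ S.card → ¬ Collinear ℝ (S : Set (EuclideanSpace ℝ (Fin 2))) →
    ∃ p ∈ S, c * (S.card : ℝ) ≤
      (Set.ncard {ℓ : AffineSubspace ℝ (EuclideanSpace ℝ (Fin 2)) |
        p ∈ ℓ ∧ ∃ a ∈ S, ∃ b ∈ S, a ≠ b ∧ ℓ = affineSpan ℝ {a, b}} : ℝ) := by
  classical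
  obtain ⟨c, hc, N, H⟩ := abstract_dirac (α := EuclideanSpace ℝ (Fin 2))
  refine ⟨c, hc, N, fun S hN hcol => ?_⟩
  choose t ht0 ht1 ht2 using fun p => exists_unit (hom_pos_brB p)
  have hlt : ∀ p q : EuclideanSpace ℝ (Fin 2), p ≠ q →
      dot (t p • hom_brB p) (t q • hom_brB q) ^ 2 < 1 := by
    intro p q hpq
    have h1 := cross_pos_brB hpq
    rw [cross_sq] at h1
    rw [dot_smul_left, dot_smul_right]
    have h2 : 0 < t p ^ 2 * t q ^ 2 := by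
      have := ht0 p
      have := ht0 q
      positivity
    have h3 := mul_pos h2 h1
    have h4 : t p ^ 2 * dot (hom_brB p) (hom_brB p) * (t q ^ 2 * dot (hom_brB q) (hom_brB q)) =
        1 := by rw [ht1, ht1, one_mul]
    clear * - t p q h3 h4
    linarith only [h3, h4]
  let L : Finset (Finset (EuclideanSpace ℝ (Fin 2))) :=
    S.offDiag.image fun x => S.filter fun r => r ∈ affineSpan ℝ {x.1, x.2}
  have hL : ∀ l, l ∈ L ↔ ∃ a ∈ S, ∃ b ∈ S, a ≠ b ∧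
      (S.filter fun r => r ∈ affineSpan ℝ {a, b}) = l := by
    intro l
    simp only [L, Finset.mem_image, Finset.mem_offDiag, Prod.exists]
    constructor
    · rintro ⟨a, b, ⟨ha, hb, hab⟩, e⟩
      exact ⟨a, ha, b, hb, hab, e⟩
    · rintro ⟨a, ha, b, hb, hab, e⟩
      exact ⟨a, b, ⟨ha, hb, hab⟩, e⟩
  let C : Conf (EuclideanSpace ℝ (Fin 2)) :=
    { S := S
      u := fun p => t p • hom_brB p
      L := L
      unit := fun p _ => ht2 p
      ne := fun p _ q _ hpq => hlt p q hpq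
      sub := fun l hl => by
        obtain ⟨a, _, b, _, _, rfl⟩ := (hL l).1 hl
        exact Finset.filter_subset _ _
      two := fun l hl => by
        obtain ⟨a, ha, b, hb, hab, rfl⟩ := (hL l).1 hl
        exact Finset.one_lt_card.2 ⟨a, Finset.mem_filter.2 ⟨ha, left_mem_affineSpan_pair _ _ _⟩, b,
          Finset.mem_filter.2 ⟨hb, right_mem_affineSpan_pair _ _ _⟩, hab⟩
      normal := fun l hl => by
        obtain ⟨a, ha, b, hb, hab, rfl⟩ := (hL l).1 hl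
        refine ⟨cross (hom_brB a) (hom_brB b), (cross_pos_brB hab).ne', fun r hr => ?_⟩
        rw [Finset.mem_filter, mem_brB hab, dot_smul_right, dot_cross, mul_eq_zero]
        exact ⟨fun h => Or.inr h.2, fun h => ⟨hr, h.resolve_left (ht0 r).ne'⟩⟩
      cov := fun p hp q hq hpq => ⟨_, (hL _).2 ⟨p, hp, q, hq, hpq, rfl⟩,
        Finset.mem_filter.2 ⟨hp, left_mem_affineSpan_pair _ _ _⟩,
        Finset.mem_filter.2 ⟨hq, right_mem_affineSpan_pair _ _ _⟩⟩ }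
  obtain ⟨p, hp, hle⟩ := H C hN fun l hl => by
    obtain ⟨a, ha, b, hb, hab, rfl⟩ := (hL l).1 hl
    by_contra hcon
    push Not at hcon
    refine hcol ((collinear_iff_of_mem (p₀ := a) ha).2 ⟨b -ᵥ a, fun r hr => ?_⟩)
    obtain ⟨x, hx⟩ :=
      mem_affineSpan_pair_iff_exists_lineMap_eq.1 (Finset.mem_filter.1 (hcon r hr)).2
    exact ⟨x, by rw [← hx, AffineMap.lineMap_apply]⟩
  refine ⟨p, hp, hle.trans ?_⟩
  set T := {ℓ : AffineSubspace ℝ (EuclideanSpace ℝ (Fin 2)) |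
    p ∈ ℓ ∧ ∃ a ∈ S, ∃ b ∈ S, a ≠ b ∧ ℓ = affineSpan ℝ {a, b}} with hT
  have hfin : T.Finite := by
    refine ((S ×ˢ S).finite_toSet.image fun x => affineSpan ℝ {x.1, x.2}).subset ?_
    rintro ℓ ⟨_, a, ha, b, hb, _, rfl⟩
    exact ⟨(a, b), Finset.mem_coe.2 (Finset.mem_product.2 ⟨ha, hb⟩), rfl⟩
  have hsub : ((C.Lp p : Finset _) : Set (Finset (EuclideanSpace ℝ (Fin 2)))) ⊆
      (fun ℓ : AffineSubspace ℝ (EuclideanSpace ℝ (Fin 2)) => S.filter fun r => r ∈ ℓ) '' T := by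
    intro l hl
    obtain ⟨hl1, hl2⟩ := C.mem_Lp.1 (Finset.mem_coe.1 hl)
    obtain ⟨a, ha, b, hb, hab, rfl⟩ := (hL l).1 hl1
    exact ⟨_, ⟨(Finset.mem_filter.1 hl2).2, a, ha, b, hb, hab, rfl⟩, rfl⟩
  have h1 := (Set.ncard_le_ncard hsub (hfin.image _)).trans (Set.ncard_image_le hfin)
  rw [Set.ncard_coe_finset] at h1
  exact_mod_cast h1

end Pool.Agent.Work.MP_d88d93_co
end
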