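import Mathlib

-- merged part: Pool.Agent.Work.MP_d88d93_co.Defs
section
/-! Weak Dirac constant above one third: basic definitions. -/

namespace Pool.Agent.Work.MP_d88d93_co

open Finset

abbrev V3 := Fin 3 → ℝ

def dot (x y : V3) : ℝ := x 0 * y 0 + x 1 * y 1 + x 2 * y 2

def cross (x y : V3) : V3 :=
  ![x 1 * y 2 - x 2 * y 1, x 2 * y 0 - x 0 * y 2, x 0 * y 1 - x 1 * y 0]

def det3 (x y z : V3) : ℝ :=
  (x 1 * y 2 - x 2 * y 1) * z 0 + (x 2 * y 0 - x 0 * y 2) * z 1 + (x 0 * y 1 - x 1 * y 0) * z 2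

/-- An orthonormal frame, with the Parseval identity. -/
structure Frame (e1 e2 e3 : V3) : Prop where
  u1 : dot e1 e1 = 1
  u2 : dot e2 e2 = 1
  u3 : dot e3 e3 = 1
  pars : ∀ v w : V3, dot v w = dot e1 v * dot e1 w + dot e2 v * dot e2 w + dot e3 v * dot e3 w

/-- Points of the real projective plane as unit vectors, with the connecting lines. -/
structure Conf (α : Type) where
  S : Finset α
  u : α → V3
  L : Finset (Finset α)
  unit : ∀ p ∈ S, dot (u p) (u p) = 1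
  ne : ∀ p ∈ S, ∀ q ∈ S, p ≠ q → dot (u p) (u q) ^ 2 < 1
  sub : ∀ l ∈ L, l ⊆ S
  two : ∀ l ∈ L, 2 ≤ l.card
  normal : ∀ l ∈ L, ∃ w : V3, dot w w ≠ 0 ∧ ∀ r ∈ S, (r ∈ l ↔ dot w (u r) = 0)
  cov : ∀ p ∈ S, ∀ q ∈ S, p ≠ q → ∃ l ∈ L, p ∈ l ∧ q ∈ l

variable {α : Type} [DecidableEq α]

namespace Conf

variable (C : Conf α)

/-- Number of points, as a real. -/
noncomputable def n : ℝ := (C.S.card : ℝ)

def s (p q : α) : ℝ := dot (C.u p) (C.u q)

/-- Frame defect of a line. -/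
noncomputable def Dl (l : Finset α) : ℝ :=
  ∑ p ∈ l, ∑ q ∈ l, C.s p q ^ 2 - (l.card : ℝ) ^ 2 / 2

noncomputable def dl (l : Finset α) : ℝ := √(C.Dl l)

/-- Lines through a point. -/
def Lp (p : α) : Finset (Finset α) := C.L.filter (fun l => p ∈ l)

noncomputable def D (p : α) : ℝ := ∑ l ∈ C.Lp p, C.dl l

noncomputable def near (a : V3) (ρ : ℝ) : Finset α :=
  C.S.filter (fun p => 1 - dot a (C.u p) ^ 2 ≤ ρ)

noncomputable def mid (a : V3) (γ : ℝ) : Finset α :=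
  C.S.filter (fun p => γ ≤ dot a (C.u p) ^ 2 ∧ γ ≤ 1 - dot a (C.u p) ^ 2)

noncomputable def strip (ν : V3) (e : ℝ) : Finset α :=
  C.S.filter (fun p => |dot ν (C.u p)| ≤ e)

/-- Points joined to `p` by a line of small inclination with respect to `ν`. -/
noncomputable def In (ν : V3) (B : ℝ) (p : α) : Finset α :=
  (C.S.erase p).filter (fun q => dot ν (C.u p) ^ 2 + dot ν (C.u q) ^ 2
    - 2 * C.s p q * dot ν (C.u p) * dot ν (C.u q) ≤ B ^ 2 * (1 - C.s p q ^ 2))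

/-- Near equality in the incidence inequality. -/
structure Tight (ε : ℝ) : Prop where
  big : 1 ≤ ε * C.n
  line : ∀ l ∈ C.L, (l.card : ℝ) ≤ (1 / 3 + ε) * C.n
  sq : ∑ l ∈ C.L, C.Dl l ≤ ε ^ 2 * C.n ^ 2
  inc : (1 / 3 - ε) * C.n ^ 2 ≤ ∑ l ∈ C.L, (l.card : ℝ)
  iso : ∀ a : V3, dot a a = 1 → |∑ p ∈ C.S, dot a (C.u p) ^ 2 - C.n / 3| ≤ ε * C.n

theorem mem_Lp {p : α} {l : Finset α} : l ∈ C.Lp p ↔ l ∈ C.L ∧ p ∈ l := by
  simp [Lp]

omit [DecidableEq α] in
theorem mem_near {a : V3} {ρ : ℝ} {p : α} :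
    p ∈ C.near a ρ ↔ p ∈ C.S ∧ 1 - dot a (C.u p) ^ 2 ≤ ρ := by
  simp [near]

omit [DecidableEq α] in
theorem mem_mid {a : V3} {γ : ℝ} {p : α} :
    p ∈ C.mid a γ ↔ p ∈ C.S ∧ γ ≤ dot a (C.u p) ^ 2 ∧ γ ≤ 1 - dot a (C.u p) ^ 2 := by
  simp [mid]

omit [DecidableEq α] in
theorem mem_strip {ν : V3} {e : ℝ} {p : α} :
    p ∈ C.strip ν e ↔ p ∈ C.S ∧ |dot ν (C.u p)| ≤ e := by
  simp [strip]

theorem mem_In {ν : V3} {B : ℝ} {p q : α} :
    q ∈ C.In ν B p ↔ q ≠ p ∧ q ∈ C.S ∧ dot ν (C.u p) ^ 2 + dot ν (C.u q) ^ 2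
      - 2 * C.s p q * dot ν (C.u p) * dot ν (C.u q) ≤ B ^ 2 * (1 - C.s p q ^ 2) := by
  simp [In, and_assoc]

omit [DecidableEq α] in
theorem n_nonneg : 0 ≤ C.n := by
  unfold n; positivity

omit [DecidableEq α] in
theorem card_le_n {T : Finset α} (h : T ⊆ C.S) : (T.card : ℝ) ≤ C.n := by
  unfold n; exact_mod_cast Finset.card_le_card h

omit [DecidableEq α] in
theorem dl_nonneg (l : Finset α) : 0 ≤ C.dl l := Real.sqrt_nonneg _

theorem D_nonneg (p : α) : 0 ≤ C.D p := Finset.sum_nonneg (fun l _ => C.dl_nonneg l)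

variable {C}

omit [DecidableEq α] in
theorem Tight.n_pos {ε : ℝ} (h : C.Tight ε) : 0 < C.n := by
  rcases (C.n_nonneg).lt_or_eq with h0 | h0
  · exact h0
  · have := h.big
    rw [← h0] at this
    norm_num at this

omit [DecidableEq α] in
theorem Tight.eps_pos {ε : ℝ} (h : C.Tight ε) : 0 < ε := by
  have h1 := h.big
  have h2 := h.n_pos
  by_contra h3
  push Not at h3
  linarith only [h1, h2, h3, mul_nonneg_of_nonpos_of_nonpos (le_of_lt (Mathlib.Tactic.Linarith.sub_neg_of_lt h2)) (Mathlib.Tactic.Linarith.sub_nonpos_of_le h3)]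

omit [DecidableEq α] in
theorem Tight.mono {ε ε' : ℝ} (h : C.Tight ε) (hle : ε ≤ ε') : C.Tight ε' := by
  have hn := h.n_pos
  have he := h.eps_pos
  have h1 : ε * C.n ≤ ε' * C.n := mul_le_mul_of_nonneg_right hle hn.le
  refine ⟨h.big.trans h1, fun l hl => ?_, ?_, ?_, fun a ha => (h.iso a ha).trans h1⟩
  · have := h.line l hl
    linarith only [h1, this]
  · have h2 : ε ^ 2 ≤ ε' ^ 2 := by linarith only [hle, he, mul_nonneg_of_nonpos_of_nonpos (Mathlib.Tactic.Linarith.sub_nonpos_of_le hle) (Mathlib.Tactic.Linarith.sub_nonpos_of_le hle), mul_nonneg_of_nonpos_of_nonpos (Mathlib.Tactic.Linarith.sub_nonpos_of_le hle) (le_of_lt (Mathlib.Tactic.Linarith.sub_neg_of_lt he))]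
    exact h.sq.trans (mul_le_mul_of_nonneg_right h2 (by positivity))
  · have h2 : ε * C.n ^ 2 ≤ ε' * C.n ^ 2 := mul_le_mul_of_nonneg_right hle (by positivity)
    have := h.inc
    linarith only [h2, this]

end Conf

/-- Output of the selection lemma: two horizontally separated parts of `A`. -/
def Good (A : Finset α) (Y Z : α → ℝ) (n : ℝ) : Prop :=
  ∃ X X' : Finset α, X ⊆ A ∧ X' ⊆ A ∧
    (∀ p ∈ X, ∀ p' ∈ X', |Z p' - Z p| / 10 ^ 11 < Y p' - Y p) ∧
    ((3 * n / 10 ^ 8 ≤ X.card ∧ 3 * n / 10 ^ 8 ≤ X'.card ∧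
        (A.card : ℝ) ≤ X.card + X'.card + 3 * n / 10 ^ 10) ∨
      (n / (4 * 10 ^ 10) ≤ X'.card ∧ (A.card : ℝ) ≤ X.card + 16 * n / 10 ^ 8))

/-- Combinatorial data of two clusters joined by almost horizontal lines. -/
structure CoreHyp (X X' B : Finset α) (LL : Finset (Finset α)) (Y Z : α → ℝ)
    (m c : Finset α → ℝ) (d : ℕ) : Prop where
  small : ∀ p ∈ X ∪ X' ∪ B, |Y p| < 1
  lt : ∀ p ∈ X, ∀ p' ∈ X', Y p < Y p'
  disj : Disjoint (X ∪ X') B
  eqA : ∀ l ∈ LL, (l ∩ B).Nonempty → ∀ p ∈ X ∪ X', (p ∈ l ↔ Z p - m l * Y p - c l = 0)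
  eqB : ∀ l ∈ LL, (l ∩ B).Nonempty → ∀ q ∈ B, (q ∈ l ↔ Z q - m l - c l * Y q = 0)
  one : ∀ l ∈ LL, ∀ l' ∈ LL, l ≠ l' → (l ∩ l').card ≤ 1
  cov : ∀ p ∈ X, ∀ p' ∈ X', ∃ l ∈ LL, p ∈ l ∧ p' ∈ l
  defect : ∀ p ∈ X ∪ X',
    ∑ l ∈ LL.filter (fun l => p ∈ l), ((l ∩ (X ∪ X')).card - (l ∩ B).card) ≤ d

/-- Lines meeting all three parts. -/
def MM (X X' B : Finset α) (LL : Finset (Finset α)) : Finset (Finset α) :=
  LL.filter (fun l => (l ∩ X).Nonempty ∧ (l ∩ X').Nonempty ∧ (l ∩ B).Nonempty)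

end Pool.Agent.Work.MP_d88d93_co
end

-- merged part: Pool.Agent.Work.MP_d88d93_co.Vec
section
/-! Vector identities in three dimensions. -/

namespace Pool.Agent.Work.MP_d88d93_co

theorem dot_comm (x y : V3) : dot x y = dot y x := by unfold dot; ring

theorem dot_self_nonneg (x : V3) : 0 ≤ dot x x := by
  unfold dot; linarith only [sq_nonneg (x 0), sq_nonneg (x 1), sq_nonneg (x 2), mul_self_nonneg (x (2 : Fin (3 : ℕ))), mul_self_nonneg (x (1 : Fin (3 : ℕ))), mul_self_nonneg (x (0 : Fin (3 : ℕ)))]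

theorem dot_add_left (x y z : V3) : dot (x + y) z = dot x z + dot y z := by
  simp only [dot, Pi.add_apply]; ring

theorem dot_add_right (x y z : V3) : dot x (y + z) = dot x y + dot x z := by
  simp only [dot, Pi.add_apply]; ring

theorem dot_sub_left (x y z : V3) : dot (x - y) z = dot x z - dot y z := by
  simp only [dot, Pi.sub_apply]; ring

theorem dot_sub_right (x y z : V3) : dot x (y - z) = dot x y - dot x z := by
  simp only [dot, Pi.sub_apply]; ring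

theorem dot_smul_left (t : ℝ) (x z : V3) : dot (t • x) z = t * dot x z := by
  simp only [dot, Pi.smul_apply, smul_eq_mul]; ring

theorem dot_smul_right (t : ℝ) (x z : V3) : dot x (t • z) = t * dot x z := by
  simp only [dot, Pi.smul_apply, smul_eq_mul]; ring

theorem dot_neg_left (x z : V3) : dot (-x) z = -dot x z := by
  simp only [dot, Pi.neg_apply]; ring

theorem dot_neg_right (x z : V3) : dot x (-z) = -dot x z := by
  simp only [dot, Pi.neg_apply]; ring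

theorem dot_zero_left (z : V3) : dot 0 z = 0 := by simp [dot]

theorem dot_zero_right (z : V3) : dot z 0 = 0 := by simp [dot]

theorem dot_sum_left {β : Type} (T : Finset β) (f : β → V3) (z : V3) :
    dot (∑ i ∈ T, f i) z = ∑ i ∈ T, dot (f i) z := by
  simp only [dot, Finset.sum_apply, Finset.sum_mul, Finset.sum_add_distrib]

theorem dot_sum_right {β : Type} (T : Finset β) (f : β → V3) (z : V3) :
    dot z (∑ i ∈ T, f i) = ∑ i ∈ T, dot z (f i) := by
  simp only [dot, Finset.sum_apply, Finset.mul_sum, Finset.sum_add_distrib]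

theorem eq_zero_of_dot_self {x : V3} (h : dot x x = 0) : x = 0 := by
  unfold dot at h
  have h0 : x 0 = 0 := by nlinarith [sq_nonneg (x 0), sq_nonneg (x 1), sq_nonneg (x 2)]
  have h1 : x 1 = 0 := by nlinarith [sq_nonneg (x 0), sq_nonneg (x 1), sq_nonneg (x 2)]
  have h2 : x 2 = 0 := by nlinarith [sq_nonneg (x 0), sq_nonneg (x 1), sq_nonneg (x 2)]
  funext i
  fin_cases i
  · exact h0
  · exact h1
  · exact h2

theorem dot_cross (x y z : V3) : dot (cross x y) z = det3 x y z := by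
  simp [dot, cross, det3]

theorem dot_cross_left (x y : V3) : dot (cross x y) x = 0 := by
  rw [dot_cross]; unfold det3; ring

theorem dot_cross_right (x y : V3) : dot (cross x y) y = 0 := by
  rw [dot_cross]; unfold det3; ring

/-- Lagrange identity. -/
theorem cross_dot_cross (a b x y : V3) :
    dot (cross a b) (cross x y) = dot a x * dot b y - dot a y * dot b x := by
  simp [dot, cross]; ring

theorem cross_sq (a b : V3) :
    dot (cross a b) (cross a b) = dot a a * dot b b - dot a b ^ 2 := by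
  rw [cross_dot_cross, dot_comm b a]; ring

theorem det3_cyc (x y z : V3) : det3 x y z = det3 y z x := by unfold det3; ring

theorem det3_swap (x y z : V3) : det3 x y z = -det3 y x z := by unfold det3; ring

theorem det3_self12 (x z : V3) : det3 x x z = 0 := by unfold det3; ring

theorem det3_self13 (x y : V3) : det3 x y x = 0 := by unfold det3; ring

theorem det3_self23 (x y : V3) : det3 x y y = 0 := by unfold det3; ring

/-- Cauchy Schwarz inequality. -/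
theorem dot_sq_le (x y : V3) : dot x y ^ 2 ≤ dot x x * dot y y := by
  have h := dot_self_nonneg (cross x y)
  rw [cross_sq] at h
  linarith

theorem dot_sq_le_one {x y : V3} (hx : dot x x = 1) (hy : dot y y = 1) : dot x y ^ 2 ≤ 1 := by
  have := dot_sq_le x y
  rw [hx, hy] at this
  linarith

theorem abs_dot_le_one {x y : V3} (hx : dot x x = 1) (hy : dot y y = 1) : |dot x y| ≤ 1 :=
  abs_le_one_iff_mul_self_le_one.2 (by have := dot_sq_le_one hx hy; linarith only [this])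

/-- The Gram determinant identity. -/
theorem det3_mul_det3 (a b c x y z : V3) :
    det3 a b c * det3 x y z =
      dot a x * (dot b y * dot c z - dot b z * dot c y)
      - dot a y * (dot b x * dot c z - dot b z * dot c x)
      + dot a z * (dot b x * dot c y - dot b y * dot c x) := by
  unfold det3 dot; ring

theorem det3_sq_le (x y z : V3) : det3 x y z ^ 2 ≤ dot x x * dot y y * dot z z := by
  rw [← dot_cross]
  have h1 := dot_sq_le (cross x y) z
  rw [cross_sq] at h1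
  have h2 := dot_self_nonneg z
  linarith only [h1, h2, sq_nonneg (dot x y), mul_nonneg_of_nonpos_of_nonpos (Mathlib.Tactic.Linarith.sub_nonpos_of_le (sq_nonneg (dot x y))) (Mathlib.Tactic.Linarith.sub_nonpos_of_le h2)]

/-- Expansion of an inner product along two vectors and their cross product. -/
theorem gram (p p' q q' : V3) :
    (dot p p * dot p' p' - dot p p' ^ 2) * dot q q' =
      dot p' p' * (dot p q * dot p q') + dot p p * (dot p' q * dot p' q')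
      - dot p p' * (dot p q * dot p' q' + dot p' q * dot p q')
      + det3 p p' q * det3 p p' q' := by
  unfold det3 dot; ring

/-- For unit vectors `a, p, q`. -/
theorem sub_mul_sq {a p q : V3} (ha : dot a a = 1) (hp : dot p p = 1) (hq : dot q q = 1) :
    (dot p q - dot a p * dot a q) ^ 2 =
      (1 - dot a p ^ 2) * (1 - dot a q ^ 2) - det3 a p q ^ 2 := by
  have h := det3_mul_det3 a p q a p q
  rw [ha, hp, hq, dot_comm p a, dot_comm q a, dot_comm q p] at h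
  nlinarith [h]

/-- Cramer's rule, paired with a vector. -/
theorem cramer (p q r ν z : V3) :
    det3 p q r * dot ν z =
      dot ν p * det3 q r z + dot ν q * det3 r p z + dot ν r * det3 p q z := by
  unfold det3 dot; ring

theorem abs_det3_le_one {x y z : V3} (hx : dot x x = 1) (hy : dot y y = 1) (hz : dot z z = 1) :
    |det3 x y z| ≤ 1 := by
  have := det3_sq_le x y z
  rw [hx, hy, hz] at this
  exact abs_le_one_iff_mul_self_le_one.2 (by linarith only [this])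

/-- Three unit vectors almost orthogonal to `ν` are almost coplanar. -/
theorem abs_det3_le {p q r ν z : V3} (hp : dot p p = 1) (hq : dot q q = 1) (hr : dot r r = 1)
    (hz : dot z z = 1) (hν : dot ν z = 1) :
    |det3 p q r| ≤ |dot ν p| + |dot ν q| + |dot ν r| := by
  have h := cramer p q r ν z
  rw [hν, mul_one] at h
  rw [h]
  have h1 := abs_det3_le_one hq hr hz
  have h2 := abs_det3_le_one hr hp hz
  have h3 := abs_det3_le_one hp hq hz
  have k1 : |dot ν p * det3 q r z| ≤ |dot ν p| := by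
    rw [abs_mul]; exact mul_le_of_le_one_right (abs_nonneg _) h1
  have k2 : |dot ν q * det3 r p z| ≤ |dot ν q| := by
    rw [abs_mul]; exact mul_le_of_le_one_right (abs_nonneg _) h2
  have k3 : |dot ν r * det3 p q z| ≤ |dot ν r| := by
    rw [abs_mul]; exact mul_le_of_le_one_right (abs_nonneg _) h3
  calc _ ≤ |dot ν p * det3 q r z + dot ν q * det3 r p z| + |dot ν r * det3 p q z| := abs_add_le _ _
    _ ≤ |dot ν p * det3 q r z| + |dot ν q * det3 r p z| + |dot ν r * det3 p q z| := by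
        linarith only [abs_add_le (dot ν p * det3 q r z) (dot ν q * det3 r p z)]
    _ ≤ _ := by linarith

/-- Triangle inequality for squared sines. -/
theorem tri {a p q : V3} (ha : dot a a = 1) (hp : dot p p = 1) (hq : dot q q = 1) :
    1 - dot p q ^ 2 ≤ 2 * (1 - dot a p ^ 2) + 2 * (1 - dot a q ^ 2) := by
  have h := sub_mul_sq ha hp hq
  have hx := dot_sq_le_one ha hp
  have hz := dot_sq_le_one ha hq
  set x := dot a p
  set z := dot a q
  set s := dot p q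
  have h1 : (s - x * z) ^ 2 ≤ (1 - x ^ 2) * (1 - z ^ 2) := by linarith only [h, sq_nonneg (det3 a p q), sq_nonneg (det3 a p q)]
  have hA : 0 ≤ 1 - x ^ 2 := by linarith
  have hB : 0 ≤ 1 - z ^ 2 := by linarith
  have h2 : |s - x * z| ≤ ((1 - x ^ 2) + (1 - z ^ 2)) / 2 := by
    clear * - s x z a p q h hx hz
    apply abs_le_of_sq_le_sq' _ (by linarith only [hx, hz]) |> abs_le.2
    linarith only [h, sq_nonneg ((1 - x ^ 2) - (1 - z ^ 2)), sq_nonneg ((1 : ℝ) - x ^ (2 : ℕ) - ((1 : ℝ) - z ^ (2 : ℕ))), sq_nonneg (det3 a p q)]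
  have h3 : |x * z| ≤ 1 := abs_le_one_iff_mul_self_le_one.2 (by clear * - x z hx hz; nlinarith)
  have h4 : -(2 * (x * z) * (s - x * z)) ≤ (1 - x ^ 2) + (1 - z ^ 2) := by
    clear * - x z s hx h3 hz h2
    have : |2 * (x * z) * (s - x * z)| ≤ (1 - x ^ 2) + (1 - z ^ 2) := by
      rw [abs_mul, abs_mul, abs_two]
      have := abs_nonneg (s - x * z)
      have := abs_nonneg (x * z)
      linarith only [hx, h3, hz, h2, this, mul_nonneg_of_nonpos_of_nonpos (Mathlib.Tactic.Linarith.sub_nonpos_of_le hx) (Mathlib.Tactic.Linarith.sub_nonpos_of_le h3), mul_nonneg_of_nonpos_of_nonpos (Mathlib.Tactic.Linarith.sub_nonpos_of_le hz) (Mathlib.Tactic.Linarith.sub_nonpos_of_le h3), mul_nonneg_of_nonpos_of_nonpos (Mathlib.Tactic.Linarith.sub_nonpos_of_le h2) (Mathlib.Tactic.Linarith.sub_nonpos_of_le this)]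
    linarith only [this, neg_abs_le (2 * (x * z) * (s - x * z))]
  clear * - s x z a p q h h4 hA hB
  linarith only [h, h4, sq_nonneg (s - x * z), mul_nonneg hA hB, sq_nonneg (s - x * z), sq_nonneg (det3 a p q)]

/-- A vector near `a` and a vector in middle position to `a` are in middle position. -/
theorem near_mid {a p q : V3} {ρ c : ℝ} (ha : dot a a = 1) (hp : dot p p = 1) (hq : dot q q = 1)
    (hc : 0 < c) (hρ : ρ ≤ c / 6) (h1 : 1 - dot a p ^ 2 ≤ ρ) (h2 : c ≤ dot a q ^ 2)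
    (h3 : c ≤ 1 - dot a q ^ 2) :
    c ^ 2 / 16 ≤ dot p q ^ 2 * (1 - dot p q ^ 2) := by
  have hs := dot_sq_le_one hp hq
  have hx := dot_sq_le_one ha hp
  have h := sub_mul_sq ha hp hq
  have ht := tri hp ha hq
  rw [dot_comm p a] at ht
  have k1 : c / 4 ≤ 1 - dot p q ^ 2 := by linarith only [hc, hρ, h1, h3, ht]
  set x := dot a p
  set z := dot a q
  set s := dot p q
  have hc2 : c ≤ 1 / 2 := by linarith only [h2, h3]
  have h5 : (s - x * z) ^ 2 ≤ c / 6 := by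
    clear * - x z c ρ hρ h1 hx s a p q h
    have : (1 - x ^ 2) * (1 - z ^ 2) ≤ c / 6 := by linarith only [hρ, h1, hx, sq_nonneg z, mul_nonneg_of_nonpos_of_nonpos (Mathlib.Tactic.Linarith.sub_nonpos_of_le (sq_nonneg z)) (Mathlib.Tactic.Linarith.sub_nonpos_of_le hx)]
    linarith only [h, this, sq_nonneg (det3 a p q), sq_nonneg (det3 a p q)]
  have h6 : 11 / 12 * c ≤ (x * z) ^ 2 := by
    clear * - x ρ c z hρ h1 h2 h3
    have : 11 / 12 ≤ x ^ 2 := by linarith only [hρ, h1, h2, h3]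
    linarith only [h2, hρ, h1, h3, mul_nonneg_of_nonpos_of_nonpos (Mathlib.Tactic.Linarith.sub_nonpos_of_le (sq_nonneg z)) (Mathlib.Tactic.Linarith.sub_nonpos_of_le hρ), mul_nonneg_of_nonpos_of_nonpos (Mathlib.Tactic.Linarith.sub_nonpos_of_le (sq_nonneg z)) (Mathlib.Tactic.Linarith.sub_nonpos_of_le h1), mul_nonneg_of_nonpos_of_nonpos (Mathlib.Tactic.Linarith.sub_nonpos_of_le (sq_nonneg z)) (Mathlib.Tactic.Linarith.sub_nonpos_of_le h2), mul_nonneg_of_nonpos_of_nonpos (Mathlib.Tactic.Linarith.sub_nonpos_of_le (sq_nonneg z)) (Mathlib.Tactic.Linarith.sub_nonpos_of_le h3)]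
  have k2 : c / 4 ≤ s ^ 2 := by
    clear * - c s x z a p q ρ hc hρ h1 h2 h h5
    linarith only [hc, hρ, h1, h2, h, h5, sq_nonneg (s - (s - x * z)), sq_nonneg (2 * s - x * z), sq_nonneg (s - 2 * (x * z - s)), sq_nonneg ((2 : ℝ) * s - x * z), sq_nonneg (det3 a p q)]
  clear * - c s ρ x z hρ h1 h3 ht hc k2
  linarith only [hρ, h1, h3, ht, hc, k2, sq_nonneg ((1 : ℝ) * c), mul_nonneg_of_nonpos_of_nonpos (Mathlib.Tactic.Linarith.sub_nonpos_of_le (sq_nonneg s)) (Mathlib.Tactic.Linarith.sub_nonpos_of_le hρ), mul_nonneg_of_nonpos_of_nonpos (Mathlib.Tactic.Linarith.sub_nonpos_of_le (sq_nonneg s)) (Mathlib.Tactic.Linarith.sub_nonpos_of_le h1), mul_nonneg_of_nonpos_of_nonpos (Mathlib.Tactic.Linarith.sub_nonpos_of_le (sq_nonneg s)) (Mathlib.Tactic.Linarith.sub_nonpos_of_le h3), mul_nonneg_of_nonpos_of_nonpos (Mathlib.Tactic.Linarith.sub_nonpos_of_le (sq_nonneg s)) (Mathlib.Tactic.Linarith.sub_nonpos_of_le ht), mul_nonneg_of_nonpos_of_nonpos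 (le_of_lt (Mathlib.Tactic.Linarith.sub_neg_of_lt hc)) (Mathlib.Tactic.Linarith.sub_nonpos_of_le k2)]

/-- Two orthonormal vectors and their cross product form a frame. -/
theorem frame_cross {a b : V3} (ha : dot a a = 1) (hb : dot b b = 1) (hab : dot a b = 0) :
    Frame a b (cross a b) := by
  refine ⟨ha, hb, by rw [cross_sq, ha, hb, hab]; norm_num, fun v w => ?_⟩
  have h := gram a b v w
  rw [ha, hb, hab] at h
  rw [dot_cross, dot_cross]
  linarith only [h]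

theorem Frame.swap23 {e1 e2 e3 : V3} (h : Frame e1 e2 e3) : Frame e1 e3 e2 :=
  ⟨h.u1, h.u3, h.u2, fun v w => by rw [h.pars v w]; ring⟩

theorem Frame.swap12 {e1 e2 e3 : V3} (h : Frame e1 e2 e3) : Frame e2 e1 e3 :=
  ⟨h.u2, h.u1, h.u3, fun v w => by rw [h.pars v w]; ring⟩

theorem Frame.neg2 {e1 e2 e3 : V3} (h : Frame e1 e2 e3) : Frame e1 (-e2) e3 :=
  ⟨h.u1, by rw [dot_neg_left, dot_neg_right, neg_neg]; exact h.u2, h.u3,
    fun v w => by rw [h.pars v w, dot_neg_left, dot_neg_left]; ring⟩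

theorem Frame.sum_sq {e1 e2 e3 : V3} (h : Frame e1 e2 e3) {v : V3} (hv : dot v v = 1) :
    dot e1 v ^ 2 + dot e2 v ^ 2 + dot e3 v ^ 2 = 1 := by
  have := h.pars v v
  rw [hv] at this
  linarith only [this]

/-- Normalisation of a nonzero vector. -/
theorem exists_unit {x : V3} (hx : 0 < dot x x) :
    ∃ t : ℝ, 0 < t ∧ t ^ 2 * dot x x = 1 ∧ dot (t • x) (t • x) = 1 := by
  have h1 : 0 < √(dot x x) := Real.sqrt_pos.2 hx
  have h2 : (√(dot x x))⁻¹ ^ 2 * dot x x = 1 := by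
    rw [inv_pow, Real.sq_sqrt hx.le]; field_simp
  refine ⟨(√(dot x x))⁻¹, inv_pos.2 h1, h2, ?_⟩
  rw [dot_smul_left, dot_smul_right]
  linarith only [h2, h2]

end Pool.Agent.Work.MP_d88d93_co
end

-- merged part: Pool.Agent.Work.MP_d88d93_co.Basic
section
/-! Basic facts on configurations: lines, partitions, frame defects. -/

namespace Pool.Agent.Work.MP_d88d93_co

open Finset

variable {α : Type} [DecidableEq α]

namespace Conf

variable (C : Conf α)

omit [DecidableEq α] in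
theorem s_comm (p q : α) : C.s p q = C.s q p := dot_comm _ _

omit [DecidableEq α] in
theorem s_self {p : α} (hp : p ∈ C.S) : C.s p p = 1 := C.unit p hp

omit [DecidableEq α] in
theorem s_sq_le {p q : α} (hp : p ∈ C.S) (hq : q ∈ C.S) : C.s p q ^ 2 ≤ 1 :=
  dot_sq_le_one (C.unit p hp) (C.unit q hq)

omit [DecidableEq α] in
theorem abs_s_le {p q : α} (hp : p ∈ C.S) (hq : q ∈ C.S) : |C.s p q| ≤ 1 :=
  abs_dot_le_one (C.unit p hp) (C.unit q hq)

omit [DecidableEq α] in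
theorem s_sq_lt {p q : α} (hp : p ∈ C.S) (hq : q ∈ C.S) (h : p ≠ q) : C.s p q ^ 2 < 1 :=
  C.ne p hp q hq h

omit [DecidableEq α] in
theorem mem_iff_det {l : Finset α} (hl : l ∈ C.L) {a b r : α} (ha : a ∈ l) (hb : b ∈ l)
    (hab : a ≠ b) (hr : r ∈ C.S) : r ∈ l ↔ det3 (C.u a) (C.u b) (C.u r) = 0 := by
  obtain ⟨w, hw, hmem⟩ := C.normal l hl
  have haS := C.sub l hl ha
  have hbS := C.sub l hl hb
  have h1 := (hmem a haS).1 ha
  have h2 := (hmem b hbS).1 hb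
  have h3 := cramer (C.u a) (C.u b) (C.u r) w w
  rw [h1, h2] at h3
  have h4 := det3_mul_det3 (C.u a) (C.u b) w (C.u a) (C.u b) w
  rw [C.unit a haS, C.unit b hbS, dot_comm (C.u a) w, dot_comm (C.u b) w, h1, h2,
    dot_comm (C.u b) (C.u a)] at h4
  have h5 := C.ne a haS b hbS hab
  have h6 : 0 < dot w w := lt_of_le_of_ne (dot_self_nonneg w) (Ne.symm hw)
  have h7 : det3 (C.u a) (C.u b) w ≠ 0 := by
    intro h0
    rw [h0] at h4
    linarith only [h4, h5, h6, mul_pos_of_neg_of_neg (Mathlib.Tactic.Linarith.sub_neg_of_lt h5) (Mathlib.Tactic.Linarith.sub_neg_of_lt h6)]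
  rw [hmem r hr]
  constructor
  · intro h
    rw [h] at h3
    have : det3 (C.u a) (C.u b) (C.u r) * dot w w = 0 := by linarith only [h3]
    exact (mul_eq_zero.1 this).resolve_right hw
  · intro h
    rw [h] at h3
    have : dot w (C.u r) * det3 (C.u a) (C.u b) w = 0 := by linarith only [h3]
    exact (mul_eq_zero.1 this).resolve_right h7

omit [DecidableEq α] in
theorem uniq {l l' : Finset α} (hl : l ∈ C.L) (hl' : l' ∈ C.L) {a b : α} (hab : a ≠ b)
    (ha : a ∈ l) (hb : b ∈ l) (ha' : a ∈ l') (hb' : b ∈ l') : l = l' := by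
  ext r
  constructor
  · intro hr
    have hrS := C.sub l hl hr
    exact (C.mem_iff_det hl' ha' hb' hab hrS).2 ((C.mem_iff_det hl ha hb hab hrS).1 hr)
  · intro hr
    have hrS := C.sub l' hl' hr
    exact (C.mem_iff_det hl ha hb hab hrS).2 ((C.mem_iff_det hl' ha' hb' hab hrS).1 hr)

theorem inter_le_one {l l' : Finset α} (hl : l ∈ C.L) (hl' : l' ∈ C.L) (h : l ≠ l') :
    (l ∩ l').card ≤ 1 := by
  rw [Finset.card_le_one]
  intro a ha b hb
  by_contra hab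
  rw [Finset.mem_inter] at ha hb
  exact h (C.uniq hl hl' hab ha.1 hb.1 ha.2 hb.2)

/-- The lines through `p` partition the other points. -/
theorem partition {p : α} (hp : p ∈ C.S) (f : α → ℝ) :
    ∑ q ∈ C.S.erase p, f q = ∑ l ∈ C.Lp p, ∑ q ∈ l.erase p, f q := by
  rw [← Finset.sum_biUnion]
  · apply Finset.sum_congr _ (fun _ _ => rfl)
    ext q
    simp only [Finset.mem_erase, Finset.mem_biUnion, mem_Lp]
    constructor
    · rintro ⟨h1, h2⟩
      obtain ⟨l, hl, h3, h4⟩ := C.cov p hp q h2 (Ne.symm h1)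
      exact ⟨l, ⟨hl, h3⟩, h1, h4⟩
    · rintro ⟨l, ⟨hl, _⟩, h1, h4⟩
      exact ⟨h1, C.sub l hl h4⟩
  · intro l hl l' hl' hne
    rw [Finset.mem_coe, mem_Lp] at hl hl'
    rw [Function.onFun, Finset.disjoint_left]
    intro q hq hq'
    rw [Finset.mem_erase] at hq hq'
    exact hne (C.uniq hl.1 hl'.1 hq.1 hq.2 hl.2 hq'.2 hl'.2)

/-- Double counting of incidences. -/
theorem sum_Lp (F : α → Finset α → ℝ) :
    ∑ p ∈ C.S, ∑ l ∈ C.Lp p, F p l = ∑ l ∈ C.L, ∑ p ∈ l, F p l := by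
  apply Finset.sum_comm'
  intro p l
  rw [mem_Lp]
  constructor
  · rintro ⟨_, h2, h3⟩
    exact ⟨h3, h2⟩
  · rintro ⟨h1, h2⟩
    exact ⟨C.sub l h2 h1, h2, h1⟩

omit [DecidableEq α] in
/-- Orthonormal basis `(u p, d)` of the plane of a line through `p`. -/
theorem plane {l : Finset α} (hl : l ∈ C.L) {p : α} (hp : p ∈ l) :
    ∃ d : V3, (∀ v : V3, dot v (C.u p) ^ 2 + dot v d ^ 2 ≤ dot v v) ∧
      (∀ q ∈ l, C.s p q ^ 2 + dot d (C.u q) ^ 2 = 1) ∧
      ∀ q ∈ l, ∀ v : V3, dot v (C.u q) = C.s p q * dot v (C.u p) + dot d (C.u q) * dot v d := by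
  obtain ⟨w, hw, hmem⟩ := C.normal l hl
  have h6 : 0 < dot w w := lt_of_le_of_ne (dot_self_nonneg w) (Ne.symm hw)
  obtain ⟨t, _, _, ht⟩ := exists_unit h6
  have hpS := C.sub l hl hp
  have h0 : ∀ q ∈ l, dot (t • w) (C.u q) = 0 := by
    intro q hq
    rw [dot_smul_left, (hmem q (C.sub l hl hq)).1 hq, mul_zero]
  have hF := frame_cross ht (C.unit p hpS) (h0 p hp)
  refine ⟨cross (t • w) (C.u p), fun v => ?_, fun q hq => ?_, fun q hq v => ?_⟩
  · have := hF.pars v v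
    rw [dot_comm v (C.u p), dot_comm v (cross _ _)]
    linarith only [this, sq_nonneg (dot (t • w) v), mul_self_nonneg (dot (t • w) v)]
  · have := hF.sum_sq (C.unit q (C.sub l hl hq))
    rw [h0 q hq] at this
    unfold s
    linarith only [this]
  · have := hF.pars v (C.u q)
    rw [h0 q hq] at this
    rw [this, dot_comm v (C.u p), dot_comm v (cross _ _)]
    unfold s
    ring

omit [DecidableEq α] in
theorem Dl_eq {l : Finset α} {p : α} {d : V3}
    (h2 : ∀ q ∈ l, C.s p q ^ 2 + dot d (C.u q) ^ 2 = 1)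
    (h3 : ∀ q ∈ l, ∀ v : V3,
      dot v (C.u q) = C.s p q * dot v (C.u p) + dot d (C.u q) * dot v d) :
    C.Dl l = (∑ q ∈ l, (2 * C.s p q ^ 2 - 1)) ^ 2 / 2
      + 2 * (∑ q ∈ l, C.s p q * dot d (C.u q)) ^ 2 := by
  have key : ∀ q ∈ l, ∀ q' ∈ l, C.s q q' ^ 2 = 1 / 2
      + (2 * C.s p q ^ 2 - 1) * (2 * C.s p q' ^ 2 - 1) / 2
      + 2 * ((C.s p q * dot d (C.u q)) * (C.s p q' * dot d (C.u q'))) := by
    intro q hq q' hq'
    have e1 := h3 q' hq' (C.u q)
    have e2 := h2 q hq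
    have e3 := h2 q' hq'
    have e4 : C.s q q' = C.s p q' * C.s p q + dot d (C.u q') * dot d (C.u q) := by
      rw [show C.s q q' = dot (C.u q) (C.u q') from rfl, e1, dot_comm (C.u q) (C.u p),
        dot_comm (C.u q) d]
      rfl
    rw [e4]
    have e5 : dot d (C.u q) ^ 2 = 1 - C.s p q ^ 2 := by linarith only [e2]
    have e6 : dot d (C.u q') ^ 2 = 1 - C.s p q' ^ 2 := by linarith only [e3]
    have : (C.s p q' * C.s p q + dot d (C.u q') * dot d (C.u q)) ^ 2 =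
        C.s p q' ^ 2 * C.s p q ^ 2 + dot d (C.u q') ^ 2 * dot d (C.u q) ^ 2
        + 2 * ((C.s p q * dot d (C.u q)) * (C.s p q' * dot d (C.u q'))) := by ring
    rw [this, e5, e6]
    ring
  unfold Dl
  rw [Finset.sum_congr rfl (fun q hq => Finset.sum_congr rfl (fun q' hq' => key q hq q' hq'))]
  rw [sq (∑ q ∈ l, (2 * C.s p q ^ 2 - 1)), sq (∑ q ∈ l, C.s p q * dot d (C.u q)),
    Finset.sum_mul_sum, Finset.sum_mul_sum]
  simp only [Finset.sum_add_distrib, Finset.sum_const, nsmul_eq_mul, ← Finset.sum_div,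
    ← Finset.mul_sum]
  ring

omit [DecidableEq α] in
theorem Dl_nonneg {l : Finset α} (hl : l ∈ C.L) : 0 ≤ C.Dl l := by
  obtain ⟨p, hp⟩ : l.Nonempty := Finset.card_pos.1 (by have := C.two l hl; omega)
  obtain ⟨d, _, h2, h3⟩ := C.plane hl hp
  rw [C.Dl_eq h2 h3]
  positivity

omit [DecidableEq α] in
theorem dl_sq {l : Finset α} (hl : l ∈ C.L) : C.dl l ^ 2 = C.Dl l :=
  Real.sq_sqrt (C.Dl_nonneg hl)

omit [DecidableEq α] in
/-- Plane basis together with the two first moment bounds. -/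
theorem plane' {l : Finset α} (hl : l ∈ C.L) {p : α} (hp : p ∈ l) :
    ∃ d : V3, (∀ v : V3, dot v (C.u p) ^ 2 + dot v d ^ 2 ≤ dot v v) ∧
      (∀ q ∈ l, C.s p q ^ 2 + dot d (C.u q) ^ 2 = 1) ∧
      (∀ q ∈ l, ∀ v : V3,
        dot v (C.u q) = C.s p q * dot v (C.u p) + dot d (C.u q) * dot v d) ∧
      |∑ q ∈ l, (2 * C.s p q ^ 2 - 1)| ≤ 2 * C.dl l ∧
      |∑ q ∈ l, C.s p q * dot d (C.u q)| ≤ C.dl l := by
  obtain ⟨d, h1, h2, h3⟩ := C.plane hl hp
  have h4 := C.Dl_eq h2 h3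
  have h5 := C.dl_sq hl
  have h6 := C.dl_nonneg l
  refine ⟨d, h1, h2, h3, ?_, ?_⟩
  · apply abs_le.2 (abs_le_of_sq_le_sq' _ (by linarith only [h6]))
    linarith only [h4, h5, sq_nonneg (∑ q ∈ l, C.s p q * dot d (C.u q)), sq_nonneg (∑ q ∈ l, C.s p q * dot d (C.u q)), sq_nonneg (C.dl l)]
  · apply abs_le.2 (abs_le_of_sq_le_sq' _ h6)
    linarith only [h4, h5, sq_nonneg (∑ q ∈ l, C.s p q * dot d (C.u q)),
      sq_nonneg (∑ q ∈ l, (2 * C.s p q ^ 2 - 1)), sq_nonneg (∑ q ∈ l, ((2 : ℝ) * C.s p q ^ (2 : ℕ) - (1 : ℝ))), sq_nonneg (C.dl l)]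

omit [DecidableEq α] in
theorem L1 {l : Finset α} (hl : l ∈ C.L) {p : α} (hp : p ∈ l) :
    |∑ q ∈ l, (2 * C.s p q ^ 2 - 1)| ≤ 2 * C.dl l := by
  obtain ⟨d, _, _, _, h, _⟩ := C.plane' hl hp
  exact h

omit [DecidableEq α] in
theorem L3 {l : Finset α} (hl : l ∈ C.L) {a : V3} (ha : dot a a = 1) :
    ∑ q ∈ l, dot a (C.u q) ^ 2 ≤ (l.card : ℝ) / 2 + 2 * C.dl l := by
  obtain ⟨p, hp⟩ : l.Nonempty := Finset.card_pos.1 (by have := C.two l hl; omega)
  obtain ⟨d, h1, h2, h3, h4, h5⟩ := C.plane' hl hp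
  have hA := h1 a
  rw [ha] at hA
  set A := dot a (C.u p)
  set B := dot a d
  have key : ∀ q ∈ l, dot a (C.u q) ^ 2 = (A ^ 2 + B ^ 2) / 2
      + (A ^ 2 - B ^ 2) / 2 * (2 * C.s p q ^ 2 - 1) + 2 * A * B * (C.s p q * dot d (C.u q)) := by
    intro q hq
    rw [h3 q hq a]
    have e5 : dot d (C.u q) ^ 2 = 1 - C.s p q ^ 2 := by linarith only [h2, hq, h2 q hq]
    have : (C.s p q * A + dot d (C.u q) * B) ^ 2 = C.s p q ^ 2 * A ^ 2 + dot d (C.u q) ^ 2 * B ^ 2
      + 2 * A * B * (C.s p q * dot d (C.u q)) := by ring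
    rw [this, e5]
    ring
  rw [Finset.sum_congr rfl key, Finset.sum_add_distrib, Finset.sum_add_distrib, ← Finset.mul_sum,
    ← Finset.mul_sum, Finset.sum_const, nsmul_eq_mul]
  have hd := C.dl_nonneg l
  have k1 : (A ^ 2 - B ^ 2) / 2 * ∑ q ∈ l, (2 * C.s p q ^ 2 - 1) ≤ C.dl l := by
    clear * - A B hA α l C p h4
    have h7 : |(A ^ 2 - B ^ 2) / 2| ≤ 1 / 2 := by
      rw [abs_le]; constructor <;> linarith only [hA, sq_nonneg A, sq_nonneg B, sq_nonneg A, sq_nonneg B]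
    calc _ ≤ |(A ^ 2 - B ^ 2) / 2 * ∑ q ∈ l, (2 * C.s p q ^ 2 - 1)| := le_abs_self _
      _ = |(A ^ 2 - B ^ 2) / 2| * |∑ q ∈ l, (2 * C.s p q ^ 2 - 1)| := abs_mul _ _
      _ ≤ 1 / 2 * (2 * C.dl l) := mul_le_mul h7 h4 (abs_nonneg _) (by norm_num)
      _ = C.dl l := by ring
  have k2 : 2 * A * B * ∑ q ∈ l, C.s p q * dot d (C.u q) ≤ C.dl l := by
    clear * - A B hA α l C p d h5
    have h7 : |2 * A * B| ≤ 1 := by
      rw [abs_le]; constructor <;> linarith only [hA, sq_nonneg (A + B), sq_nonneg (A - B), sq_nonneg (A + B), sq_nonneg (A - B)]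
    calc _ ≤ |2 * A * B * ∑ q ∈ l, C.s p q * dot d (C.u q)| := le_abs_self _
      _ = |2 * A * B| * |∑ q ∈ l, C.s p q * dot d (C.u q)| := abs_mul _ _
      _ ≤ 1 * C.dl l := mul_le_mul h7 h5 (abs_nonneg _) (by norm_num)
      _ = C.dl l := by ring
  have k3 : (l.card : ℝ) * ((A ^ 2 + B ^ 2) / 2) ≤ (l.card : ℝ) / 2 := by
    have : (0 : ℝ) ≤ l.card := Nat.cast_nonneg _
    linarith only [hA, mul_nonneg_of_nonpos_of_nonpos (Mathlib.Tactic.Linarith.sub_nonpos_of_le (Mathlib.Tactic.Linarith.natCast_nonneg ℝ #l)) (Mathlib.Tactic.Linarith.sub_nonpos_of_le hA)]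
  linarith only [k1, k2, k3]

theorem in_sub (ν : V3) (B : ℝ) (p : α) : C.In ν B p ⊆ C.S :=
  fun _ hq => (C.mem_In.1 hq).2.1

theorem in_abs {ν : V3} {B : ℝ} {p q : α} (hp : p ∈ C.S) (hB : 0 ≤ B) (hq : q ∈ C.In ν B p) :
    |dot ν (C.u q)| ≤ B := by
  obtain ⟨h1, h2, h3⟩ := C.mem_In.1 hq
  have h4 := C.s_sq_lt hp h2 (Ne.symm h1)
  apply abs_le.2 (abs_le_of_sq_le_sq' _ hB)
  have h5 : dot ν (C.u q) ^ 2 * (1 - C.s p q ^ 2) ≤ B ^ 2 * (1 - C.s p q ^ 2) := by
    linarith only [h3, sq_nonneg (dot ν (C.u p) - C.s p q * dot ν (C.u q)), sq_nonneg (dot ν (C.u p) - C.s p q * dot ν (C.u q))]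
  exact le_of_mul_le_mul_right h5 (by linarith)

theorem in_term {ν : V3} {B : ℝ} {p q : α} (hp : p ∈ C.S) (hB : 0 ≤ B) (hq : q ∈ C.In ν B p) :
    |C.s p q * (dot ν (C.u q) - C.s p q * dot ν (C.u p))| ≤ B := by
  obtain ⟨h1, h2, h3⟩ := C.mem_In.1 hq
  have h4 := C.s_sq_lt hp h2 (Ne.symm h1)
  have h5 : |dot ν (C.u q) - C.s p q * dot ν (C.u p)| ≤ B := by
    apply abs_le.2 (abs_le_of_sq_le_sq' _ hB)
    linarith only [h3, h4, mul_nonneg (sq_nonneg (dot ν (C.u p))) (sub_nonneg.2 h4.le),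
      mul_nonneg (sq_nonneg B) (sq_nonneg (C.s p q)), sq_nonneg (dot ν (C.u p)), sq_nonneg B, sq_nonneg (C.s p q)]
  rw [abs_mul]
  calc _ ≤ 1 * B := mul_le_mul (C.abs_s_le hp h2) h5 (abs_nonneg _) (by norm_num)
    _ = B := one_mul B

/-- First moment bound along lines of small inclination. -/
theorem in_sum {ν : V3} {B : ℝ} {p : α} (hp : p ∈ C.S) (hB : 0 ≤ B) :
    |∑ q ∈ C.In ν B p, C.s p q * (dot ν (C.u q) - C.s p q * dot ν (C.u p))| ≤ B * C.D p := by
  unfold In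
  rw [Finset.sum_filter, C.partition hp]
  unfold D
  rw [Finset.mul_sum]
  refine (Finset.abs_sum_le_sum_abs _ _).trans (Finset.sum_le_sum fun l hl => ?_)
  obtain ⟨hl1, hl2⟩ := C.mem_Lp.1 hl
  obtain ⟨d, h1, h2, h3, _, h5⟩ := C.plane' hl1 hl2
  have hiff : ∀ q ∈ l.erase p, (dot ν (C.u p) ^ 2 + dot ν (C.u q) ^ 2
      - 2 * C.s p q * dot ν (C.u p) * dot ν (C.u q) ≤ B ^ 2 * (1 - C.s p q ^ 2) ↔
      dot ν (C.u p) ^ 2 + dot ν d ^ 2 ≤ B ^ 2) := by
    intro q hq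
    rw [Finset.mem_erase] at hq
    have h6 := C.s_sq_lt hp (C.sub l hl1 hq.2) (Ne.symm hq.1)
    have e5 : dot d (C.u q) ^ 2 = 1 - C.s p q ^ 2 := by linarith only [h2, hq, h2 q hq.2]
    have e6 : dot ν (C.u p) ^ 2 + dot ν (C.u q) ^ 2
        - 2 * C.s p q * dot ν (C.u p) * dot ν (C.u q)
        = (dot ν (C.u p) ^ 2 + dot ν d ^ 2) * (1 - C.s p q ^ 2) := by
      rw [h3 q hq.2 ν]
      have : (C.s p q * dot ν (C.u p) + dot d (C.u q) * dot ν d) ^ 2 =
        C.s p q ^ 2 * dot ν (C.u p) ^ 2 + dot d (C.u q) ^ 2 * dot ν d ^ 2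
          + 2 * C.s p q * dot ν (C.u p) * (dot d (C.u q) * dot ν d) := by ring
      rw [this, e5]
      ring
    rw [e6]
    exact mul_le_mul_iff_left₀ (by linarith)
  have hd := C.dl_nonneg l
  by_cases hc : dot ν (C.u p) ^ 2 + dot ν d ^ 2 ≤ B ^ 2
  · have e1 : ∀ q ∈ l.erase p, (if dot ν (C.u p) ^ 2 + dot ν (C.u q) ^ 2
        - 2 * C.s p q * dot ν (C.u p) * dot ν (C.u q) ≤ B ^ 2 * (1 - C.s p q ^ 2) then
        C.s p q * (dot ν (C.u q) - C.s p q * dot ν (C.u p)) else 0)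
        = dot ν d * (C.s p q * dot d (C.u q)) := by
      intro q hq
      rw [if_pos ((hiff q hq).2 hc), h3 q (Finset.mem_of_mem_erase hq) ν]
      ring
    rw [Finset.sum_congr rfl e1, ← Finset.mul_sum]
    have e2 : dot d (C.u p) = 0 := by
      have := h2 p hl2
      rw [C.s_self hp] at this
      exact pow_eq_zero_iff (two_ne_zero) |>.1 (by linarith only [this])
    rw [Finset.sum_erase _ (by rw [e2, mul_zero]), abs_mul]
    have e3 : |dot ν d| ≤ B := by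
      apply abs_le.2 (abs_le_of_sq_le_sq' _ hB)
      linarith only [hc, sq_nonneg (dot ν (C.u p)), sq_nonneg (dot ν (C.u p))]
    exact mul_le_mul e3 h5 (abs_nonneg _) hB
  · rw [Finset.sum_eq_zero (fun q hq => if_neg (fun h => hc ((hiff q hq).1 h))), abs_zero]
    positivity

/-- Counting pairs of distinct points by lines. -/
theorem sum_pairs (F : α → α → ℝ) :
    ∑ p ∈ C.S, ∑ q ∈ C.S.erase p, F p q = ∑ l ∈ C.L, ∑ p ∈ l, ∑ q ∈ l.erase p, F p q := by
  rw [← C.sum_Lp (fun p l => ∑ q ∈ l.erase p, F p q)]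
  exact Finset.sum_congr rfl (fun p hp => C.partition hp (F p))

theorem sum_erase_one {T : Finset α} {p : α} (hp : p ∈ T) :
    ∑ _q ∈ T.erase p, (1 : ℝ) = (T.card : ℝ) - 1 := by
  rw [Finset.sum_const, Finset.card_erase_of_mem hp, nsmul_eq_mul, mul_one,
    Nat.cast_sub (Finset.card_pos.2 ⟨p, hp⟩), Nat.cast_one]

theorem sum_Lp_card {p : α} (hp : p ∈ C.S) :
    ∑ l ∈ C.Lp p, ((l.card : ℝ) - 1) = C.n - 1 := by
  have h := C.partition hp (fun _ => 1)
  rw [sum_erase_one hp] at h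
  unfold n
  rw [h]
  exact Finset.sum_congr rfl (fun l hl => (sum_erase_one (C.mem_Lp.1 hl).2).symm)

theorem sum_card_mul :
    ∑ l ∈ C.L, (l.card : ℝ) * ((l.card : ℝ) - 1) = C.n * (C.n - 1) := by
  have h := C.sum_Lp (fun _ l => (l.card : ℝ) - 1)
  rw [Finset.sum_congr rfl (fun p hp => C.sum_Lp_card hp)] at h
  simp only [Finset.sum_const, nsmul_eq_mul] at h
  exact h.symm

theorem sum_card_Lp : ∑ p ∈ C.S, ((C.Lp p).card : ℝ) = ∑ l ∈ C.L, (l.card : ℝ) := by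
  have h := C.sum_Lp (fun _ _ => (1 : ℝ))
  simpa using h

/-- The basic identity for the total frame defect. -/
theorem sum_Dl : ∑ l ∈ C.L, C.Dl l = ∑ p ∈ C.S, ∑ q ∈ C.S, C.s p q ^ 2
    - C.n ^ 2 / 2 - C.n / 2 + (∑ l ∈ C.L, (l.card : ℝ)) / 2 := by
  have h1 := C.sum_pairs (fun p q => C.s p q ^ 2)
  have e : ∀ T : Finset α, T ⊆ C.S →
      ∑ p ∈ T, ∑ q ∈ T.erase p, C.s p q ^ 2 = ∑ p ∈ T, ∑ q ∈ T, C.s p q ^ 2 - T.card := by
    intro T hT
    have : ∀ p ∈ T, ∑ q ∈ T.erase p, C.s p q ^ 2 = ∑ q ∈ T, C.s p q ^ 2 - 1 := by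
      intro p hp
      rw [← Finset.add_sum_erase T _ hp, C.s_self (hT hp)]
      ring
    rw [Finset.sum_congr rfl this, Finset.sum_sub_distrib]
    simp
  rw [e C.S (Finset.Subset.refl _), Finset.sum_congr rfl (fun l hl => e l (C.sub l hl))] at h1
  have h2 := C.sum_card_mul
  have h3 : ∑ l ∈ C.L, C.Dl l = ∑ l ∈ C.L, (∑ p ∈ l, ∑ q ∈ l, C.s p q ^ 2 - l.card)
      - (∑ l ∈ C.L, (l.card : ℝ) * ((l.card : ℝ) - 1)) / 2 + (∑ l ∈ C.L, (l.card : ℝ)) / 2 := by
    rw [Finset.sum_div, Finset.sum_div, ← Finset.sum_sub_distrib, ← Finset.sum_add_distrib]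
    apply Finset.sum_congr rfl
    intro l _
    unfold Dl
    ring
  rw [h3, ← h1, h2]
  unfold n
  ring

theorem sum_D {ε : ℝ} (h : C.Tight ε) : ∑ p ∈ C.S, C.D p ≤ 2 * ε * C.n ^ 2 := by
  have h1 : ∑ p ∈ C.S, C.D p = ∑ l ∈ C.L, (l.card : ℝ) * C.dl l := by
    unfold D
    rw [C.sum_Lp (fun _ l => C.dl l)]
    simp
  have h2 := Finset.sum_mul_sq_le_sq_mul_sq C.L (fun l => (l.card : ℝ)) (fun l => C.dl l)
  rw [Finset.sum_congr rfl (fun l hl => C.dl_sq hl)] at h2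
  have h3 : ∑ l ∈ C.L, (l.card : ℝ) ^ 2 ≤ 2 * C.n ^ 2 := by
    have h4 : ∑ l ∈ C.L, (l.card : ℝ) ^ 2 ≤ ∑ l ∈ C.L, 2 * ((l.card : ℝ) * ((l.card : ℝ) - 1)) := by
      apply Finset.sum_le_sum
      intro l hl
      have : (2 : ℝ) ≤ l.card := by exact_mod_cast C.two l hl
      linarith only [this, mul_nonneg_of_nonpos_of_nonpos (Mathlib.Tactic.Linarith.sub_nonpos_of_le (Mathlib.Tactic.Linarith.natCast_nonneg ℝ #l)) (Mathlib.Tactic.Linarith.sub_nonpos_of_le this)]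
    rw [← Finset.mul_sum, C.sum_card_mul] at h4
    have := C.n_nonneg
    linarith only [h4, this]
  have hn := h.n_pos
  have he := h.eps_pos
  rw [h1]
  apply (abs_le_of_sq_le_sq' _ (by positivity)).2
  have h5 := h.sq
  have h6 : 0 ≤ ∑ l ∈ C.L, C.Dl l := Finset.sum_nonneg (fun l hl => C.Dl_nonneg hl)
  calc _ ≤ (∑ l ∈ C.L, (l.card : ℝ) ^ 2) * ∑ l ∈ C.L, C.Dl l := h2
    _ ≤ (2 * C.n ^ 2) * (ε ^ 2 * C.n ^ 2) := mul_le_mul h3 h5 h6 (by positivity)
    _ ≤ (2 * ε * C.n ^ 2) ^ 2 := by linarith only [sq_nonneg (ε * C.n ^ 2), sq_nonneg (ε * C.n ^ (2 : ℕ))]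

omit [DecidableEq α] in
theorem dl_le {ε : ℝ} (h : C.Tight ε) {l : Finset α} (hl : l ∈ C.L) : C.dl l ≤ ε * C.n := by
  have hn := h.n_pos
  have he := h.eps_pos
  apply (abs_le_of_sq_le_sq' _ (by positivity)).2
  rw [C.dl_sq hl, mul_pow]
  exact (Finset.single_le_sum (fun l hl => C.Dl_nonneg hl) hl).trans h.sq

/-- Few points have a large defect. -/
theorem markov {ε : ℝ} (h : C.Tight ε) {T : Finset α} (hT : T ⊆ C.S) {t : ℝ}
    (ht : ∀ p ∈ T, t ≤ C.D p) : t * T.card ≤ 2 * ε * C.n ^ 2 := by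
  calc t * T.card = ∑ _p ∈ T, t := by simp [mul_comm]
    _ ≤ ∑ p ∈ T, C.D p := Finset.sum_le_sum ht
    _ ≤ ∑ p ∈ C.S, C.D p :=
        Finset.sum_le_sum_of_subset_of_nonneg hT (fun p _ _ => C.D_nonneg p)
    _ ≤ _ := C.sum_D h

/-- A point off a line lies on at least as many lines as the line has points. -/
theorem card_le_Lp {l : Finset α} (hl : l ∈ C.L) {p : α} (hp : p ∈ C.S) (hpl : p ∉ l) :
    l.card ≤ (C.Lp p).card := by
  have h : ∀ q ∈ l, ∃ g ∈ C.L, p ∈ g ∧ q ∈ g := fun q hq =>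
    C.cov p hp q (C.sub l hl hq) (fun e => hpl (e ▸ hq))
  choose! g hg using h
  apply Finset.card_le_card_of_injOn g
  · intro q hq
    exact C.mem_Lp.2 ⟨(hg q hq).1, (hg q hq).2.1⟩
  · intro q hq q' hq' e
    by_contra hne
    have h1 : g q = l := C.uniq (hg q hq).1 hl hne (hg q hq).2.2 (e ▸ (hg q' hq').2.2) hq hq'
    exact hpl (h1 ▸ (hg q hq).2.1)

end Conf

/-- Pigeonhole principle for a decreasing chain of finite sets. -/
theorem chain_pigeon (F : ℕ → Finset α) (hF : ∀ j, F (j + 1) ⊆ F j) (J : ℕ) (hJ : 0 < J) :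
    ∃ j < J, (J : ℝ) * ((F j \ F (j + 1)).card : ℝ) ≤ (F 0).card := by
  by_contra hcon
  push Not at hcon
  have h1 : ∀ k, ∑ j ∈ Finset.range k, ((F j \ F (j + 1)).card : ℝ) + (F k).card = (F 0).card := by
    intro k
    induction k with
    | zero => simp
    | succ k ih =>
      rw [Finset.sum_range_succ, ← ih]
      have := Finset.card_sdiff_add_card_eq_card (hF k)
      have h2 : ((F k \ F (k + 1)).card : ℝ) + (F (k + 1)).card = (F k).card := by exact_mod_cast this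
      linarith only [h2]
  have h2 : ∑ _j ∈ Finset.range J, ((F 0).card : ℝ)
      < ∑ j ∈ Finset.range J, (J : ℝ) * ((F j \ F (j + 1)).card : ℝ) :=
    Finset.sum_lt_sum_of_nonempty (Finset.nonempty_range_iff.2 hJ.ne')
      (fun j hj => hcon j (Finset.mem_range.1 hj))
  rw [← Finset.mul_sum, Finset.sum_const, Finset.card_range, nsmul_eq_mul] at h2
  have h3 := h1 J
  have h4 : (0 : ℝ) < J := by exact_mod_cast hJ
  have h5 : (0 : ℝ) ≤ (F J).card := by positivity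
  linarith only [h2, h3, mul_nonneg_of_nonpos_of_nonpos (Mathlib.Tactic.Linarith.sub_nonpos_of_le (Mathlib.Tactic.Linarith.natCast_nonneg ℝ J)) (Mathlib.Tactic.Linarith.sub_nonpos_of_le (Mathlib.Tactic.Linarith.natCast_nonneg ℝ #(F J))), Mathlib.Tactic.Linarith.mul_zero_eq (Mathlib.Tactic.Linarith.sub_nonpos_of_le (Mathlib.Tactic.Linarith.natCast_nonneg ℝ J)) (sub_eq_zero_of_eq h3)]

end Pool.Agent.Work.MP_d88d93_co
end

-- merged part: Pool.Agent.Work.MP_d88d93_co.T4a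
section
/-! Three orthogonal clusters: mixed lines, defects and sizes. -/

namespace Pool.Agent.Work.MP_d88d93_co

open Finset

variable {α : Type} [DecidableEq α]

theorem dom_T4a {w1 w2 w3 x1 x2 x3 κ : ℝ} (hκ : κ ≤ 1 / 10 ^ 24)
    (hx : x1 ^ 2 + x2 ^ 2 + x3 ^ 2 = 1) (h1 : 1 - x1 ^ 2 ≤ κ)
    (h : w1 * x1 + w2 * x2 + w3 * x3 = 0) : |w1| ≤ 2 / 10 ^ 12 * (|w2| + |w3|) := by
  have a2 : |x2| ≤ 1 / 10 ^ 12 :=
    abs_le.2 (abs_le_of_sq_le_sq' (by linarith only [hκ, hx, h1, sq_nonneg x3]) (by norm_num))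
  have a3 : |x3| ≤ 1 / 10 ^ 12 :=
    abs_le.2 (abs_le_of_sq_le_sq' (by linarith only [hκ, hx, h1, sq_nonneg x2]) (by norm_num))
  have a1 : 1 / 2 ≤ |x1| :=
    (abs_le_of_sq_le_sq' (by rw [sq_abs]; linarith only [hκ, h1]) (abs_nonneg _)).2
  have b : |w1| * |x1| ≤ |w2| * |x2| + |w3| * |x3| := by
    rw [← abs_mul, ← abs_mul, ← abs_mul, show w1 * x1 = -(w2 * x2 + w3 * x3) by linarith only [h], abs_neg]
    exact abs_add_le _ _
  linarith only [b, a1, a2, a3, mul_le_mul_of_nonneg_left a1 (abs_nonneg w1),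
    mul_le_mul_of_nonneg_left a2 (abs_nonneg w2), mul_le_mul_of_nonneg_left a3 (abs_nonneg w3)]

theorem ind_T4a (l A : Finset α) :
    ∑ q ∈ l, (if q ∈ A then (1 : ℝ) else 0) = ((l ∩ A).card : ℝ) := by
  rw [Finset.sum_boole, Finset.filter_mem_eq_inter]

omit [DecidableEq α] in
theorem mixed (C : Conf α) {e1 e2 e3 : V3} (hF : Frame e1 e2 e3) {κ : ℝ} (hκ : κ ≤ 1 / 10 ^ 24)
    {l : Finset α} (hl : l ∈ C.L) {p q : α} (hp : p ∈ l) (hq : q ∈ l)
    (hpA : p ∈ C.near e1 κ) (hqB : q ∈ C.near e2 κ) :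
    ∃ m c : ℝ, |m| ≤ 1 / 10 ^ 11 ∧
      (∀ r ∈ C.S, (r ∈ l ↔ dot e3 (C.u r) = m * dot e2 (C.u r) + c * dot e1 (C.u r))) ∧
      ∀ r ∈ l, r ∉ C.near e3 κ := by
  obtain ⟨w, hw, hmem⟩ := C.normal l hl
  have h0 : ∀ r ∈ l, dot e1 w * dot e1 (C.u r) + dot e2 w * dot e2 (C.u r) +
      dot e3 w * dot e3 (C.u r) = 0 := fun r hr => by
    rw [← hF.pars]
    exact (hmem r (C.sub l hl hr)).1 hr
  have hs : ∀ r ∈ l, dot e1 (C.u r) ^ 2 + dot e2 (C.u r) ^ 2 + dot e3 (C.u r) ^ 2 = 1 :=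
    fun r hr => hF.sum_sq (C.unit r (C.sub l hl hr))
  have h1 := dom_T4a hκ (hs p hp) (C.mem_near.1 hpA).2 (h0 p hp)
  have h2 := dom_T4a (w1 := dot e2 w) (w2 := dot e1 w) (w3 := dot e3 w) (x2 := dot e1 (C.u q))
    (x3 := dot e3 (C.u q)) hκ (by linarith only [hs, hq, hs q hq]) (C.mem_near.1 hqB).2 (by linarith only [h0, hq, h0 q hq])
  have n1 := abs_nonneg (dot e1 w)
  have n2 := abs_nonneg (dot e2 w)
  have h3 : 0 < |dot e3 w| := by
    clear * - e3 w hw e1 n1 e2 h1 h2 n2 hF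
    refine lt_of_le_of_ne (abs_nonneg _) fun h => hw ?_
    have a1 : dot e1 w = 0 := abs_eq_zero.1 (by linarith only [n1, h1, h2, h])
    have a2 : dot e2 w = 0 := abs_eq_zero.1 (by linarith only [n2, h1, h2, h])
    rw [hF.pars, a1, a2, abs_eq_zero.1 h.symm]
    ring
  have h4 : dot e3 w ≠ 0 := abs_pos.1 h3
  refine ⟨-dot e2 w / dot e3 w, -dot e1 w / dot e3 w, ?_, fun r hr => ?_, fun r hr hr' => ?_⟩
  · rw [abs_div, abs_neg, div_le_iff₀ h3]
    linarith only [h1, h2, h3]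
  · rw [hmem r hr, hF.pars, div_mul_eq_mul_div, div_mul_eq_mul_div, ← add_div, eq_div_iff h4]
    constructor <;> intro h <;> linarith only [h]
  · have h5 := dom_T4a (w1 := dot e3 w) (w2 := dot e1 w) (w3 := dot e2 w) (x2 := dot e1 (C.u r))
      (x3 := dot e2 (C.u r)) hκ (by linarith only [hs, hr, hs r hr]) (C.mem_near.1 hr').2
      (by linarith only [h0, hr, h0 r hr])
    linarith only [h1, h2, h3, h5]

theorem defect (C : Conf α) {a : V3} (ha : dot a a = 1) {κ : ℝ} (hκ : 0 ≤ κ) {T : Finset α}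
    {p : α} (hp : p ∈ C.near a κ) (hj : ((C.S \ (C.near a κ ∪ T)).card : ℝ) ≤ κ * C.n)
    (hD : C.D p ≤ κ * C.n) :
    ∑ l ∈ C.Lp p, (((l ∩ C.near a κ).card - (l ∩ T).card : ℕ) : ℝ) ≤ 19 * κ * C.n := by
  obtain ⟨hpS, hpa⟩ := C.mem_near.1 hp
  set A := C.near a κ with hA
  set J := C.S \ (A ∪ T) with hJ
  have hpJ : p ∉ J := fun h => (Finset.mem_sdiff.1 h).2 (Finset.mem_union_left _ hp)
  have key : ∀ l ∈ C.Lp p, (((l ∩ A).card - (l ∩ T).card : ℕ) : ℝ) ≤
      16 * κ * ((l.card : ℝ) - 1) + ∑ q ∈ l.erase p, (if q ∈ J then (1 : ℝ) else 0) +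
        2 * C.dl l := by
    clear * - α C p A T κ J a ha hpS hpa hκ hpJ
    intro l hl
    obtain ⟨hl, hpl⟩ := C.mem_Lp.1 hl
    have h1 : ∑ q ∈ l, ((1 - 8 * κ) * (if q ∈ A then (1 : ℝ) else 0) -
        (if q ∈ T then (1 : ℝ) else 0) - (if q ∈ J then (1 : ℝ) else 0)) ≤
        ∑ q ∈ l, (2 * C.s p q ^ 2 - 1) := by
      refine Finset.sum_le_sum fun q hq => ?_
      have hqS := C.sub l hl hq
      have h0 := sq_nonneg (C.s p q)
      by_cases hqA : q ∈ A
      · have h2 : 1 - C.s p q ^ 2 ≤ _ := tri ha (C.unit p hpS) (C.unit q hqS)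
        have h3 := (C.mem_near.1 hqA).2
        rw [if_pos hqA]
        split_ifs <;> linarith only [hpa, h2, h3]
      · rw [if_neg hqA]
        by_cases hqT : q ∈ T
        · rw [if_pos hqT]
          split_ifs <;> linarith only [h0]
        · rw [if_neg hqT, if_pos (Finset.mem_sdiff.2 ⟨hqS, by simp [hqA, hqT]⟩)]
          linarith
    rw [Finset.sum_sub_distrib, Finset.sum_sub_distrib, ← Finset.mul_sum, ind_T4a, ind_T4a,
      ← Finset.sum_erase l (if_neg hpJ : (if p ∈ J then (1 : ℝ) else 0) = 0)] at h1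
    have h2 := (le_abs_self _).trans (C.L1 hl hpl)
    have h3 : ((l ∩ A).card : ℝ) ≤ l.card := by
      exact_mod_cast Finset.card_le_card Finset.inter_subset_left
    have h4 : (2 : ℝ) ≤ l.card := by exact_mod_cast C.two l hl
    have h5 : κ * ((l ∩ A).card : ℝ) ≤ κ * (2 * ((l.card : ℝ) - 1)) :=
      mul_le_mul_of_nonneg_left (by linarith) hκ
    rcases le_total (l ∩ T).card (l ∩ A).card with h | h
    · rw [Nat.cast_sub h]
      linarith only [h1, h2, h5]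
    · have h6 : 0 ≤ ∑ q ∈ l.erase p, (if q ∈ J then (1 : ℝ) else 0) :=
        Finset.sum_nonneg fun q _ => by split_ifs <;> norm_num
      have h7 : 0 ≤ κ * ((l.card : ℝ) - 1) := mul_nonneg hκ (by linarith only [h4])
      rw [Nat.sub_eq_zero_of_le h, Nat.cast_zero]
      linarith only [h6, h7, C.dl_nonneg l]
  refine (Finset.sum_le_sum key).trans ?_
  rw [Finset.sum_add_distrib, Finset.sum_add_distrib, ← Finset.mul_sum, ← Finset.mul_sum,
    C.sum_Lp_card hpS, ← C.partition hpS, ind_T4a]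
  have h1 : ((C.S.erase p ∩ J).card : ℝ) ≤ J.card := by
    exact_mod_cast Finset.card_le_card Finset.inter_subset_right
  unfold Conf.D at hD
  linarith only [hκ, hD, hj, h1]

theorem sizes (C : Conf α) {ε κ : ℝ} (hT : C.Tight ε) (hε : ε ≤ κ) {e1 e2 e3 : V3}
    (hF : Frame e1 e2 e3)
    (hj : ((C.S \ (C.near e1 κ ∪ C.near e2 κ ∪ C.near e3 κ)).card : ℝ) ≤ κ * C.n) :
    C.n / 3 - 3 * κ * C.n ≤ ((C.near e1 κ).card : ℝ) ∧
      ((C.near e1 κ).card : ℝ) ≤ C.n / 3 + 3 * κ * C.n := by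
  have hn := hT.n_pos
  have hκ : 0 ≤ κ := hT.eps_pos.le.trans hε
  have h1 := abs_le.1 ((hT.iso e1 hF.u1).trans (mul_le_mul_of_nonneg_right hε hn.le))
  have hA : C.near e1 κ ⊆ C.S := fun p hp => (C.mem_near.1 hp).1
  set J := C.S \ (C.near e1 κ ∪ C.near e2 κ ∪ C.near e3 κ) with hJ
  constructor
  · have h2 : ∑ p ∈ C.S, dot e1 (C.u p) ^ 2 ≤ ∑ p ∈ C.S,
        ((if p ∈ C.near e1 κ then (1 : ℝ) else 0) + (if p ∈ J then (1 : ℝ) else 0) + κ) := by
      clear * - α e1 C κ J e2 e3 hF hκ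
      refine Finset.sum_le_sum fun p hp => ?_
      have a1 := hF.sum_sq (C.unit p hp)
      have a2 := sq_nonneg (dot e2 (C.u p))
      have a3 := sq_nonneg (dot e3 (C.u p))
      by_cases b1 : p ∈ C.near e1 κ
      · rw [if_pos b1]
        split_ifs <;> linarith only [hκ, a1, a2, a3]
      rw [if_neg b1]
      by_cases b2 : p ∈ J
      · rw [if_pos b2]
        linarith only [hκ, a1, a2, a3]
      rw [if_neg b2]
      have b3 : p ∈ C.near e2 κ ∨ p ∈ C.near e3 κ := by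
        by_contra h
        exact b2 (Finset.mem_sdiff.2 ⟨hp, by simpa [b1] using h⟩)
      rcases b3 with h | h <;> linarith only [a1, a3, h, a2, (C.mem_near.1 h).2]
    rw [Finset.sum_add_distrib, Finset.sum_add_distrib, ind_T4a, ind_T4a, Finset.sum_const,
      nsmul_eq_mul, Finset.inter_eq_right.2 hA, Finset.inter_eq_right.2 Finset.sdiff_subset] at h2
    have e : (C.S.card : ℝ) = C.n := rfl
    rw [e] at h2
    linarith only [h1, hj, h2, h1.1]
  · have h2 : ∑ _p ∈ C.near e1 κ, (1 - κ) ≤ ∑ p ∈ C.S, dot e1 (C.u p) ^ 2 :=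
      (Finset.sum_le_sum fun p hp => by linarith only [hp, (C.mem_near.1 hp).2]).trans
        (Finset.sum_le_sum_of_subset_of_nonneg hA fun p _ _ => sq_nonneg _)
    rw [Finset.sum_const, nsmul_eq_mul] at h2
    linarith only [h1, h2, hA, hκ, h1.2, mul_le_mul_of_nonneg_left (C.card_le_n hA) hκ, mul_nonneg hκ hn.le]

end Pool.Agent.Work.MP_d88d93_co
end

-- merged part: Pool.Agent.Work.MP_d88d93_co.Core1
section
/-! Levels of the mixed lines: disjoint tiles in a zone. -/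

namespace Pool.Agent.Work.MP_d88d93_co

open Finset

variable {α : Type} [DecidableEq α]

theorem tri_core1 (A l : Finset α) (f : α → ℝ) (h : ∀ t ∈ A, (t ∈ l ↔ f t = 0)) :
    A.card = (A.filter fun t => f t < 0).card + (l ∩ A).card +
      (A.filter fun t => 0 < f t).card := by
  have h1 := card_filter_add_card_filter_not (s := A) (fun t => f t < 0)
  have h2 := card_filter_add_card_filter_not (s := A.filter fun t => ¬ f t < 0)
    (fun t => 0 < f t)
  have h3 : (A.filter fun t => ¬ f t < 0).filter (fun t => 0 < f t) =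
      A.filter fun t => 0 < f t := by
    ext t
    simp only [mem_filter]
    exact ⟨fun h => ⟨h.1.1, h.2⟩, fun h => ⟨⟨h.1, not_lt.2 h.2.le⟩, h.2⟩⟩
  have h4 : (A.filter fun t => ¬ f t < 0).filter (fun t => ¬ 0 < f t) = l ∩ A := by
    ext t
    simp only [mem_filter, mem_inter, not_lt]
    exact ⟨fun h' => ⟨(h t h'.1.1).2 (le_antisymm h'.2 h'.1.2), h'.1.1⟩,
      fun h' => ⟨⟨h'.2, ((h t h'.2).1 h'.1).ge⟩, ((h t h'.2).1 h'.1).le⟩⟩
  rw [h3, h4] at h2
  omega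

theorem tile_core1 (A l : Finset α) (f f' : α → ℝ) (h : ∀ t ∈ A, (t ∈ l ↔ f t = 0))
    (hlt : ∀ t ∈ A, f' t < f t) :
    (A.filter fun t => f t < 0).card + (l ∩ A).card ≤ (A.filter fun t => f' t < 0).card := by
  rw [← card_union_of_disjoint]
  · refine card_le_card fun t ht => ?_
    rcases mem_union.1 ht with ht | ht
    · exact mem_filter.2 ⟨(mem_filter.1 ht).1, (hlt t (mem_filter.1 ht).1).trans (mem_filter.1 ht).2⟩
    · have h1 := mem_inter.1 ht
      exact mem_filter.2 ⟨h1.2, (hlt t h1.2).trans_eq ((h t h1.2).1 h1.1)⟩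
  · refine disjoint_left.2 fun t ht ht' => ?_
    have h1 := mem_inter.1 ht'
    exact (mem_filter.1 ht).2.ne ((h t h1.2).1 h1.1)

theorem pos_core1 {a e y : ℝ} (ha : |a| ≤ e) (he : 0 < e) (hy : |y| < 1) : 0 < a * y + e := by
  have h1 : |a * y| < e := by
    rw [abs_mul]
    calc |a| * |y| ≤ e * |y| := mul_le_mul_of_nonneg_right ha (abs_nonneg _)
      _ < e * 1 := mul_lt_mul_of_pos_left hy he
      _ = e := mul_one _
  linarith only [h1, (abs_lt.1 h1).1]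

variable {X X' B : Finset α} {LL : Finset (Finset α)} {Y Z : α → ℝ}
  {m c : Finset α → ℝ} {d : ℕ}

theorem uniq_core1 (H : CoreHyp X X' B LL Y Z m c d) {l l' : Finset α} (hl : l ∈ LL)
    (hl' : l' ∈ LL) {p q : α} (hp : p ∈ X ∪ X') (hq : q ∈ B) (h1 : p ∈ l) (h2 : p ∈ l')
    (h3 : q ∈ l) (h4 : q ∈ l') : l = l' := by
  by_contra hne
  have hpq : p ≠ q := fun e => disjoint_left.1 H.disj hp (e ▸ hq)
  exact hpq (card_le_one.1 (H.one l hl l' hl' hne) p (mem_inter.2 ⟨h1, h2⟩) q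
    (mem_inter.2 ⟨h3, h4⟩))

theorem sweep_core1 (H : CoreHyp X X' B LL Y Z m c d) {p : α} (hp : p ∈ X ∪ X')
    (E T : Finset α) (hT : T ⊆ X ∪ X')
    (h : ∀ t ∈ T, ∃ l' ∈ LL, p ∈ l' ∧ t ∈ l' ∧ l' ∩ B ⊆ E) : T.card ≤ d + E.card := by
  set FF := LL.filter fun l' => p ∈ l' ∧ l' ∩ B ⊆ E with hFF
  have h1 : T.card ≤ ∑ l' ∈ FF, (l' ∩ (X ∪ X')).card := by
    refine le_trans (card_le_card fun t ht => ?_) card_biUnion_le
    obtain ⟨l', hl', hpl, htl, hE⟩ := h t ht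
    exact mem_biUnion.2 ⟨l', mem_filter.2 ⟨hl', hpl, hE⟩, mem_inter.2 ⟨htl, hT ht⟩⟩
  have h2 : ∑ l' ∈ FF, (l' ∩ (X ∪ X')).card ≤
      ∑ l' ∈ FF, ((l' ∩ (X ∪ X')).card - (l' ∩ B).card) + ∑ l' ∈ FF, (l' ∩ B).card := by
    rw [← sum_add_distrib]
    exact sum_le_sum fun _ _ => by omega
  have h3 : ∑ l' ∈ FF, ((l' ∩ (X ∪ X')).card - (l' ∩ B).card) ≤ d :=
    le_trans (sum_le_sum_of_subset fun l' hl' =>
      mem_filter.2 ⟨(mem_filter.1 hl').1, (mem_filter.1 hl').2.1⟩) (H.defect p hp)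
  have h4 : ∑ l' ∈ FF, (l' ∩ B).card ≤ E.card := by
    rw [← card_biUnion]
    · refine card_le_card fun q hq => ?_
      obtain ⟨l', hl', hq'⟩ := mem_biUnion.1 hq
      exact (mem_filter.1 hl').2.2 hq'
    · intro l₁ h₁ l₂ h₂ hne
      refine disjoint_left.2 fun q hq hq' => hne ?_
      have e₁ := mem_filter.1 (mem_coe.1 h₁)
      have e₂ := mem_filter.1 (mem_coe.1 h₂)
      exact uniq_core1 H e₁.1 e₂.1 hp (mem_inter.1 hq).2 e₁.2.1 e₂.2.1 (mem_inter.1 hq).1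
        (mem_inter.1 hq').1
  omega

theorem sign_core1 (H : CoreHyp X X' B LL Y Z m c d) {l l' : Finset α} (hl : l ∈ LL)
    (hB : (l ∩ B).Nonempty) (hl' : l' ∈ LL) {p t q : α} (hp : p ∈ X ∪ X') (ht : t ∈ X ∪ X')
    (h1 : p ∈ l) (h2 : p ∈ l') (h3 : t ∈ l') (hq : q ∈ l' ∩ B) :
    ∃ k e : ℝ, 0 < e ∧ Z t - m l * Y t - c l = k * (Y t - Y p) ∧
      Z q - m l - c l * Y q = k * e := by
  have hB' : (l' ∩ B).Nonempty := ⟨q, hq⟩
  have e1 := (H.eqA l hl hB p hp).1 h1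
  have e2 := (H.eqA l' hl' hB' p hp).1 h2
  have e3 := (H.eqA l' hl' hB' t ht).1 h3
  have e4 := (H.eqB l' hl' hB' q (mem_inter.1 hq).2).1 (mem_inter.1 hq).1
  have s1 := H.small p (mem_union_left _ hp)
  have s2 := H.small q (mem_union_right _ (mem_inter.1 hq).2)
  refine ⟨m l' - m l, -Y p * Y q + 1, pos_core1 (by rw [abs_neg]; exact s1.le) one_pos s2, ?_, ?_⟩
  · linear_combination e3 + e1 - e2
  · linear_combination e4 + Y q * (e1 - e2)

theorem side_core1 (H : CoreHyp X X' B LL Y Z m c d) {l : Finset α} (hl : l ∈ LL)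
    (hB : (l ∩ B).Nonempty) {p : α} (hp : p ∈ X ∪ X') (h1 : p ∈ l) (T : Finset α)
    (hT : T ⊆ X ∪ X') (hc : ∀ t ∈ T, ∃ l' ∈ LL, p ∈ l' ∧ t ∈ l') :
    ((∀ t ∈ T, (Z t - m l * Y t - c l) * (Y t - Y p) < 0) →
      T.card ≤ d + (B.filter fun q => Z q - m l - c l * Y q < 0).card) ∧
    ((∀ t ∈ T, 0 < (Z t - m l * Y t - c l) * (Y t - Y p)) →
      T.card ≤ d + (B.filter fun q => 0 < Z q - m l - c l * Y q).card) := by
  refine ⟨fun hs => sweep_core1 H hp _ T hT fun t ht => ?_,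
    fun hs => sweep_core1 H hp _ T hT fun t ht => ?_⟩
  · obtain ⟨l', hl', h2, h3⟩ := hc t ht
    refine ⟨l', hl', h2, h3, fun q hq => mem_filter.2 ⟨(mem_inter.1 hq).2, ?_⟩⟩
    obtain ⟨k, e, he, e1, e2⟩ := sign_core1 H hl hB hl' hp (hT ht) h1 h2 h3 hq
    have h4 := hs t ht
    rw [e1, mul_assoc] at h4
    rw [e2]
    exact mul_neg_of_neg_of_pos (neg_of_mul_neg_left h4 (mul_self_nonneg _)) he
  · obtain ⟨l', hl', h2, h3⟩ := hc t ht
    refine ⟨l', hl', h2, h3, fun q hq => mem_filter.2 ⟨(mem_inter.1 hq).2, ?_⟩⟩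
    obtain ⟨k, e, he, e1, e2⟩ := sign_core1 H hl hB hl' hp (hT ht) h1 h2 h3 hq
    have h4 := hs t ht
    rw [e1, mul_assoc] at h4
    rw [e2]
    exact mul_pos (pos_of_mul_pos_left h4 (mul_self_nonneg _)) he

theorem core_levels {X X' B : Finset α} {LL : Finset (Finset α)} {Y Z : α → ℝ}
    {m c : Finset α → ℝ} {d : ℕ} (H : CoreHyp X X' B LL Y Z m c d) :
    ∃ b g : Finset α → ℕ,
      (∀ l ∈ MM X X' B LL, ∀ l' ∈ MM X X' B LL, l ≠ l' →
        b l + ((l ∩ X).card + (l ∩ X').card) ≤ b l' ∨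
        b l' + ((l' ∩ X).card + (l' ∩ X').card) ≤ b l ∨
        g l + (l ∩ B).card ≤ g l' ∨ g l' + (l' ∩ B).card ≤ g l) ∧
      ∀ l ∈ MM X X' B LL,
        X.card ≤ b l + (l ∩ X).card + g l + d ∧
        b l + (l ∩ X).card ≤ X.card + g l + d ∧
        b l + (l ∩ X').card + g l + (l ∩ B).card ≤ X'.card + B.card + d ∧
        X'.card + g l + (l ∩ B).card ≤ b l + (l ∩ X').card + B.card + d := by
  have hXX : Disjoint X X' := disjoint_left.2 fun p hp hp' => lt_irrefl _ (H.lt p hp p hp')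
  have hsplit : ∀ l : Finset α, (l ∩ (X ∪ X')).card = (l ∩ X).card + (l ∩ X').card := fun l => by
    rw [inter_union_distrib_left, card_union_of_disjoint
      (hXX.mono inter_subset_right inter_subset_right)]
  have hA : ∀ l ∈ MM X X' B LL, ∀ l' : Finset α, |m l' - m l| ≤ c l' - c l → c l < c l' →
      ((X ∪ X').filter fun t => Z t - m l * Y t - c l < 0).card +
        ((l ∩ X).card + (l ∩ X').card) ≤
      ((X ∪ X').filter fun t => Z t - m l' * Y t - c l' < 0).card := fun l hl l' h1 h2 => by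
    rw [← hsplit]
    refine tile_core1 _ l _ _ (H.eqA l (mem_filter.1 hl).1 (mem_filter.1 hl).2.2.2) fun t ht => ?_
    have := pos_core1 h1 (sub_pos.2 h2) (H.small t (mem_union_left _ ht))
    linarith
  have hB : ∀ l ∈ MM X X' B LL, ∀ l' : Finset α, |c l' - c l| ≤ m l' - m l → m l < m l' →
      (B.filter fun q => Z q - m l - c l * Y q < 0).card + (l ∩ B).card ≤
      (B.filter fun q => Z q - m l' - c l' * Y q < 0).card := fun l hl l' h1 h2 => by
    refine tile_core1 _ l _ _ (H.eqB l (mem_filter.1 hl).1 (mem_filter.1 hl).2.2.2) fun t ht => ?_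
    have := pos_core1 h1 (sub_pos.2 h2) (H.small t (mem_union_right _ ht))
    linarith
  refine ⟨fun l => ((X ∪ X').filter fun t => Z t - m l * Y t - c l < 0).card,
    fun l => (B.filter fun q => Z q - m l - c l * Y q < 0).card,
    fun l hl l' hl' hne => ?_, fun l hl => ?_⟩
  · have hmc : ¬ (m l = m l' ∧ c l = c l') := by
      rintro ⟨e1, e2⟩
      obtain ⟨hL, ⟨p, hp⟩, -, ⟨q, hq⟩⟩ := mem_filter.1 hl
      obtain ⟨hL', -, -, hB'⟩ := mem_filter.1 hl'
      have hpX : p ∈ X ∪ X' := mem_union_left _ (mem_inter.1 hp).2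
      refine hne (uniq_core1 H hL hL' hpX (mem_inter.1 hq).2 (mem_inter.1 hp).1 ?_
        (mem_inter.1 hq).1 ?_)
      · rw [H.eqA l' hL' hB' p hpX, ← e1, ← e2]
        exact (H.eqA l hL ⟨q, hq⟩ p hpX).1 (mem_inter.1 hp).1
      · rw [H.eqB l' hL' hB' q (mem_inter.1 hq).2, ← e1, ← e2]
        exact (H.eqB l hL ⟨q, hq⟩ q (mem_inter.1 hq).2).1 (mem_inter.1 hq).1
    rcases le_total |m l' - m l| |c l' - c l| with h | h
    · rcases lt_trichotomy (c l) (c l') with h' | h' | h'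
      · exact Or.inl (hA l hl l' (h.trans_eq (abs_of_pos (sub_pos.2 h'))) h')
      · rw [h', sub_self, abs_zero, abs_nonpos_iff, sub_eq_zero] at h
        exact absurd ⟨h.symm, h'⟩ hmc
      · rw [abs_sub_comm, abs_sub_comm (c l')] at h
        exact Or.inr (Or.inl (hA l' hl' l (h.trans_eq (abs_of_pos (sub_pos.2 h'))) h'))
    · rcases lt_trichotomy (m l) (m l') with h' | h' | h'
      · exact Or.inr (Or.inr (Or.inl (hB l hl l' (h.trans_eq (abs_of_pos (sub_pos.2 h'))) h')))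
      · rw [h', sub_self, abs_zero, abs_nonpos_iff, sub_eq_zero] at h
        exact absurd ⟨h', h.symm⟩ hmc
      · rw [abs_sub_comm, abs_sub_comm (m l')] at h
        exact Or.inr (Or.inr (Or.inr (hB l' hl' l (h.trans_eq (abs_of_pos (sub_pos.2 h'))) h')))
  · obtain ⟨hL, ⟨p, hp⟩, ⟨p', hp'⟩, hne⟩ := mem_filter.1 hl
    obtain ⟨hpl, hpX⟩ := mem_inter.1 hp
    obtain ⟨hpl', hpX'⟩ := mem_inter.1 hp'
    have t1 := tri_core1 X l (fun t => Z t - m l * Y t - c l) fun t ht =>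
      H.eqA l hL hne t (mem_union_left _ ht)
    have t2 := tri_core1 X' l (fun t => Z t - m l * Y t - c l) fun t ht =>
      H.eqA l hL hne t (mem_union_right _ ht)
    have t3 := tri_core1 B l (fun q => Z q - m l - c l * Y q) (H.eqB l hL hne)
    have t4 : ((X ∪ X').filter fun t => Z t - m l * Y t - c l < 0).card =
        (X.filter fun t => Z t - m l * Y t - c l < 0).card +
          (X'.filter fun t => Z t - m l * Y t - c l < 0).card := by
      rw [filter_union, card_union_of_disjoint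
        (hXX.mono (filter_subset _ _) (filter_subset _ _))]
    have cX : ∀ T : Finset α, T ⊆ X → ∀ t ∈ T, ∃ l' ∈ LL, p' ∈ l' ∧ t ∈ l' := fun T hT t ht => by
      obtain ⟨l', h1, h2, h3⟩ := H.cov t (hT ht) p' hpX'
      exact ⟨l', h1, h3, h2⟩
    have cX' : ∀ T : Finset α, T ⊆ X' → ∀ t ∈ T, ∃ l' ∈ LL, p ∈ l' ∧ t ∈ l' :=
      fun T hT t ht => H.cov p hpX t (hT ht)
    have i1 := (side_core1 H hL hne (mem_union_right X hpX') hpl'
      (X.filter fun t => 0 < Z t - m l * Y t - c l)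
      ((filter_subset _ _).trans subset_union_left) (cX _ (filter_subset _ _))).1 fun t ht =>
        mul_neg_of_pos_of_neg (mem_filter.1 ht).2 (sub_neg.2 (H.lt t (mem_filter.1 ht).1 p' hpX'))
    have i2 := (side_core1 H hL hne (mem_union_left X' hpX) hpl
      (X'.filter fun t => Z t - m l * Y t - c l < 0)
      ((filter_subset _ _).trans subset_union_right) (cX' _ (filter_subset _ _))).1 fun t ht =>
        mul_neg_of_neg_of_pos (mem_filter.1 ht).2 (sub_pos.2 (H.lt p hpX t (mem_filter.1 ht).1))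
    have i3 := (side_core1 H hL hne (mem_union_right X hpX') hpl'
      (X.filter fun t => Z t - m l * Y t - c l < 0)
      ((filter_subset _ _).trans subset_union_left) (cX _ (filter_subset _ _))).2 fun t ht =>
        mul_pos_of_neg_of_neg (mem_filter.1 ht).2 (sub_neg.2 (H.lt t (mem_filter.1 ht).1 p' hpX'))
    have i4 := (side_core1 H hL hne (mem_union_left X' hpX) hpl
      (X'.filter fun t => 0 < Z t - m l * Y t - c l)
      ((filter_subset _ _).trans subset_union_right) (cX' _ (filter_subset _ _))).2 fun t ht =>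
        mul_pos (mem_filter.1 ht).2 (sub_pos.2 (H.lt p hpX t (mem_filter.1 ht).1))
    dsimp only
    omega

end Pool.Agent.Work.MP_d88d93_co
end

-- merged part: Pool.Agent.Work.MP_d88d93_co.Core2
section
/-! Counting cells of disjoint tiles inside the zone. -/

namespace Pool.Agent.Work.MP_d88d93_co

open Finset

variable {α : Type} [DecidableEq α]

/-- The cells chosen inside one tile. -/
def cellsCore2 (io i β b g d σ : ℕ) : Finset (ℤ × ℤ) :=
  if io + i ≤ σ then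
    (range (io + i) ×ˢ range (min β (io + i))).image
      (fun p : ℕ × ℕ => ((b : ℤ) + p.1, (g : ℤ) + p.2))
  else
    (range (io - d) ×ˢ range i).image
      (fun p : ℕ × ℕ => ((b : ℤ) + io - 1 - p.1 + p.2, (g : ℤ) + p.1 + p.2))

theorem card_cellsCore2 (io i β b g d σ : ℕ) :
    (cellsCore2 io i β b g d σ).card
      = if io + i ≤ σ then (io + i) * min β (io + i) else (io - d) * i := by
  unfold cellsCore2
  split_ifs with h
  · rw [Finset.card_image_of_injective, Finset.card_product, Finset.card_range,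
      Finset.card_range]
    rintro ⟨p, q⟩ ⟨p', q'⟩ hpq
    simp only [Prod.mk.injEq] at hpq ⊢
    omega
  · rw [Finset.card_image_of_injective, Finset.card_product, Finset.card_range,
      Finset.card_range]
    rintro ⟨p, q⟩ ⟨p', q'⟩ hpq
    simp only [Prod.mk.injEq] at hpq ⊢
    omega

theorem mem_tile_cellsCore2 {io i β b g d σ : ℕ} (hd : io + i ≤ β + d) {z : ℤ × ℤ}
    (hz : z ∈ cellsCore2 io i β b g d σ) :
    (b : ℤ) ≤ z.1 ∧ z.1 < b + (io + i) ∧ (g : ℤ) ≤ z.2 ∧ z.2 < g + β := by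
  unfold cellsCore2 at hz
  split_ifs at hz with h
  · obtain ⟨⟨p, q⟩, hp, rfl⟩ := Finset.mem_image.1 hz
    simp only [Finset.mem_product, Finset.mem_range, lt_min_iff] at hp
    dsimp only
    omega
  · obtain ⟨⟨p, q⟩, hp, rfl⟩ := Finset.mem_image.1 hz
    simp only [Finset.mem_product, Finset.mem_range] at hp
    dsimp only
    omega

theorem mem_zone_cellsCore2 {io i β b g d σ x x' W : ℕ} (hd : io + i ≤ β + d)
    (h1 : x ≤ b + io + g + d) (h2 : b + io ≤ x + g + d) (h3 : b + i + g + β ≤ x' + W + d)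
    (h4 : x' + g + β ≤ b + i + W + d) {z : ℤ × ℤ} (hz : z ∈ cellsCore2 io i β b g d σ) :
    (x : ℤ) - d - σ - 1 ≤ z.1 + z.2 ∧ z.1 + z.2 ≤ x' + W + 2 * d + σ ∧
      -(x : ℤ) - d - σ ≤ z.2 - z.1 ∧ z.2 - z.1 ≤ W - x' + 2 * d + σ := by
  unfold cellsCore2 at hz
  split_ifs at hz with h
  · obtain ⟨⟨p, q⟩, hp, rfl⟩ := Finset.mem_image.1 hz
    simp only [Finset.mem_product, Finset.mem_range, lt_min_iff] at hp
    dsimp only
    omega
  · obtain ⟨⟨p, q⟩, hp, rfl⟩ := Finset.mem_image.1 hz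
    simp only [Finset.mem_product, Finset.mem_range] at hp
    dsimp only
    omega

/-- Lattice points in a rotated rectangle. -/
theorem card_zoneCore2 (S : Finset (ℤ × ℤ)) (u0 u1 v0 v1 : ℤ) (hu : u0 ≤ u1 + 1) (hv : v0 ≤ v1)
    (hS : ∀ z ∈ S, u0 ≤ z.1 + z.2 ∧ z.1 + z.2 ≤ u1 ∧ v0 ≤ z.2 - z.1 ∧ z.2 - z.1 ≤ v1) :
    (S.card : ℝ) ≤ ((u1 : ℝ) + 1 - u0) * ((v1 : ℝ) - v0 + 2) / 2 := by
  have h1 : S.card ≤ (Icc u0 u1 ×ˢ Icc (0 : ℤ) ((v1 - v0) / 2)).card := by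
    refine Finset.card_le_card_of_injOn
      (fun z : ℤ × ℤ => (z.1 + z.2, (z.2 - z.1 - v0) / 2)) ?_ ?_
    · intro z hz
      have := hS z hz
      simp only [Finset.coe_product, Finset.coe_Icc, Set.mem_prod, Set.mem_Icc]
      omega
    · rintro ⟨a, c⟩ - ⟨a', c'⟩ - h
      simp only [Prod.mk.injEq] at h ⊢
      omega
  rw [Finset.card_product, Int.card_Icc, Int.card_Icc] at h1
  have h2 : ((u1 + 1 - u0).toNat : ℤ) = u1 + 1 - u0 := Int.toNat_of_nonneg (by omega)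
  have h3 : 2 * (((v1 - v0) / 2 + 1 - 0).toNat : ℤ) ≤ v1 - v0 + 2 := by omega
  have h2' : (((u1 + 1 - u0).toNat : ℕ) : ℝ) = (u1 : ℝ) + 1 - u0 := by exact_mod_cast h2
  have h3' : 2 * ((((v1 - v0) / 2 + 1 - 0).toNat : ℕ) : ℝ) ≤ (v1 : ℝ) - v0 + 2 := by
    exact_mod_cast h3
  have h1' : (S.card : ℝ) ≤ (((u1 + 1 - u0).toNat : ℕ) : ℝ)
      * ((((v1 - v0) / 2 + 1 - 0).toNat : ℕ) : ℝ) := by exact_mod_cast h1
  have h4 : (0 : ℝ) ≤ (u1 : ℝ) + 1 - u0 := by rw [← h2']; positivity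
  rw [h2'] at h1'
  clear * - S u1 u0 v1 v0 h1' h3' h4
  linarith only [h1', h3', h4, mul_le_mul_of_nonneg_left h3' h4]

omit [DecidableEq α] in
theorem core_zone {ι : Type} (M : Finset ι) (io i β b g : ι → ℕ) (x x' W d σ : ℕ)
    (htile : ∀ l ∈ M, ∀ l' ∈ M, l ≠ l' →
      b l + (io l + i l) ≤ b l' ∨ b l' + (io l' + i l') ≤ b l ∨
      g l + β l ≤ g l' ∨ g l' + β l' ≤ g l)
    (hin : ∀ l ∈ M, x ≤ b l + io l + g l + d ∧ b l + io l ≤ x + g l + d ∧
      b l + i l + g l + β l ≤ x' + W + d ∧ x' + g l + β l ≤ b l + i l + W + d)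
    (hd : ∀ l ∈ M, io l + i l ≤ β l + d) (hx : x ≤ W + x' + 2 * σ) (hx' : x' ≤ W + x + 2 * σ) :
    ∑ l ∈ M.filter (fun l => io l + i l ≤ σ), (((io l + i l) * min (β l) (io l + i l) : ℕ) : ℝ)
      + ∑ l ∈ M.filter (fun l => σ < io l + i l), (((io l - d) * i l : ℕ) : ℝ)
      ≤ ((W : ℝ) + x' - x + (3 * d + 2 * σ + 2)) * ((W : ℝ) + x - x' + (3 * d + 2 * σ + 2)) / 2 := by
  classical
  set c : ι → Finset (ℤ × ℤ) := fun l => cellsCore2 (io l) (i l) (β l) (b l) (g l) d σ with hc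
  have hdisj : (M : Set ι).PairwiseDisjoint c := by
    intro l hl l' hl' hne
    rw [Function.onFun, Finset.disjoint_left]
    intro z hz hz'
    have h1 := mem_tile_cellsCore2 (hd l hl) hz
    have h2 := mem_tile_cellsCore2 (hd l' hl') hz'
    have h3 := htile l hl l' hl' hne
    omega
  have hcard : (M.biUnion c).card = ∑ l ∈ M, (c l).card := Finset.card_biUnion hdisj
  have hz := card_zoneCore2 (M.biUnion c) ((x : ℤ) - d - σ - 1) (x' + W + 2 * d + σ)
    (-(x : ℤ) - d - σ) (W - x' + 2 * d + σ) (by omega) (by omega) (by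
      intro z hz
      obtain ⟨l, hl, hz⟩ := Finset.mem_biUnion.1 hz
      obtain ⟨h1, h2, h3, h4⟩ := hin l hl
      exact mem_zone_cellsCore2 (hd l hl) h1 h2 h3 h4 hz)
  have hsum : ∑ l ∈ M.filter (fun l => io l + i l ≤ σ),
        (((io l + i l) * min (β l) (io l + i l) : ℕ) : ℝ)
      + ∑ l ∈ M.filter (fun l => σ < io l + i l), (((io l - d) * i l : ℕ) : ℝ)
      = ((M.biUnion c).card : ℝ) := by
    rw [hcard, Nat.cast_sum, Finset.sum_filter, Finset.sum_filter, ← Finset.sum_add_distrib]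
    refine Finset.sum_congr rfl (fun l _ => ?_)
    rw [hc]
    dsimp only
    rw [card_cellsCore2]
    by_cases h : io l + i l ≤ σ
    · rw [if_pos h, if_neg (by omega), if_pos h, add_zero]
    · rw [if_neg h, if_pos (by omega), if_neg h, zero_add]
  rw [hsum]
  refine hz.trans (le_of_eq ?_)
  push_cast
  ring

end Pool.Agent.Work.MP_d88d93_co
end

-- merged part: Pool.Agent.Work.MP_d88d93_co.Core3
section
/-! Counting identities for the mixed lines. -/

namespace Pool.Agent.Work.MP_d88d93_co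

open Finset

variable {α : Type} [DecidableEq α]

section

variable {X X' B : Finset α} {LL : Finset (Finset α)} {Y Z : α → ℝ}
  {m c : Finset α → ℝ} {d : ℕ}

theorem core_disj (H : CoreHyp X X' B LL Y Z m c d) : Disjoint X X' := by
  rw [Finset.disjoint_left]
  intro p hp hp'
  exact lt_irrefl _ (H.lt p hp p hp')

theorem core_j (H : CoreHyp X X' B LL Y Z m c d) (l : Finset α) :
    (l ∩ (X ∪ X')).card = (l ∩ X).card + (l ∩ X').card := by
  rw [Finset.inter_union_distrib_left, Finset.card_union_of_disjoint]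
  exact Finset.disjoint_of_subset_left Finset.inter_subset_right
    (Finset.disjoint_of_subset_right Finset.inter_subset_right (core_disj H))

theorem swap_c3 (T : Finset α) (M : Finset (Finset α)) (f : Finset α → ℕ) :
    ∑ p ∈ T, ∑ l ∈ M.filter (fun l => p ∈ l), f l = ∑ l ∈ M, (l ∩ T).card * f l := by
  simp only [Finset.sum_filter]
  rw [Finset.sum_comm]
  refine Finset.sum_congr rfl fun l _ => ?_
  rw [← Finset.sum_filter, Finset.sum_const, smul_eq_mul, Finset.filter_mem_eq_inter,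
    Finset.inter_comm]

theorem cover_c3 {T : Finset α} {M : Finset (Finset α)} (h : ∀ q ∈ T, ∃ l ∈ M, q ∈ l) :
    T.card ≤ ∑ l ∈ M, (l ∩ T).card := by
  refine le_trans (Finset.card_le_card fun q hq => ?_)
    (Finset.card_biUnion_le (s := M) (t := fun l => l ∩ T))
  obtain ⟨l, hl, hq'⟩ := h q hq
  exact Finset.mem_biUnion.2 ⟨l, hl, Finset.mem_inter.2 ⟨hq', hq⟩⟩

theorem mem_MM_c3 {l : Finset α} : l ∈ MM X X' B LL ↔
    l ∈ LL ∧ (l ∩ X).Nonempty ∧ (l ∩ X').Nonempty ∧ (l ∩ B).Nonempty := Finset.mem_filter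

theorem MM_sub_c3 (p : α) :
    (MM X X' B LL).filter (fun l => p ∈ l) ⊆ LL.filter (fun l => p ∈ l) :=
  Finset.filter_subset_filter _ (Finset.filter_subset _ _)

theorem eq_of_two_c3 (H : CoreHyp X X' B LL Y Z m c d) {l l' : Finset α} (hl : l ∈ LL)
    (hl' : l' ∈ LL) (hne : l ≠ l') {p q : α} (hp : p ∈ l) (hp' : p ∈ l') (hq : q ∈ l)
    (hq' : q ∈ l') : p = q :=
  Finset.card_le_one.1 (H.one l hl l' hl' hne) p (Finset.mem_inter.2 ⟨hp, hp'⟩) q
    (Finset.mem_inter.2 ⟨hq, hq'⟩)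

theorem sumB_c3 (H : CoreHyp X X' B LL Y Z m c d) {p : α} (hp : p ∈ X ∪ X') :
    ∑ l ∈ LL.filter (fun l => p ∈ l), (l ∩ B).card ≤ B.card := by
  rw [← Finset.card_biUnion]
  · exact Finset.card_le_card (Finset.biUnion_subset.2 fun l _ => Finset.inter_subset_right)
  · intro l hl l' hl' hne
    have h1 := Finset.mem_filter.1 (Finset.mem_coe.1 hl)
    have h2 := Finset.mem_filter.1 (Finset.mem_coe.1 hl')
    refine Finset.disjoint_left.2 fun q hq hq' => ?_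
    have e := eq_of_two_c3 H h1.1 h2.1 hne h1.2 h2.2 (Finset.mem_inter.1 hq).1
      (Finset.mem_inter.1 hq').1
    exact Finset.disjoint_left.1 H.disj hp (e ▸ (Finset.mem_inter.1 hq).2)

theorem defect_c3 (H : CoreHyp X X' B LL Y Z m c d) {p : α} (hp : p ∈ X ∪ X') :
    ∑ l ∈ LL.filter (fun l => p ∈ l), ((l ∩ X).card + (l ∩ X').card - (l ∩ B).card) ≤ d := by
  have h := H.defect p hp
  simpa only [core_j H] using h

theorem core_one (H : CoreHyp X X' B LL Y Z m c d) {l : Finset α} (hl : l ∈ MM X X' B LL) :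
    (l ∩ X).card + (l ∩ X').card ≤ (l ∩ B).card + d := by
  obtain ⟨h1, ⟨p, hp⟩, -⟩ := mem_MM_c3.1 hl
  have h2 := defect_c3 H (Finset.mem_union_left X' (Finset.mem_inter.1 hp).2)
  have h3 := Finset.single_le_sum
    (f := fun l => (l ∩ X).card + (l ∩ X').card - (l ∩ B).card) (fun _ _ => Nat.zero_le _)
    (Finset.mem_filter.2 ⟨h1, (Finset.mem_inter.1 hp).1⟩ : l ∈ LL.filter (fun l => p ∈ l))
  have h4 := h3.trans h2
  omega

theorem core_pairs (H : CoreHyp X X' B LL Y Z m c d) :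
    X.card * X'.card ≤ ∑ l ∈ MM X X' B LL, (l ∩ X).card * (l ∩ X').card + X.card * d := by
  rw [← swap_c3, ← smul_eq_mul, ← smul_eq_mul, ← Finset.sum_const, ← Finset.sum_const,
    ← Finset.sum_add_distrib]
  refine Finset.sum_le_sum fun p hp => ?_
  have h1 : X'.card ≤ ∑ l ∈ LL.filter (fun l => p ∈ l), (l ∩ X').card :=
    cover_c3 fun q hq => by
      obtain ⟨l, hl, h1, h2⟩ := H.cov p hp q hq
      exact ⟨l, Finset.mem_filter.2 ⟨hl, h1⟩, h2⟩
  have h2 := defect_c3 H (Finset.mem_union_left X' hp)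
  have h3 : ∑ l ∈ (MM X X' B LL).filter (fun l => p ∈ l), (l ∩ X').card =
      ∑ l ∈ LL.filter (fun l => p ∈ l), if l ∈ MM X X' B LL then (l ∩ X').card else 0 := by
    rw [← Finset.sum_filter]
    refine Finset.sum_congr ?_ fun _ _ => rfl
    ext l
    simp only [Finset.mem_filter]
    exact ⟨fun h => ⟨⟨(mem_MM_c3.1 h.1).1, h.2⟩, h.1⟩, fun h => ⟨h.2, h.1.2⟩⟩
  refine h1.trans (le_trans ?_ (Nat.add_le_add_left h2 _))
  rw [h3, ← Finset.sum_add_distrib]
  refine Finset.sum_le_sum fun l hl => ?_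
  obtain ⟨hl1, hl2⟩ := Finset.mem_filter.1 hl
  split_ifs with h
  · omega
  · by_cases h4 : (l ∩ X').Nonempty
    · have h5 : l ∩ B = ∅ := by
        by_contra h6
        exact h (mem_MM_c3.2 ⟨hl1, ⟨p, Finset.mem_inter.2 ⟨hl2, hp⟩⟩, h4,
          Finset.nonempty_iff_ne_empty.2 h6⟩)
      rw [h5, Finset.card_empty]
      omega
    · rw [Finset.not_nonempty_iff_eq_empty.1 h4, Finset.card_empty]
      omega

theorem core_def (H : CoreHyp X X' B LL Y Z m c d) :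
    ∑ l ∈ MM X X' B LL, ((l ∩ X).card + (l ∩ X').card) *
      ((l ∩ X).card + (l ∩ X').card - (l ∩ B).card) ≤ (X.card + X'.card) * d := by
  have h := swap_c3 (X ∪ X') (MM X X' B LL)
    (fun l => (l ∩ X).card + (l ∩ X').card - (l ∩ B).card)
  simp only [core_j H] at h
  rw [← h, ← Finset.card_union_of_disjoint (core_disj H), ← smul_eq_mul, ← Finset.sum_const]
  exact Finset.sum_le_sum fun p hp =>
    (Finset.sum_le_sum_of_subset (MM_sub_c3 p)).trans (defect_c3 H hp)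

theorem core_sq (H : CoreHyp X X' B LL Y Z m c d) :
    ∑ l ∈ MM X X' B LL, (l ∩ X').card ^ 2 + X'.card * X.card ≤ X'.card * (B.card + d) := by
  simp only [sq]
  rw [← swap_c3, ← smul_eq_mul, ← smul_eq_mul, ← Finset.sum_const, ← Finset.sum_const,
    ← Finset.sum_add_distrib]
  refine Finset.sum_le_sum fun p hp => ?_
  have h1 : X.card ≤ ∑ l ∈ LL.filter (fun l => p ∈ l), (l ∩ X).card :=
    cover_c3 fun q hq => by
      obtain ⟨l, hl, h1, h2⟩ := H.cov q hq p hp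
      exact ⟨l, Finset.mem_filter.2 ⟨hl, h2⟩, h1⟩
  have h2 := defect_c3 H (Finset.mem_union_right X hp)
  have h3 := sumB_c3 H (Finset.mem_union_right X hp)
  have h4 : ∑ l ∈ (MM X X' B LL).filter (fun l => p ∈ l), (l ∩ X').card ≤
      ∑ l ∈ LL.filter (fun l => p ∈ l), (l ∩ X').card :=
    Finset.sum_le_sum_of_subset (MM_sub_c3 p)
  refine (Nat.add_le_add h4 h1).trans (le_trans ?_ (Nat.add_le_add h3 h2))
  rw [← Finset.sum_add_distrib, ← Finset.sum_add_distrib]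
  exact Finset.sum_le_sum fun l _ => by omega

theorem core_giants (H : CoreHyp X X' B LL Y Z m c d) (σ : ℕ) :
    ((MM X X' B LL).filter (fun l => σ < (l ∩ X).card + (l ∩ X').card)).card * σ ^ 2
      ≤ (X.card + X'.card) ^ 2 := by
  have h1 : ∑ l ∈ (MM X X' B LL).filter (fun l => σ < (l ∩ X).card + (l ∩ X').card),
      (l ∩ (X ∪ X')).offDiag.card ≤ ((X ∪ X') ×ˢ (X ∪ X')).card := by
    rw [← Finset.card_biUnion]
    · refine Finset.card_le_card (Finset.biUnion_subset.2 fun l _ q hq => ?_)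
      obtain ⟨a, b, -⟩ := Finset.mem_offDiag.1 hq
      exact Finset.mem_product.2 ⟨(Finset.mem_inter.1 a).2, (Finset.mem_inter.1 b).2⟩
    · intro l hl l' hl' hne
      have h1 := (mem_MM_c3.1 (Finset.mem_filter.1 (Finset.mem_coe.1 hl)).1).1
      have h2 := (mem_MM_c3.1 (Finset.mem_filter.1 (Finset.mem_coe.1 hl')).1).1
      refine Finset.disjoint_left.2 fun q hq hq' => ?_
      obtain ⟨a, b, e⟩ := Finset.mem_offDiag.1 hq
      obtain ⟨a', b', -⟩ := Finset.mem_offDiag.1 hq'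
      exact e (eq_of_two_c3 H h1 h2 hne (Finset.mem_inter.1 a).1 (Finset.mem_inter.1 a').1
        (Finset.mem_inter.1 b).1 (Finset.mem_inter.1 b').1)
  rw [Finset.card_product, Finset.card_union_of_disjoint (core_disj H), ← sq] at h1
  refine le_trans ?_ h1
  rw [← smul_eq_mul, ← Finset.sum_const]
  refine Finset.sum_le_sum fun l hl => ?_
  have h2 := (Finset.mem_filter.1 hl).2
  rw [Finset.offDiag_card, core_j H]
  generalize (l ∩ X).card + (l ∩ X').card = j at h2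
  refine Nat.le_sub_of_add_le ?_
  obtain ⟨k, rfl⟩ := Nat.exists_eq_add_of_lt h2
  linarith only [Nat.zero_le (σ * k), Nat.zero_le (k * k), mul_self_nonneg ↑k]

theorem core_bonf (H : CoreHyp X X' B LL Y Z m c d) {G : Finset (Finset α)} (hG : G ⊆ LL)
    (T : Finset α) : ∑ l ∈ G, (l ∩ T).card ≤ T.card + G.card ^ 2 := by
  have key : ∑ l ∈ G, (l ∩ T).card ≤ (G.biUnion fun l => l ∩ T).card + G.card ^ 2 := by
    induction G using Finset.induction_on with
    | empty => simp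
    | insert l G hl ih =>
      have h1 := ih ((Finset.subset_insert l G).trans hG)
      have h2 := Finset.card_union_add_card_inter (l ∩ T) (G.biUnion fun l => l ∩ T)
      have h3 : ((l ∩ T) ∩ G.biUnion fun l => l ∩ T).card ≤ G.card := by
        refine le_trans (Finset.card_le_card (t := G.biUnion fun l' => l ∩ l') fun q hq => ?_)
          (Finset.card_biUnion_le.trans ?_)
        · obtain ⟨a, b⟩ := Finset.mem_inter.1 hq
          obtain ⟨l', hl', e⟩ := Finset.mem_biUnion.1 b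
          exact Finset.mem_biUnion.2 ⟨l', hl', Finset.mem_inter.2
            ⟨(Finset.mem_inter.1 a).1, (Finset.mem_inter.1 e).1⟩⟩
        · refine (Finset.sum_le_card_nsmul G _ 1 fun l' hl' => ?_).trans (by simp)
          exact H.one l (hG (Finset.mem_insert_self l G)) l' (hG (Finset.mem_insert_of_mem hl'))
            fun e => hl (e ▸ hl')
      rw [Finset.sum_insert hl, Finset.biUnion_insert, Finset.card_insert_of_notMem hl]
      linarith only [h1, h2, h3]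
  exact key.trans (Nat.add_le_add_right
    (Finset.card_le_card (Finset.biUnion_subset.2 fun l _ => Finset.inter_subset_right)) _)

end

end Pool.Agent.Work.MP_d88d93_co
end

-- merged part: Pool.Agent.Work.MP_d88d93_co.Core4
section
/-! The core contradiction. -/

namespace Pool.Agent.Work.MP_d88d93_co

open Finset

variable {α : Type} [DecidableEq α]

theorem numA_c4 {n x x' W d E g h P Pg : ℝ} (hn : 0 < n) (hd0 : 0 ≤ d)
    (hd : d ≤ 19 * n / 10 ^ 24) (hW2 : W ≤ n / 3 + 3 * n / 10 ^ 24)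
    (hW1 : n / 3 - 3 * n / 10 ^ 24 ≤ W) (hE1 : 2 * n / 10 ^ 11 ≤ E) (hE2 : E ≤ 3 * n / 10 ^ 11)
    (hx : x + x' ≤ n / 3 + 3 * n / 10 ^ 24) (hg0 : 0 ≤ g) (hg : g ≤ n / 10 ^ 26)
    (hh0 : 0 ≤ h) (hh : h ≤ n / 6 + 10 * n / 10 ^ 24)
    (h1 : 3 * n / 10 ^ 8 ≤ x) (h2 : 3 * n / 10 ^ 8 ≤ x') (h3 : n / 3 - 4 * n / 10 ^ 10 ≤ x + x')
    (hP : x * x' ≤ P + x * d)
    (hPg : Pg * (x + x') ^ 2 ≤ h * (x ^ 2 * (x' + g) + x' ^ 2 * (x + g)))
    (hZ : 4 * (P - Pg) - (x + x') * d + (Pg - d * (x' + g))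
      ≤ (W + x' - x + E) * (W + x - x' + E) / 2) : False := by
  have hx0 : 0 < x := by linarith only [hn, h1, show 0 < 3 * n / 10 ^ 8 by positivity]
  have hx0' : 0 < x' := by linarith only [hn, h2, show 0 < 3 * n / 10 ^ 8 by positivity]
  have hS : 0 < x + x' := by linarith only [hn, h2, hx0]
  have k1 : Pg ≤ 51 / 100 * (x * x') + h * g := by
    clear * - h x x' n hh h2 h3 hx0 g hx0' hh0 hg0 Pg hPg
    have a1 : h ≤ 51 / 100 * (x + x') := by linarith only [hh, h3, hx0, hx0']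
    have a2 : h * (x ^ 2 * (x' + g) + x' ^ 2 * (x + g))
        ≤ (51 / 100 * (x * x') + h * g) * (x + x') ^ 2 := by
      have b1 : h * (x * x' * (x + x')) ≤ 51 / 100 * (x + x') * (x * x' * (x + x')) :=
        mul_le_mul_of_nonneg_right a1 (by positivity)
      have b2 : 0 ≤ h * g * (x * x') := by positivity
      linarith only [b1, b2]
    exact le_of_mul_le_mul_right (hPg.trans a2) (by positivity)
  have k2 : h * g ≤ n * (n / 10 ^ 26) := mul_le_mul (by linarith only [hn, hh]) hg hg0 hn.le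
  have k3 : 48 * (n * n) / 10 ^ 10 ≤ x * x' := by
    clear * - x x' n h3 hx0' h1 hn hx0 h2
    rcases le_total x x' with hc | hc
    · have : 16 * n / 100 ≤ x' := by linarith only [h3, hx0', hc]
      calc 48 * (n * n) / 10 ^ 10 = (3 * n / 10 ^ 8) * (16 * n / 100) := by ring
        _ ≤ x * x' := mul_le_mul h1 this (by positivity) hx0.le
    · have : 16 * n / 100 ≤ x := by linarith only [h3, hx0, hc]
      calc 48 * (n * n) / 10 ^ 10 = (16 * n / 100) * (3 * n / 10 ^ 8) := by ring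
        _ ≤ x * x' := mul_le_mul this h2 (by positivity) hx0.le
  obtain ⟨Δ, hΔ⟩ : ∃ Δ, Δ = W - x - x' + E := ⟨_, rfl⟩
  have d0 : 0 ≤ Δ := by linarith only [hn, hW1, hE1, hx, hΔ]
  have d1 : Δ ≤ 45 * n / 10 ^ 11 := by clear * - Δ n W E x x' hW2 hE2 h3 hx0 hx0' hΔ; linarith only [hW2, hE2, h3, hx0, hx0', hΔ]
  have k4 : (W + x' - x + E) * (W + x - x' + E) / 2 = 2 * (x * x') + Δ * (x + x' + Δ / 2) := by
    rw [hΔ]; ring
  have k5 : Δ * (x + x' + Δ / 2) ≤ (45 * n / 10 ^ 11) * (35 * n / 100) :=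
    mul_le_mul d1 (by clear * - x x' Δ n W E hW2 hE2 hx hx0 hx0' hΔ d1; linarith only [hW2, hE2, hx, hx0, hx0', hΔ]) (by clear * - x x' Δ n W E hn hW1 hE1 h2 hx0 hΔ d1; linarith only [hn, hW1, hE1, h2, hx0, hΔ]) (by positivity)
  have k6 : x * d ≤ n * (19 * n / 10 ^ 24) := mul_le_mul (by clear * - x n x' hn hx h2 d hd hd0; linarith only [hn, hx, h2]) hd hd0 hn.le
  have k7 : (x + x') * d ≤ n * (19 * n / 10 ^ 24) := mul_le_mul (by clear * - x x' n hn hx d hd hd0; linarith only [hn, hx]) hd hd0 hn.le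
  have k8 : (x' + g) * d ≤ n * (19 * n / 10 ^ 24) := mul_le_mul (by clear * - x' g n x hn hx hg hx0 d hd hd0; linarith only [hn, hx, hg, hx0]) hd hd0 hn.le
  have k9 : 0 < n * n := by positivity
  rw [k4] at hZ
  clear * - x x' P d Pg h g n Δ hP k1 k2 k3 hZ k5 k6 k7 k8 k9
  linarith only [hP, k1, k2, k3, hZ, k5, k6, k7, k8, k9]

theorem numB_c4 {n x x' W d E g h P Pg Q : ℝ} (hn : 0 < n) (hd0 : 0 ≤ d)
    (hd : d ≤ 19 * n / 10 ^ 24) (hW2 : W ≤ n / 3 + 3 * n / 10 ^ 24)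
    (hW1 : n / 3 - 3 * n / 10 ^ 24 ≤ W) (hE1 : 2 * n / 10 ^ 11 ≤ E) (hE2 : E ≤ 3 * n / 10 ^ 11)
    (hx : x + x' ≤ n / 3 + 3 * n / 10 ^ 24) (hg0 : 0 ≤ g) (hg : g ≤ n / 10 ^ 26)
    (hh : h ≤ n / 6 + 10 * n / 10 ^ 24)
    (h1 : n / (4 * 10 ^ 10) ≤ x') (h2 : n / 3 - 20 * n / 10 ^ 8 ≤ x)
    (hP : x * x' ≤ P + x * d) (hPg0 : 0 ≤ Pg) (hPg : Pg ≤ h * (x' + g))
    (hQ : Q + x' * x ≤ x' * (W + d))
    (hZ : 2 * 10 ^ 5 * (P - Pg) - 10 ^ 5 * (10 ^ 5 - 2) * Q - (x + x') * d + (Pg - d * (x' + g))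
      ≤ (W + x' - x + E) * (W + x - x' + E) / 2) : False := by
  have hx0' : 0 < x' := by linarith only [hn, h1, show 0 < n / (4 * 10 ^ 10) by positivity]
  have hx0 : 0 < x := by linarith only [hn, h2]
  have k1 : Q ≤ x' * (21 * n / 10 ^ 8) := by
    clear * - x' W d x n hn hd hW2 h2 hx0' Q hQ
    have : x' * (W + d - x) ≤ x' * (21 * n / 10 ^ 8) :=
      mul_le_mul_of_nonneg_left (by linarith only [hn, hd, hW2, h2]) hx0'.le
    linarith only [hQ, this]
  have k2 : h * g ≤ n * (n / 10 ^ 26) := mul_le_mul (by linarith only [hn, hh]) hg hg0 hn.le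
  have k3 : x' * (166 * n / 1000) ≤ x' * (x - h) :=
    mul_le_mul_of_nonneg_left (by clear * - n x h hn hh h2 hx0'; linarith only [hn, hh, h2]) hx0'.le
  have k4 : (W + x' - x + E) * (W + x - x' + E) ≤ (x' + 22 * n / 10 ^ 8) * n :=
    mul_le_mul (by clear * - W x' x E n hn hW2 hE2 h2; linarith only [hn, hW2, hE2, h2]) (by clear * - W x x' E n hn hW2 hE2 hx hx0'; linarith only [hn, hW2, hE2, hx, hx0']) (by linarith only [hn, hW1, hE1, hx, h2]) (by linarith only [hn, hx0'])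
  have k6 : x * d ≤ n * (19 * n / 10 ^ 24) := mul_le_mul (by linarith only [hn, hx, hx0']) hd hd0 hn.le
  have k7 : (x + x') * d ≤ n * (19 * n / 10 ^ 24) := mul_le_mul (by linarith only [hn, hx]) hd hd0 hn.le
  have k8 : (x' + g) * d ≤ n * (19 * n / 10 ^ 24) := mul_le_mul (by clear * - x' g n x hn hx hg h2 d hd hd0; linarith only [hn, hx, hg, h2]) hd hd0 hn.le
  have k9 : 0 < n * n := by positivity
  have k10 : n / (4 * 10 ^ 10) * n ≤ x' * n := mul_le_mul_of_nonneg_right h1 hn.le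
  clear * - x x' P d Pg h g Q W E n hP hPg0 hPg hZ k1 k2 k3 k4 k6 k7 k8 k9 k10
  linarith only [hP, hPg0, hPg, hZ, k1, k2, k3, k4, k6, k7, k8, k9, k10]

theorem cell_c4 (a b β : ℕ) (μ : ℝ) :
    2 * μ * ((a : ℝ) * b) - μ * (μ - 2) * (b : ℝ) ^ 2 - (((a + b) * (a + b - β) : ℕ) : ℝ)
      ≤ (((a + b) * min β (a + b) : ℕ) : ℝ) := by
  have h : (a + b) * min β (a + b) + (a + b) * (a + b - β) = (a + b) * (a + b) := by
    rw [← Nat.mul_add]
    congr 1
    omega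
  have h2 : (((a + b) * min β (a + b) : ℕ) : ℝ) + (((a + b) * (a + b - β) : ℕ) : ℝ)
      = ((a : ℝ) + b) * ((a : ℝ) + b) := by exact_mod_cast h
  linarith only [h2, sq_nonneg ((a : ℝ) - (μ - 1) * b), sq_nonneg (↑a - (μ - (1 : ℝ)) * ↑b)]

theorem giant_c4 (a b d : ℕ) : (a : ℝ) * b - d * b ≤ (((a - d) * b : ℕ) : ℝ) := by
  have h : a * b ≤ (a - d) * b + d * b := by
    rw [← Nat.add_mul]
    exact Nat.mul_le_mul_right _ (by omega)
  have h2 : (a : ℝ) * b ≤ (((a - d) * b : ℕ) : ℝ) + d * b := by exact_mod_cast h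
  linarith only [h2]

theorem core_false {X X' B : Finset α} {LL : Finset (Finset α)} {Y Z : α → ℝ}
    {m c : Finset α → ℝ} {d : ℕ} (H : CoreHyp X X' B LL Y Z m c d) {n : ℝ} (hn : 10 ^ 70 ≤ n)
    (hd : (d : ℝ) ≤ 19 * n / 10 ^ 24) (hW1 : n / 3 - 3 * n / 10 ^ 24 ≤ (B.card : ℝ))
    (hW2 : (B.card : ℝ) ≤ n / 3 + 3 * n / 10 ^ 24)
    (hx : (X.card : ℝ) + X'.card ≤ n / 3 + 3 * n / 10 ^ 24)
    (hline : ∀ l ∈ LL, ((l ∩ (X ∪ X')).card : ℝ) + (l ∩ B).card ≤ n / 3 + n / 10 ^ 24)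
    (hcase : (3 * n / 10 ^ 8 ≤ X.card ∧ 3 * n / 10 ^ 8 ≤ X'.card ∧
        n / 3 - 4 * n / 10 ^ 10 ≤ (X.card : ℝ) + X'.card) ∨
      (n / (4 * 10 ^ 10) ≤ X'.card ∧ n / 3 - 20 * n / 10 ^ 8 ≤ X.card)) : False := by
  have hn0 : 0 < n := by linarith only [hn, show (0 : ℝ) < 10 ^ 70 by positivity]
  obtain ⟨b, g, htile, hin⟩ := core_levels H
  obtain ⟨σ, hσ1, hσ2⟩ : ∃ σ : ℕ, n / 10 ^ 11 ≤ σ ∧ (σ : ℝ) ≤ n / 10 ^ 11 + 1 :=
    ⟨⌈n / 10 ^ 11⌉₊, Nat.le_ceil _, (Nat.ceil_lt_add_one (by positivity)).le⟩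
  have hx0 : (0 : ℝ) ≤ X.card := Nat.cast_nonneg _
  have hx0' : (0 : ℝ) ≤ X'.card := Nat.cast_nonneg _
  have hd0 : (0 : ℝ) ≤ d := Nat.cast_nonneg _
  have hz := core_zone (MM X X' B LL) (fun l => (l ∩ X).card) (fun l => (l ∩ X').card)
    (fun l => (l ∩ B).card) b g X.card X'.card B.card d σ htile hin
    (fun l hl => core_one H hl)
    (by
      have : (X.card : ℝ) ≤ B.card + X'.card + 2 * σ := by linarith only [hn, hW1, hx, hσ1]
      exact_mod_cast this)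
    (by
      have : (X'.card : ℝ) ≤ B.card + X.card + 2 * σ := by linarith only [hn, hW1, hx, hσ1]
      exact_mod_cast this)
  set M := MM X X' B LL with hM
  set NG := M.filter (fun l => (l ∩ X).card + (l ∩ X').card ≤ σ) with hNG
  set GG := M.filter (fun l => σ < (l ∩ X).card + (l ∩ X').card) with hGG
  have hMsub : M ⊆ LL := Finset.filter_subset _ _
  have hGsub : GG ⊆ LL := (Finset.filter_subset _ _).trans hMsub
  -- number of giants
  have hG : (GG.card : ℝ) ^ 2 ≤ n / 10 ^ 26 := by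
    clear * - α GG σ X X' B LL Y Z m c d H n hn hx hσ1
    have h1 : (GG.card : ℝ) * (σ : ℝ) ^ 2 ≤ ((X.card : ℝ) + X'.card) ^ 2 := by
      exact_mod_cast core_giants H σ
    have h2 : ((X.card : ℝ) + X'.card) ^ 2 ≤ n ^ 2 := by
      apply pow_le_pow_left₀ (by linarith only []) (by linarith only [hn, hx])
    have h3 : (n / 10 ^ 11) ^ 2 ≤ (σ : ℝ) ^ 2 := pow_le_pow_left₀ (by positivity) hσ1 2
    have h4 : (GG.card : ℝ) * (n / 10 ^ 11) ^ 2 ≤ 10 ^ 22 * (n / 10 ^ 11) ^ 2 := by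
      calc (GG.card : ℝ) * (n / 10 ^ 11) ^ 2 ≤ (GG.card : ℝ) * (σ : ℝ) ^ 2 :=
            mul_le_mul_of_nonneg_left h3 (Nat.cast_nonneg _)
        _ ≤ n ^ 2 := h1.trans h2
        _ = 10 ^ 22 * (n / 10 ^ 11) ^ 2 := by ring
    have h5 : (GG.card : ℝ) ≤ 10 ^ 22 := le_of_mul_le_mul_right h4 (by positivity)
    calc (GG.card : ℝ) ^ 2 ≤ (10 ^ 22) ^ 2 := pow_le_pow_left₀ (Nat.cast_nonneg _) h5 2
      _ ≤ n / 10 ^ 26 := by linarith only [hn]
  have hb1 : ∑ l ∈ GG, ((l ∩ X').card : ℝ) ≤ X'.card + (GG.card : ℝ) ^ 2 := by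
    exact_mod_cast core_bonf H hGsub X'
  have hb2 : ∑ l ∈ GG, ((l ∩ X).card : ℝ) ≤ X.card + (GG.card : ℝ) ^ 2 := by
    exact_mod_cast core_bonf H hGsub X
  have hj : ∀ l ∈ M, ((l ∩ X).card : ℝ) + (l ∩ X').card ≤ n / 6 + 10 * n / 10 ^ 24 := by
    clear * - α M X X' B n hline hMsub d LL Y Z m c H hd
    intro l hl
    have h1 := hline l (hMsub hl)
    rw [core_j H l] at h1
    push_cast at h1
    have h2 : ((l ∩ X).card : ℝ) + (l ∩ X').card ≤ (l ∩ B).card + d := by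
      exact_mod_cast core_one H hl
    linarith only [hd, h1, h2]
  have hP : (X.card : ℝ) * X'.card
      ≤ ∑ l ∈ M, ((l ∩ X).card : ℝ) * (l ∩ X').card + X.card * d := by
    exact_mod_cast core_pairs H
  have hQ : ∑ l ∈ M, ((l ∩ X').card : ℝ) ^ 2 + X'.card * X.card ≤ X'.card * (B.card + d) := by
    exact_mod_cast core_sq H
  have hdef : ∑ l ∈ M, ((((l ∩ X).card + (l ∩ X').card) *
      ((l ∩ X).card + (l ∩ X').card - (l ∩ B).card) : ℕ) : ℝ) ≤ ((X.card : ℝ) + X'.card) * d := by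
    exact_mod_cast core_def H
  have hsplit : ∑ l ∈ NG, ((l ∩ X).card : ℝ) * (l ∩ X').card
      = ∑ l ∈ M, ((l ∩ X).card : ℝ) * (l ∩ X').card
        - ∑ l ∈ GG, ((l ∩ X).card : ℝ) * (l ∩ X').card := by
    clear * - α X X' σ M NG GG
    have := Finset.sum_filter_add_sum_filter_not M
      (fun l => (l ∩ X).card + (l ∩ X').card ≤ σ) (fun l => ((l ∩ X).card : ℝ) * (l ∩ X').card)
    simp only [not_le] at this
    linarith
  have hgi : ∑ l ∈ GG, ((l ∩ X).card : ℝ) * (l ∩ X').card - d * (X'.card + (GG.card : ℝ) ^ 2)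
      ≤ ∑ l ∈ GG, ((((l ∩ X).card - d) * (l ∩ X').card : ℕ) : ℝ) := by
    have h1 := Finset.sum_le_sum (s := GG) (fun l _ => giant_c4 (l ∩ X).card (l ∩ X').card d)
    rw [Finset.sum_sub_distrib, ← Finset.mul_sum] at h1
    have h2 := mul_le_mul_of_nonneg_left hb1 hd0
    linarith only [h1, h2]
  have hng : ∀ μ : ℝ, 2 ≤ μ → 2 * μ * (∑ l ∈ M, ((l ∩ X).card : ℝ) * (l ∩ X').card
        - ∑ l ∈ GG, ((l ∩ X).card : ℝ) * (l ∩ X').card)
      - μ * (μ - 2) * ∑ l ∈ M, ((l ∩ X').card : ℝ) ^ 2 - ((X.card : ℝ) + X'.card) * d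
      ≤ ∑ l ∈ NG, ((((l ∩ X).card + (l ∩ X').card) *
        min (l ∩ B).card ((l ∩ X).card + (l ∩ X').card) : ℕ) : ℝ) := by
    clear * - α NG X X' B M σ GG d hdef hsplit
    intro μ hμ
    have h1 := Finset.sum_le_sum (s := NG)
      (fun l _ => cell_c4 (l ∩ X).card (l ∩ X').card (l ∩ B).card μ)
    rw [Finset.sum_sub_distrib, Finset.sum_sub_distrib, ← Finset.mul_sum, ← Finset.mul_sum,
      hsplit] at h1
    have h2 : ∑ l ∈ NG, ((l ∩ X').card : ℝ) ^ 2 ≤ ∑ l ∈ M, ((l ∩ X').card : ℝ) ^ 2 :=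
      Finset.sum_le_sum_of_subset_of_nonneg (Finset.filter_subset _ _)
        (fun _ _ _ => sq_nonneg _)
    have h3 : ∑ l ∈ NG, ((((l ∩ X).card + (l ∩ X').card) *
        ((l ∩ X).card + (l ∩ X').card - (l ∩ B).card) : ℕ) : ℝ)
        ≤ ∑ l ∈ M, ((((l ∩ X).card + (l ∩ X').card) *
        ((l ∩ X).card + (l ∩ X').card - (l ∩ B).card) : ℕ) : ℝ) :=
      Finset.sum_le_sum_of_subset_of_nonneg (Finset.filter_subset _ _)
        (fun _ _ _ => Nat.cast_nonneg _)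
    have h4 := mul_le_mul_of_nonneg_left h2 (show 0 ≤ μ * (μ - 2) by linarith only [hμ, mul_nonneg_of_nonpos_of_nonpos (Mathlib.Tactic.Linarith.sub_nonpos_of_le hμ) (Mathlib.Tactic.Linarith.sub_nonpos_of_le hμ)])
    linarith only [hdef, h1, h3, h4]
  have hE1 : 2 * n / 10 ^ 11 ≤ 3 * (d : ℝ) + 2 * σ + 2 := by linarith only [hσ1]
  have hE2 : 3 * (d : ℝ) + 2 * σ + 2 ≤ 3 * n / 10 ^ 11 := by linarith only [hn, hd, hσ2]
  have hh0 : 0 ≤ n / 6 + 10 * n / 10 ^ 24 := by positivity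
  rcases hcase with ⟨h1, h2, h3⟩ | ⟨h1, h2⟩
  · have hPg : (∑ l ∈ GG, ((l ∩ X).card : ℝ) * (l ∩ X').card) * ((X.card : ℝ) + X'.card) ^ 2
        ≤ (n / 6 + 10 * n / 10 ^ 24) * ((X.card : ℝ) ^ 2 * (X'.card + (GG.card : ℝ) ^ 2)
          + (X'.card : ℝ) ^ 2 * (X.card + (GG.card : ℝ) ^ 2)) := by
      clear * - α GG X X' n hj σ M hb1 hb2 hh0
      have a1 : ∀ l ∈ GG, ((l ∩ X).card : ℝ) * (l ∩ X').card * ((X.card : ℝ) + X'.card) ^ 2
          ≤ (n / 6 + 10 * n / 10 ^ 24) * ((X.card : ℝ) ^ 2 * (l ∩ X').card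
            + (X'.card : ℝ) ^ 2 * (l ∩ X).card) := by
        intro l hl
        have b1 := hj l (Finset.filter_subset _ _ hl)
        have b2 := mul_le_mul_of_nonneg_right b1
          (show (0 : ℝ) ≤ (X.card : ℝ) ^ 2 * (l ∩ X').card + (X'.card : ℝ) ^ 2 * (l ∩ X).card by
            positivity)
        linarith only [b2, sq_nonneg ((X.card : ℝ) * (l ∩ X').card - (X'.card : ℝ) * (l ∩ X).card), sq_nonneg (↑(#X) * ↑(#(l ∩ X')) - ↑(#X') * ↑(#(l ∩ X)))]
      have a2 := Finset.sum_le_sum a1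
      rw [← Finset.sum_mul, ← Finset.mul_sum, Finset.sum_add_distrib, ← Finset.mul_sum,
        ← Finset.mul_sum] at a2
      refine a2.trans (mul_le_mul_of_nonneg_left ?_ hh0)
      exact add_le_add (mul_le_mul_of_nonneg_left hb1 (sq_nonneg _))
        (mul_le_mul_of_nonneg_left hb2 (sq_nonneg _))
    have := hng 2 le_rfl
    exact numA_c4 hn0 hd0 hd hW2 hW1 hE1 hE2 hx (sq_nonneg _) hG hh0 le_rfl h1 h2 h3 hP hPg
      (by clear * - α M X X' GG d B σ NG hz hgi this; linarith only [hz, hgi, this])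
  · have hPg : ∑ l ∈ GG, ((l ∩ X).card : ℝ) * (l ∩ X').card
        ≤ (n / 6 + 10 * n / 10 ^ 24) * (X'.card + (GG.card : ℝ) ^ 2) := by
      clear * - α GG X X' n hj σ M hb1 hh0
      have a1 : ∀ l ∈ GG, ((l ∩ X).card : ℝ) * (l ∩ X').card
          ≤ (n / 6 + 10 * n / 10 ^ 24) * (l ∩ X').card := by
        intro l hl
        have b1 := hj l (Finset.filter_subset _ _ hl)
        have b2 : (0 : ℝ) ≤ (l ∩ X').card := Nat.cast_nonneg _
        exact mul_le_mul_of_nonneg_right (by linarith only [b1]) b2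
      have a2 := Finset.sum_le_sum a1
      rw [← Finset.mul_sum] at a2
      exact a2.trans (mul_le_mul_of_nonneg_left hb1 hh0)
    have := hng (10 ^ 5) (by norm_num)
    exact numB_c4 hn0 hd0 hd hW2 hW1 hE1 hE2 hx (sq_nonneg _) hG le_rfl h1 h2 hP
      (Finset.sum_nonneg (fun _ _ => by clear * - α X X' hPg hQ; positivity)) hPg hQ (by clear * - α M X X' GG d B σ NG hz hgi this hPg hQ; linarith only [hz, hgi, this])

end Pool.Agent.Work.MP_d88d93_co
end

-- merged part: Pool.Agent.Work.MP_d88d93_co.T4b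
section
/-! Three orthogonal clusters with a separated pair of parts are impossible. -/

namespace Pool.Agent.Work.MP_d88d93_co

open Finset

variable {α : Type} [DecidableEq α]

omit [DecidableEq α] in
theorem near_t4b {C : Conf α} {e1 e2 e3 : V3} (hF : Frame e1 e2 e3) {p : α}
    (hp : p ∈ C.near e1 (1 / 10 ^ 24)) : dot e1 (C.u p) ≠ 0 ∧ p ∉ C.near e2 (1 / 10 ^ 24) ∧
      |dot e2 (C.u p) / dot e1 (C.u p)| < 1 := by
  obtain ⟨h1, h2⟩ := C.mem_near.1 hp
  have h3 := hF.sum_sq (C.unit p h1)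
  have h4 := sq_nonneg (dot e3 (C.u p))
  have h5 : dot e2 (C.u p) ^ 2 < dot e1 (C.u p) ^ 2 := by linarith only [h2, h3, h4]
  have h6 : |dot e2 (C.u p)| < |dot e1 (C.u p)| := sq_lt_sq.1 h5
  have h7 : 0 < |dot e1 (C.u p)| := (abs_nonneg _).trans_lt h6
  refine ⟨abs_pos.1 h7, fun h => ?_, ?_⟩
  · linarith only [h3, h4, h5, h, (C.mem_near.1 h).2]
  · rw [abs_div, div_lt_one h7]
    exact h6

theorem good_false (C : Conf α) (hT : C.Tight (1 / 10 ^ 70)) {e1 e2 e3 : V3}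
    (hF : Frame e1 e2 e3)
    (hj : ((C.S \ (C.near e1 (1 / 10 ^ 24) ∪ C.near e2 (1 / 10 ^ 24)
      ∪ C.near e3 (1 / 10 ^ 24))).card : ℝ) ≤ 1 / 10 ^ 24 * C.n)
    {A : Finset α} (hA : A ⊆ C.near e1 (1 / 10 ^ 24)) (hD : ∀ p ∈ A, C.D p ≤ 1 / 10 ^ 24 * C.n)
    (hA1 : C.n / 3 - 4 * C.n / 10 ^ 24 ≤ (A.card : ℝ))
    (hG : Good A (fun p => dot e2 (C.u p) / dot e1 (C.u p))
      (fun p => dot e3 (C.u p) / dot e1 (C.u p)) C.n) : False := by
  classical
  obtain ⟨X, X', hX, hX', hsep, hcase⟩ := hG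
  have hn := hT.n_pos
  have hXA : X ∪ X' ⊆ A := union_subset hX hX'
  have hXN : X ∪ X' ⊆ C.near e1 (1 / 10 ^ 24) := hXA.trans hA
  have hS : ∀ {a : V3} {p : α}, p ∈ C.near a (1 / 10 ^ 24) → p ∈ C.S :=
    fun h => (C.mem_near.1 h).1
  set B := C.near e2 (1 / 10 ^ 24) with hB
  set LL := C.L.filter fun l => (l ∩ (X ∪ X')).Nonempty ∧ ∀ r ∈ l, r ∉ C.near e3 (1 / 10 ^ 24)
    with hLL
  have hL : ∀ l ∈ LL, l ∈ C.L := fun l hl => (mem_filter.1 hl).1
  have hmc : ∀ l ∈ LL, (l ∩ B).Nonempty → ∃ m c : ℝ, ∀ r ∈ C.S,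
      (r ∈ l ↔ dot e3 (C.u r) = m * dot e2 (C.u r) + c * dot e1 (C.u r)) := by
    rintro l hl ⟨q, hq⟩
    obtain ⟨p, hp⟩ := (mem_filter.1 hl).2.1
    obtain ⟨m, c, -, h, -⟩ := mixed C hF le_rfl (hL l hl) (mem_inter.1 hp).1 (mem_inter.1 hq).1
      (hXN (mem_inter.1 hp).2) (mem_inter.1 hq).2
    exact ⟨m, c, h⟩
  choose! m c hmc using hmc
  have nB : ∀ p ∈ X ∪ X', p ∉ B := fun p hp => (near_t4b hF (hXN hp)).2.1
  have hpos : ∀ p ∈ X, ∀ p' ∈ X', dot e2 (C.u p) / dot e1 (C.u p)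
      < dot e2 (C.u p') / dot e1 (C.u p') := by
    intro p hp p' hp'
    have h1 := hsep p hp p' hp'
    have h2 : 0 ≤ |dot e3 (C.u p') / dot e1 (C.u p') - dot e3 (C.u p) / dot e1 (C.u p)| / 10 ^ 11 :=
      by positivity
    linarith only [h1, h2]
  have H : CoreHyp X X' B LL
      (fun p => if p ∈ B then dot e1 (C.u p) / dot e2 (C.u p) else dot e2 (C.u p) / dot e1 (C.u p))
      (fun p => if p ∈ B then dot e3 (C.u p) / dot e2 (C.u p) else dot e3 (C.u p) / dot e1 (C.u p))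
      m c ⌊19 * (1 / 10 ^ 24) * C.n⌋₊ := by
    clear * - α X X' B LL e1 C e2 e3 m c hF hXN nB hpos hmc hS hL hsep hj hD hXA
    refine ⟨fun p hp => ?_, fun p hp p' hp' => ?_, disjoint_left.2 nB, fun l hl hb p hp => ?_,
      fun l hl hb q hq => ?_, fun l hl l' hl' h => C.inter_le_one (hL l hl) (hL l' hl') h,
      fun p hp p' hp' => ?_, fun p hp => ?_⟩
    · by_cases h : p ∈ B
      · rw [if_pos h]
        exact (near_t4b hF.swap12 h).2.2
      · rw [if_neg h]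
        exact (near_t4b hF (hXN ((mem_union.1 hp).resolve_right h))).2.2
    · rw [if_neg (nB p (mem_union_left _ hp)), if_neg (nB p' (mem_union_right _ hp'))]
      exact hpos p hp p' hp'
    · have h0 := (near_t4b hF (hXN hp)).1
      rw [if_neg (nB p hp), if_neg (nB p hp), hmc l hl hb p (hS (hXN hp))]
      constructor
      · intro h
        rw [h]
        field_simp
        ring
      · intro h
        field_simp at h
        linarith only [h]
    · have h0 := (near_t4b hF.swap12 hq).1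
      rw [if_pos hq, if_pos hq, hmc l hl hb q (hS hq)]
      constructor
      · intro h
        rw [h]
        field_simp
        ring
      · intro h
        field_simp at h
        linarith only [h]
    · have a1 := hXN (mem_union_left _ hp)
      have a2 := hXN (mem_union_right _ hp')
      obtain ⟨l, hl, h1, h2⟩ := C.cov p (hS a1) p' (hS a2) fun h =>
        (hpos p hp p' hp').ne (by rw [h])
      refine ⟨l, mem_filter.2 ⟨hl, ⟨p, mem_inter.2 ⟨h1, mem_union_left _ hp⟩⟩, fun r hr hr' => ?_⟩,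
        h1, h2⟩
      obtain ⟨m', c', hm, h, -⟩ := mixed C hF.swap23 le_rfl hl h1 hr a1 hr'
      have b1 := (near_t4b hF a1).1
      have b2 := (near_t4b hF a2).1
      have e : dot e2 (C.u p') / dot e1 (C.u p') - dot e2 (C.u p) / dot e1 (C.u p) =
          m' * (dot e3 (C.u p') / dot e1 (C.u p') - dot e3 (C.u p) / dot e1 (C.u p)) := by
        rw [(h p (hS a1)).1 h1, (h p' (hS a2)).1 h2]
        field_simp
        ring
      have h3 := hsep p hp p' hp'
      beta_reduce at h3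
      rw [e] at h3
      have h4 := (h3.trans_le (le_abs_self _)).trans_le ((abs_mul _ _).le.trans
        (mul_le_mul_of_nonneg_right hm (abs_nonneg _)))
      linarith only [h4]
    · refine Nat.le_floor (le_trans ?_ (defect C hF.u1 (κ := 1 / 10 ^ 24) (by positivity)
        (T := B ∪ C.near e3 (1 / 10 ^ 24)) (hXN hp) (by rwa [← union_assoc]) (hD p (hXA hp))))
      rw [Nat.cast_sum]
      refine (sum_le_sum fun l hl => ?_).trans (sum_le_sum_of_subset_of_nonneg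
        (fun l hl => C.mem_Lp.2 ⟨hL l (mem_filter.1 hl).1, (mem_filter.1 hl).2⟩)
        fun _ _ _ => Nat.cast_nonneg _)
      have h1 : (l ∩ (B ∪ C.near e3 (1 / 10 ^ 24))).card ≤ (l ∩ B).card :=
        card_le_card fun r hr => mem_inter.2 ⟨(mem_inter.1 hr).1,
          (mem_union.1 (mem_inter.1 hr).2).resolve_right
            ((mem_filter.1 (mem_filter.1 hl).1).2.2 r (mem_inter.1 hr).1)⟩
      have h2 : (l ∩ (X ∪ X')).card ≤ (l ∩ C.near e1 (1 / 10 ^ 24)).card :=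
        card_le_card (inter_subset_inter_left hXN)
      exact Nat.cast_le.2 (by omega)
  have s1 := sizes C hT (κ := 1 / 10 ^ 24) (by norm_num) hF hj
  have s2 := sizes C hT (κ := 1 / 10 ^ 24) (by norm_num) hF.swap12 (by rwa [union_comm B])
  rw [← hB] at s2
  refine core_false H (n := C.n) (by linarith only [hT, hT.big])
    ((Nat.floor_le (by positivity)).trans (by linarith only [])) (by linarith only [s2, s2.1]) (by linarith only [s2, s2.2])
    ?_ (fun l hl => ?_) ?_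
  · have h1 : (X.card : ℝ) + X'.card ≤ (C.near e1 (1 / 10 ^ 24)).card := by
      rw [← Nat.cast_add, ← card_union_of_disjoint (core_disj H)]
      exact Nat.cast_le.2 (card_le_card hXN)
    clear * - α X X' C e1 s1 h1
    linarith only [s1, h1, s1.2]
  · have h1 : ((l ∩ (X ∪ X')).card : ℝ) + (l ∩ B).card ≤ l.card := by
      rw [← Nat.cast_add, ← card_union_of_disjoint
        (H.disj.mono inter_subset_right inter_subset_right)]
      exact Nat.cast_le.2 (card_le_card (union_subset inter_subset_left inter_subset_left))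
    clear * - α l X X' B C hn h1 hT hL hl
    linarith only [hn, h1, hT, hL, hl, hT.line l (hL l hl)]
  · rcases hcase with ⟨h1, h2, h3⟩ | ⟨h1, h2⟩
    · exact Or.inl ⟨h1, h2, by clear * - α C X X' A hA1 hn h3 h1 h2; linarith only [hA1, hn, h3]⟩
    · exact Or.inr ⟨h1, by clear * - α C X A hA1 hn h2 h1; linarith only [hA1, hn, h2]⟩

end Pool.Agent.Work.MP_d88d93_co
end

-- merged part: Pool.Agent.Work.MP_d88d93_co.T3a
section
/-! A cluster and many middle points give a rich strip. -/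

namespace Pool.Agent.Work.MP_d88d93_co

open Finset

variable {α : Type} [DecidableEq α]

theorem half_T3a {a p r : V3} {γ ρ : ℝ} (ha : dot a a = 1) (hp : dot p p = 1) (hr : dot r r = 1)
    (hγ : 0 < γ) (hγ1 : γ ≤ 1) (hρ : ρ ≤ γ / 32) (h1 : 1 - dot a p ^ 2 ≤ ρ)
    (h2 : γ ≤ dot a r ^ 2) : γ / 2 ≤ dot p r ^ 2 := by
  have h := sub_mul_sq ha hp hr
  have hx := dot_sq_le_one ha hp
  have h3 : (dot p r - dot a p * dot a r) ^ 2 ≤ γ / 32 := by
    clear * - p r a γ ρ hρ h1 h hx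
    linarith only [hρ, h1, h, hx, sq_nonneg (det3 a p r), mul_nonneg (sub_nonneg.2 hx) (sq_nonneg (dot a r)), sq_nonneg (det3 a p r), sq_nonneg (dot a r)]
  have h4 : 31 / 32 * γ ≤ dot a p ^ 2 * dot a r ^ 2 :=
    mul_le_mul (by linarith only [hγ1, hρ, h1]) h2 hγ.le (sq_nonneg _)
  clear * - γ p r a ρ hγ hρ h1 h2 h h3
  linarith only [hγ, hρ, h1, h2, h, h3, sq_nonneg (dot p r + 2 * (dot p r - dot a p * dot a r)), sq_nonneg (dot p r + (2 : ℝ) * (dot p r - dot a p * dot a r)), sq_nonneg (det3 a p r)]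

theorem det_T3a {a p q r : V3} (ha : dot a a = 1) (hp : dot p p = 1) (hq : dot q q = 1)
    (hr : dot r r = 1) (h : det3 r q p = 0) : det3 a q r ^ 2 ≤ 1 - dot a p ^ 2 := by
  have h1 := det3_sq_le (a - dot a p • p) q r
  have h2 : det3 (a - dot a p • p) q r = det3 a q r + dot a p * det3 r q p := by
    simp only [det3, Pi.sub_apply, Pi.smul_apply, smul_eq_mul]
    ring
  rw [h2, h, hq, hr] at h1
  simp only [dot_sub_left, dot_sub_right, dot_smul_left, dot_smul_right, ha, hp, dot_comm p a]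
    at h1
  linarith only [h1]

theorem line_T3a (C : Conf α) {γ ρ : ℝ} (hγ : 0 < γ) (hγ1 : γ ≤ 1) (hρ : ρ ≤ γ / 32) {a : V3}
    (ha : dot a a = 1) {r : α} (hr : r ∈ C.mid a γ) {l : Finset α} (hl : l ∈ C.Lp r) :
    γ / 4 * ∑ q ∈ l.erase r, (if q ∈ C.near a ρ then (1 : ℝ) else 0) - 2 * C.dl l ≤
      ∑ q ∈ l.erase r, if 1 / 8 ≤ 1 - dot a (C.u q) ^ 2 ∧ det3 a (C.u q) (C.u r) ^ 2 ≤ ρ
        then (1 : ℝ) else 0 := by
  obtain ⟨hl1, hl2⟩ := C.mem_Lp.1 hl
  obtain ⟨hrS, hr1, hr2⟩ := C.mem_mid.1 hr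
  have hd := C.dl_nonneg l
  by_cases hc : ∃ p ∈ l.erase r, p ∈ C.near a ρ
  · obtain ⟨p, hp, hpU⟩ := hc
    obtain ⟨hpS, hp1⟩ := C.mem_near.1 hpU
    have hpl := mem_of_mem_erase hp
    have h1 := (abs_le.1 (C.L1 hl1 hpl)).2
    have h2 : γ / 2 ≤ C.s p r ^ 2 :=
      half_T3a ha (C.unit p hpS) (C.unit r hrS) hγ hγ1 hρ hp1 hr1
    have h3 : (1 : ℝ) ≤ ∑ q ∈ l.erase r, if q ∈ C.near a ρ then (1 : ℝ) else 0 := by
      have := single_le_sum (f := fun q => if q ∈ C.near a ρ then (1 : ℝ) else 0)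
        (fun q _ => by split_ifs <;> norm_num) hp
      simpa only [if_pos hpU] using this
    have h4 : ∑ q ∈ l.erase r, ((1 - γ / 4) * (if q ∈ C.near a ρ then (1 : ℝ) else 0) -
        if 1 / 8 ≤ 1 - dot a (C.u q) ^ 2 ∧ det3 a (C.u q) (C.u r) ^ 2 ≤ ρ then (1 : ℝ) else 0) ≤
        ∑ q ∈ l.erase r, (2 * C.s p q ^ 2 - 1) := by
      clear * - α γ C a ρ r p l hl1 ha hpS hrS hl2 hpl hγ hρ hr1 hr2 hp1
      refine sum_le_sum fun q hq => ?_
      obtain ⟨hqr, hql⟩ := mem_erase.1 hq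
      have hqS := C.sub l hl1 hql
      have t : 1 - C.s p q ^ 2 ≤ _ := tri ha (C.unit p hpS) (C.unit q hqS)
      have d := det_T3a ha (C.unit p hpS) (C.unit q hqS) (C.unit r hrS)
        ((C.mem_iff_det hl1 hl2 hql hqr.symm hpS).1 hpl)
      have s0 := sq_nonneg (C.s p q)
      split_ifs with c1 c2 c2
      · linarith only [hγ, hρ, hr1, hr2, c2, c1, (C.mem_near.1 c1).2]
      · linarith only [hρ, hp1, t, c1, (C.mem_near.1 c1).2]
      · linarith only [s0]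
      · have := not_le.1 fun h => c2 ⟨h, d.trans hp1⟩
        linarith only [hγ, hρ, hr1, hr2, hp1, t, this]
    rw [sum_sub_distrib, ← mul_sum] at h4
    rw [← add_sum_erase l _ hl2] at h1
    clear * - γ α l r C a ρ p h1 h2 h3 h4 hγ hr1 hr2 hγ1
    linarith only [h1, h2, h3, h4, hγ1, sq_nonneg (C.s p r), mul_nonneg_of_nonpos_of_nonpos (Mathlib.Tactic.Linarith.sub_nonpos_of_le hγ1) (Mathlib.Tactic.Linarith.sub_nonpos_of_le h3)]
  · rw [sum_eq_zero fun q hq => if_neg fun h => hc ⟨q, hq, h⟩]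
    exact le_trans (by linarith only [hd]) (sum_nonneg fun q _ => by split_ifs <;> norm_num)

theorem point_T3a (C : Conf α) {γ ρ : ℝ} (hγ : 0 < γ) (hγ1 : γ ≤ 1) (hρ : ρ ≤ γ / 32) {a : V3}
    (ha : dot a a = 1) {r : α} (hr : r ∈ C.mid a γ) :
    γ / 4 * ((C.near a ρ).card : ℝ) - 2 * C.D r ≤
      ∑ q ∈ C.S, if 1 / 8 ≤ 1 - dot a (C.u q) ^ 2 ∧ det3 a (C.u q) (C.u r) ^ 2 ≤ ρ
        then (1 : ℝ) else 0 := by
  obtain ⟨hrS, hr1, hr2⟩ := C.mem_mid.1 hr
  have e : ((C.near a ρ).card : ℝ) =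
      ∑ q ∈ C.S.erase r, if q ∈ C.near a ρ then (1 : ℝ) else 0 := by
    rw [sum_boole, filter_mem_eq_inter, inter_eq_right.2 fun q hq => ?_]
    obtain ⟨h1, h2⟩ := C.mem_near.1 hq
    exact mem_erase.2 ⟨by rintro rfl; linarith only [hγ, hρ, h2, hr2], h1⟩
  refine le_trans ?_ (sum_le_sum_of_subset_of_nonneg (erase_subset r _)
    fun q _ _ => by split_ifs <;> norm_num)
  rw [e, C.partition hrS, C.partition hrS, Conf.D, mul_sum, mul_sum, ← sum_sub_distrib]
  exact sum_le_sum fun l hl => line_T3a C hγ hγ1 hρ ha hr hl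

theorem T3a (C : Conf α) {ε γ ρ m0 z0 : ℝ} (hT : C.Tight ε) (hγ : 0 < γ) (hγ1 : γ ≤ 1)
    (hρ : ρ ≤ γ / 32) (hm : 0 < m0) (hz0 : 0 < z0) (hε : 32 * ε ≤ γ * m0 * z0)
    {a : V3} (ha : dot a a = 1) (hU : m0 * C.n ≤ ((C.near a ρ).card : ℝ))
    {Z : Finset α} (hZ : Z ⊆ C.mid a γ) (hz : z0 * C.n ≤ (Z.card : ℝ)) :
    ∃ ν : V3, dot ν ν = 1 ∧ dot ν a = 0 ∧
      γ * m0 * z0 / 8 * C.n ≤ ((Z.filter (fun r => dot ν (C.u r) ^ 2 ≤ 8 * ρ)).card : ℝ) := by
  have hn := hT.n_pos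
  have hZS : Z ⊆ C.S := fun r hr => (C.mem_mid.1 (hZ hr)).1
  have h1 := sum_le_sum fun r (hr : r ∈ Z) => point_T3a C hγ hγ1 hρ ha (hZ hr)
  have h2 := (sum_le_sum_of_subset_of_nonneg hZS fun p _ _ => C.D_nonneg p).trans (C.sum_D hT)
  have h3 := mul_le_mul hz hU (by positivity) (Nat.cast_nonneg _)
  rw [sum_comm, sum_sub_distrib, sum_const, nsmul_eq_mul, ← mul_sum] at h1
  have hS : C.S.Nonempty := card_pos.1 (by unfold Conf.n at hn; exact_mod_cast hn)
  obtain ⟨q, hq, h4⟩ := exists_le_of_sum_le (f := fun _ => γ * m0 * z0 / 8 * C.n) hS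
    (le_trans (by
      clear * - α C γ m0 z0 Z a ρ ε h2 h3 hγ hε h1
      rw [sum_const, nsmul_eq_mul, show (C.S.card : ℝ) = C.n from rfl]
      linarith only [h2, h3, hγ, hε, mul_le_mul_of_nonneg_left h3 hγ.le,
        mul_le_mul_of_nonneg_right hε (sq_nonneg C.n), sq_nonneg C.n]) h1)
  rw [sum_boole] at h4
  obtain ⟨r, hr⟩ := card_pos.1 (Nat.cast_pos.1 (lt_of_lt_of_le (by positivity) h4))
  have h5 := (mem_filter.1 hr).2.1
  have h6 := cross_sq a (C.u q)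
  rw [ha, C.unit q hq] at h6
  obtain ⟨t, -, t1, t2⟩ := exists_unit (x := cross a (C.u q)) (by linarith only [h5, h6])
  have t3 : t ^ 2 ≤ 8 := by
    clear * - t a α C q h6 t1 h5
    rw [h6] at t1
    linarith only [t1, h5, sq_nonneg t, mul_nonneg_of_nonpos_of_nonpos (Mathlib.Tactic.Linarith.sub_nonpos_of_le (sq_nonneg t)) (Mathlib.Tactic.Linarith.sub_nonpos_of_le h5)]
  refine ⟨_, t2, by rw [dot_smul_left, dot_cross_left, mul_zero],
    h4.trans (Nat.cast_le.2 (card_le_card fun x hx => ?_))⟩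
  obtain ⟨x1, -, x2⟩ := mem_filter.1 hx
  refine mem_filter.2 ⟨x1, ?_⟩
  rw [dot_smul_left, dot_cross, mul_pow]
  exact mul_le_mul t3 x2 (sq_nonneg _) (by norm_num)

omit [DecidableEq α] in
theorem T3b (C : Conf α) {a ν : V3} (ha : dot a a = 1) (hν : dot ν ν = 1) (hνa : dot ν a = 0)
    {γ ρ e m : ℝ} (hγ : 0 < γ) (hρ : ρ ≤ γ / 144) (he : e ^ 2 ≤ γ / 24) {U Z : Finset α}
    (hU : U ⊆ C.near a ρ) (hZ : Z ⊆ C.mid a γ) (hUY : U ⊆ C.strip ν e) (hZY : Z ⊆ C.strip ν e)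
    (hm1 : m * C.n ≤ (U.card : ℝ)) (hm2 : m * C.n ≤ (Z.card : ℝ)) :
    ∀ p ∈ C.strip ν e,
      m * γ ^ 2 / 9216 * C.n ≤ ∑ q ∈ C.strip ν e, C.s p q ^ 2 * (1 - C.s p q ^ 2) := by
  intro p hp
  obtain ⟨hpS, hp1⟩ := C.mem_strip.1 hp
  have hpu := C.unit p hpS
  have key : ∀ T : Finset α, T ⊆ C.strip ν e → m * C.n ≤ (T.card : ℝ) →
      (∀ q ∈ T, (γ / 24) ^ 2 / 16 ≤ C.s p q ^ 2 * (1 - C.s p q ^ 2)) →
      m * γ ^ 2 / 9216 * C.n ≤ ∑ q ∈ C.strip ν e, C.s p q ^ 2 * (1 - C.s p q ^ 2) := by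
    clear * - α C ν e m γ p hpS
    intro T h1 h2 h3
    have h4 := card_nsmul_le_sum _ _ _ h3
    rw [nsmul_eq_mul] at h4
    refine le_trans ?_ (h4.trans (sum_le_sum_of_subset_of_nonneg h1 fun q hq _ =>
      mul_nonneg (sq_nonneg _) (sub_nonneg.2 (C.s_sq_le hpS (C.mem_strip.1 hq).1))))
    linarith only [h2, mul_le_mul_of_nonneg_right h2 (sq_nonneg γ), sq_nonneg γ]
  rcases lt_or_ge (1 - dot a (C.u p) ^ 2) (γ / 24) with h1 | h1
  · refine key Z hZY hm2 fun q hq => ?_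
    obtain ⟨q1, q2, q3⟩ := C.mem_mid.1 (hZ hq)
    exact le_trans (by clear * - γ C h1 ha hpu hγ q q1 q2 q3; linarith only [sq_nonneg ((1 : ℝ) * γ)])
      (near_mid ha hpu (C.unit q q1) hγ (by linarith only [hγ]) h1.le q2 q3)
  rcases lt_or_ge (dot a (C.u p) ^ 2) (γ / 24) with h2 | h2
  · have hF := frame_cross hν ha hνa
    have sq : ∀ q ∈ C.strip ν e, dot ν (C.u q) ^ 2 ≤ γ / 24 := fun q hq =>
      (sq_le_sq' (abs_le.1 (C.mem_strip.1 hq).2).1 (abs_le.1 (C.mem_strip.1 hq).2).2).trans he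
    refine key Z hZY hm2 fun q hq => ?_
    obtain ⟨q1, q2, q3⟩ := C.mem_mid.1 (hZ hq)
    have e1 := hF.sum_sq hpu
    have e2 := hF.sum_sq (C.unit q q1)
    exact le_trans (by clear * - γ C hF hZY hp hpu hq p q q1 sq ν ρ; linarith only [sq_nonneg ((1 : ℝ) * γ)]) (near_mid (ρ := γ / 12) (c := γ / 2) hF.u3 hpu (C.unit q q1)
      (by linarith only [hγ]) (by linarith only []) (by linarith only [h2, e1, sq, hp, sq p hp]) (by linarith only [hγ, q3, e2, sq, hZY, hq, sq q (hZY hq)])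
      (by linarith only [hγ, q2, e2, sq_nonneg (dot ν (C.u q))]))
  · refine key U hUY hm1 fun q hq => ?_
    obtain ⟨q1, q2⟩ := C.mem_near.1 (hU hq)
    rw [C.s_comm]
    exact near_mid ha (C.unit q q1) hpu (by linarith only [hγ]) (by linarith only [hρ]) q2 h2 h1

end Pool.Agent.Work.MP_d88d93_co
end

-- merged part: Pool.Agent.Work.MP_d88d93_co.IsoB
section
/-! One descent step for the potential of the isotropic position. -/

namespace Pool.Agent.Work.MP_d88d93_co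

open Finset

/-- Second moments of a family of vectors. -/
noncomputable def momIsoB {α : Type} (S : Finset α) (w : α → V3) (i j : Fin 3) : ℝ :=
  ∑ p ∈ S, w p i * w p j

/-- A quadratic form in three variables. -/
def qfIsoB (a b c d e f : ℝ) (x : V3) : ℝ :=
  a * (x 0 * x 0) + b * (x 1 * x 1) + c * (x 2 * x 2) + 2 * d * (x 0 * x 1) + 2 * e * (x 0 * x 2)
    + 2 * f * (x 1 * x 2)

/-- The symmetric matrix of the form applied to a vector. -/
def apIsoB (a b c d e f : ℝ) (x : V3) : V3 :=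
  ![dot ![a, d, e] x, dot ![d, b, f] x, dot ![e, f, c] x]

theorem sum_qfIsoB {α : Type} (S : Finset α) (w : α → V3) (a b c d e f : ℝ) :
    ∑ p ∈ S, qfIsoB a b c d e f (w p) = a * momIsoB S w 0 0 + b * momIsoB S w 1 1
      + c * momIsoB S w 2 2 + 2 * d * momIsoB S w 0 1 + 2 * e * momIsoB S w 0 2
      + 2 * f * momIsoB S w 1 2 := by
  simp only [qfIsoB, momIsoB, sum_add_distrib, mul_sum]

theorem sum_dot_sqIsoB {α : Type} (S : Finset α) (w : α → V3) (x : V3) :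
    ∑ p ∈ S, dot x (w p) ^ 2 = qfIsoB (momIsoB S w 0 0) (momIsoB S w 1 1) (momIsoB S w 2 2)
      (momIsoB S w 0 1) (momIsoB S w 0 2) (momIsoB S w 1 2) x := by
  have h : ∀ p, dot x (w p) ^ 2 = qfIsoB (x 0 * x 0) (x 1 * x 1) (x 2 * x 2) (x 0 * x 1)
      (x 0 * x 2) (x 1 * x 2) (w p) := fun p => by
    unfold dot qfIsoB
    ring
  simp only [h, sum_qfIsoB]
  unfold qfIsoB
  ring

theorem sum_sum_sqIsoB {α : Type} (S : Finset α) (w : α → V3) :
    ∑ p ∈ S, ∑ q ∈ S, dot (w p) (w q) ^ 2 = momIsoB S w 0 0 ^ 2 + momIsoB S w 1 1 ^ 2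
      + momIsoB S w 2 2 ^ 2 + 2 * momIsoB S w 0 1 ^ 2 + 2 * momIsoB S w 0 2 ^ 2
      + 2 * momIsoB S w 1 2 ^ 2 := by
  simp only [sum_dot_sqIsoB, sum_qfIsoB]
  ring

theorem traceIsoB {α : Type} (S : Finset α) (w : α → V3) (hw : ∀ p ∈ S, dot (w p) (w p) = 1) :
    momIsoB S w 0 0 + momIsoB S w 1 1 + momIsoB S w 2 2 = S.card := by
  simp only [momIsoB, ← sum_add_distrib]
  rw [card_eq_sum_ones, Nat.cast_sum, Nat.cast_one]
  exact sum_congr rfl hw

theorem ap_leIsoB (a b c d e f : ℝ) {x : V3} (hx : dot x x = 1) :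
    dot (apIsoB a b c d e f x) (apIsoB a b c d e f x) ≤
      a ^ 2 + b ^ 2 + c ^ 2 + 2 * d ^ 2 + 2 * e ^ 2 + 2 * f ^ 2 := by
  have h1 := dot_sq_le ![a, d, e] x
  have h2 := dot_sq_le ![d, b, f] x
  have h3 := dot_sq_le ![e, f, c] x
  have e0 : dot (apIsoB a b c d e f x) (apIsoB a b c d e f x) =
      dot ![a, d, e] x ^ 2 + dot ![d, b, f] x ^ 2 + dot ![e, f, c] x ^ 2 := by
    rw [sq, sq, sq]
    rfl
  have e1 : dot ![a, d, e] ![a, d, e] = a * a + d * d + e * e := rfl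
  have e2 : dot ![d, b, f] ![d, b, f] = d * d + b * b + f * f := rfl
  have e3 : dot ![e, f, c] ![e, f, c] = e * e + f * f + c * c := rfl
  rw [hx, mul_one] at h1 h2 h3
  rw [e0]
  linarith only [h1, h2, h3, e1, e2, e3]

theorem qf_eqIsoB (a b c d e f : ℝ) (x : V3) :
    qfIsoB a b c d e f x = dot x (apIsoB a b c d e f x) := by
  simp [qfIsoB, apIsoB, dot]
  ring

theorem qf_sq_leIsoB (a b c d e f : ℝ) {x : V3} (hx : dot x x = 1) :
    qfIsoB a b c d e f x ^ 2 ≤ a ^ 2 + b ^ 2 + c ^ 2 + 2 * d ^ 2 + 2 * e ^ 2 + 2 * f ^ 2 := by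
  have h := dot_sq_le x (apIsoB a b c d e f x)
  rw [hx, one_mul, ← qf_eqIsoB] at h
  exact h.trans (ap_leIsoB a b c d e f hx)

/-- The matrix of the descent step. -/
noncomputable def kIsoB (a b c d e f : ℝ) : Matrix (Fin 3) (Fin 3) ℝ :=
  !![1 - a / 20, -d / 20, -e / 20; -d / 20, 1 - b / 20, -f / 20; -e / 20, -f / 20, 1 - c / 20]

theorem det_geIsoB {a b c d e f T : ℝ} (htr : a + b + c = 0)
    (hT : T = a ^ 2 + b ^ 2 + c ^ 2 + 2 * d ^ 2 + 2 * e ^ 2 + 2 * f ^ 2) (h6 : T ≤ 6) :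
    1 - T / 400 ≤ (kIsoB a b c d e f).det := by
  have hc : c = -a - b := by linarith only [htr]
  have e0 : (kIsoB a b c d e f).det =
      1 - T / 800 - det3 ![a, d, e] ![d, b, f] ![e, f, c] / 8000 := by
    rw [hT, hc]
    simp [kIsoB, Matrix.det_fin_three, det3]
    ring
  have h := det3_sq_le ![a, d, e] ![d, b, f] ![e, f, c]
  have n1 := dot_self_nonneg ![a, d, e]
  have n2 := dot_self_nonneg ![d, b, f]
  have n3 := dot_self_nonneg ![e, f, c]
  have e1 : dot ![a, d, e] ![a, d, e] = a * a + d * d + e * e := rfl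
  have e2 : dot ![d, b, f] ![d, b, f] = d * d + b * b + f * f := rfl
  have e3 : dot ![e, f, c] ![e, f, c] = e * e + f * f + c * c := rfl
  have hs : dot ![a, d, e] ![a, d, e] + dot ![d, b, f] ![d, b, f] + dot ![e, f, c] ![e, f, c]
      = T := by
    rw [e1, e2, e3, hT]
    ring
  have hT0 : 0 ≤ T := by linarith only [hT, n1, n2, n3, e1, e2, e3]
  have h1 : dot ![a, d, e] ![a, d, e] * dot ![d, b, f] ![d, b, f] * dot ![e, f, c] ![e, f, c]
      ≤ T * T * 9 :=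
    mul_le_mul (mul_le_mul (by linarith only [hT, n2, n3, e1, e2, e3]) (by linarith only [hT, n1, n3, e1, e2, e3]) n2 hT0) (by linarith only [hT, h6, n1, n2, e1, e2, e3]) n3
      (mul_nonneg hT0 hT0)
  have h2 : det3 ![a, d, e] ![d, b, f] ![e, f, c] ≤ 3 * T :=
    (abs_le_of_sq_le_sq' (by linarith only [h, h1]) (by linarith only [hT, n1, n2, n3, e1, e2, e3])).2
  rw [e0]
  linarith only [hT, n1, n2, n3, e1, e2, e3, h2]

theorem log_detIsoB {D T : ℝ} (h0 : 0 ≤ T) (h6 : T ≤ 6) (h : 1 - T / 400 ≤ D) :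
    -(T / 100) ≤ Real.log (D ^ 2) := by
  have hD : 0 < D := by linarith only [h6, h]
  have h1 := Real.one_sub_inv_le_log_of_pos hD
  have h2 : D⁻¹ ≤ 1 + T / 200 := by
    rw [inv_le_iff_one_le_mul₀ hD]
    linarith only [h0, h, h6, mul_nonneg_of_nonpos_of_nonpos (Mathlib.Tactic.Linarith.sub_nonpos_of_le h0) (Mathlib.Tactic.Linarith.sub_nonpos_of_le h6), mul_nonneg_of_nonpos_of_nonpos (Mathlib.Tactic.Linarith.sub_nonpos_of_le h0) (Mathlib.Tactic.Linarith.sub_nonpos_of_le h)]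
  rw [Real.log_pow]
  push_cast
  linarith only [h1, h2]

theorem log_vecIsoB {a b c d e f T : ℝ}
    (hT : T = a ^ 2 + b ^ 2 + c ^ 2 + 2 * d ^ 2 + 2 * e ^ 2 + 2 * f ^ 2) (h6 : T ≤ 6) {x : V3}
    (hx : dot x x = 1) :
    Real.log (dot ((kIsoB a b c d e f).mulVec x) ((kIsoB a b c d e f).mulVec x)) ≤
      T / 400 - qfIsoB a b c d e f x / 10 := by
  have e0 : dot ((kIsoB a b c d e f).mulVec x) ((kIsoB a b c d e f).mulVec x) =
      dot x x - qfIsoB a b c d e f x / 10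
        + dot (apIsoB a b c d e f x) (apIsoB a b c d e f x) / 400 := by
    simp [kIsoB, qfIsoB, apIsoB, dot, Matrix.mulVec, dotProduct, Fin.sum_univ_three]
    ring
  have h1 := ap_leIsoB a b c d e f hx
  have h2 := qf_sq_leIsoB a b c d e f hx
  have h3 := dot_self_nonneg (apIsoB a b c d e f x)
  have h4 : qfIsoB a b c d e f x ≤ 3 := (abs_le_of_sq_le_sq' (by linarith only [hT, h6, h2]) (by norm_num)).2
  rw [e0, hx]
  refine (Real.log_le_sub_one_of_pos (by linarith only [h3, h4])).trans ?_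
  linarith only [hT, h1]

variable {α : Type} [DecidableEq α]

omit [DecidableEq α] in
theorem descent (S : Finset α) (hS : S.Nonempty) (w : α → V3)
    (hw : ∀ p ∈ S, dot (w p) (w p) = 1) :
    ∃ k : Matrix (Fin 3) (Fin 3) ℝ, k.det ≠ 0 ∧
      ∑ p ∈ S, Real.log (dot (k.mulVec (w p)) (k.mulVec (w p)))
        - (S.card : ℝ) / 3 * Real.log (k.det ^ 2)
      ≤ -(∑ p ∈ S, ∑ q ∈ S, dot (w p) (w q) ^ 2 - (S.card : ℝ) ^ 2 / 3) / (10 * S.card) := by
  have hn : (0 : ℝ) < S.card := by exact_mod_cast hS.card_pos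
  have hex : ∀ m r : ℝ, ∃ a : ℝ, m = S.card / 3 * (a + r) := fun m r =>
    ⟨3 / S.card * m - r, by field_simp; ring⟩
  obtain ⟨a, ha⟩ := hex (momIsoB S w 0 0) 1
  obtain ⟨b, hb⟩ := hex (momIsoB S w 1 1) 1
  obtain ⟨c, hc⟩ := hex (momIsoB S w 2 2) 1
  obtain ⟨d, hd⟩ := hex (momIsoB S w 0 1) 0
  obtain ⟨e, he⟩ := hex (momIsoB S w 0 2) 0
  obtain ⟨f, hf⟩ := hex (momIsoB S w 1 2) 0
  obtain ⟨T, hT⟩ : ∃ T, T = a ^ 2 + b ^ 2 + c ^ 2 + 2 * d ^ 2 + 2 * e ^ 2 + 2 * f ^ 2 := ⟨_, rfl⟩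
  have htr : a + b + c = 0 := by
    have h := traceIsoB S w hw
    rw [ha, hb, hc] at h
    have h' : (S.card : ℝ) * (a + b + c) = 0 := by linarith only [h]
    exact (mul_eq_zero.1 h').resolve_left hn.ne'
  have hΔ : ∑ p ∈ S, ∑ q ∈ S, dot (w p) (w q) ^ 2 - (S.card : ℝ) ^ 2 / 3 =
      (S.card : ℝ) ^ 2 * T / 9 := by
    rw [sum_sum_sqIsoB, ha, hb, hc, hd, he, hf, hT]
    linear_combination (2 * (S.card : ℝ) ^ 2 / 9) * htr
  have hT0 : 0 ≤ T := by
    rw [hT]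
    positivity
  have h6 : T ≤ 6 := by
    have h1 : ∑ p ∈ S, ∑ q ∈ S, dot (w p) (w q) ^ 2 ≤ ∑ _p ∈ S, ∑ _q ∈ S, (1 : ℝ) :=
      sum_le_sum fun p hp => sum_le_sum fun q hq => dot_sq_le_one (hw p hp) (hw q hq)
    simp only [sum_const, nsmul_eq_mul, mul_one] at h1
    refine le_of_mul_le_mul_left ?_ (pow_pos hn 2)
    linarith only [hΔ, h1]
  have hdet := det_geIsoB htr hT h6
  refine ⟨kIsoB a b c d e f, by linarith only [h6, hdet], ?_⟩
  have h1 := sum_le_sum fun p hp => log_vecIsoB hT h6 (hw p hp)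
  have h2 : ∑ p ∈ S, (T / 400 - qfIsoB a b c d e f (w p) / 10) =
      S.card * T / 400 - S.card * T / 30 := by
    rw [sum_sub_distrib, ← sum_div S (fun p => qfIsoB a b c d e f (w p)), sum_qfIsoB, ha, hb, hc,
      hd, he, hf, sum_const, nsmul_eq_mul, hT]
    linear_combination (-(S.card : ℝ) / 30) * htr
  have h3 := mul_le_mul_of_nonneg_left (log_detIsoB hT0 h6 hdet) (show 0 ≤ (S.card : ℝ) / 3 by
    positivity)
  have h4 : -((S.card : ℝ) ^ 2 * T / 9) / (10 * S.card) = -(S.card * T / 90) := by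
    field_simp
    ring
  have h5 : 0 ≤ (S.card : ℝ) * T := mul_nonneg hn.le hT0
  rw [hΔ, h4]
  linarith only [h1, h2, h3, h5]

omit [DecidableEq α] in
theorem iso_of_sq (S : Finset α) (w : α → V3) (hw : ∀ p ∈ S, dot (w p) (w p) = 1)
    {a : V3} (ha : dot a a = 1) :
    (∑ p ∈ S, dot a (w p) ^ 2 - (S.card : ℝ) / 3) ^ 2
      ≤ ∑ p ∈ S, ∑ q ∈ S, dot (w p) (w q) ^ 2 - (S.card : ℝ) ^ 2 / 3 := by
  have h := qf_sq_leIsoB (momIsoB S w 0 0 - S.card / 3) (momIsoB S w 1 1 - S.card / 3)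
    (momIsoB S w 2 2 - S.card / 3) (momIsoB S w 0 1) (momIsoB S w 0 2) (momIsoB S w 1 2) ha
  have htr := traceIsoB S w hw
  have e : ∑ p ∈ S, dot a (w p) ^ 2 - (S.card : ℝ) / 3 =
      qfIsoB (momIsoB S w 0 0 - S.card / 3) (momIsoB S w 1 1 - S.card / 3)
        (momIsoB S w 2 2 - S.card / 3) (momIsoB S w 0 1) (momIsoB S w 0 2) (momIsoB S w 1 2) a := by
    rw [sum_dot_sqIsoB]
    unfold qfIsoB
    unfold dot at ha
    linear_combination ((S.card : ℝ) / 3) * ha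
  rw [e, sum_sum_sqIsoB]
  refine h.trans (le_of_eq ?_)
  linear_combination (-2 * (S.card : ℝ) / 3) * htr

end Pool.Agent.Work.MP_d88d93_co
end
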